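import Pool.Agent.H508R3.AT.Stmts

/-!
Task T4 of the project 508-AT (two histories).
-/

set_option autoImplicit false

namespace Pool.Agent.H8R3.AT

open MeasureTheory Filter Topology Set Matrix ProbabilityTheory
open Pool.Agent.H695R3.AT
open Pool.Agent.H508R3.AT

lemma atoms_le {Pv : Measure ℝ} [IsProbabilityMeasure Pv] (h : ∀ c : ℝ, Pv {c} < 1) :
    ∃ α : ℝ, 0 ≤ α ∧ α < 1 ∧ ∀ c : ℝ, Pv {c} ≤ ENNReal.ofReal α := by
  by_cases hc : ∃ c₀ : ℝ, 1 / 2 < Pv.real {c₀}
  · obtain ⟨c₀, hc₀⟩ := hc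
    have h1 : Pv.real {c₀} < 1 := by
      have := h c₀
      rw [Measure.real]
      exact (ENNReal.toReal_lt_toReal (measure_ne_top _ _) ENNReal.one_ne_top).2 this
    refine ⟨Pv.real {c₀}, measureReal_nonneg, h1, fun c => ?_⟩
    rw [← ofReal_measureReal (measure_ne_top _ _)]
    apply ENNReal.ofReal_le_ofReal
    by_cases hcc : c = c₀
    · rw [hcc]
    · have h2 : Pv.real {c} + Pv.real {c₀} ≤ 1 := by
        rw [← measureReal_union (by simpa using hcc) (measurableSet_singleton _)]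
        exact measureReal_le_one
      linarith
  · push Not at hc
    refine ⟨1 / 2, by norm_num, by norm_num, fun c => ?_⟩
    rw [← ofReal_measureReal (measure_ne_top _ _)]
    exact ENNReal.ofReal_le_ofReal (hc c)

lemma comb_comb {s : ℕ → ℕ} (N : ℕ) (g w v : Om s) :
    comb s N g (comb s (N + 1) w v) = comb s (N + 1) (comb s N g w) v := by
  funext x
  unfold comb
  by_cases h1 : x.1 < N
  · have h2 : x.1 < N + 1 := by omega
    simp [h1, h2]
  · by_cases h2 : x.1 < N + 1
    · simp [h1, h2]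
    · simp [h1, h2]

lemma comb_meas {s : ℕ → ℕ} (N : ℕ) (g : Om s) : Measurable (fun v : Om s => comb s N g v) := by
  refine measurable_pi_lambda _ fun x => ?_
  unfold comb
  by_cases h : x.1 < N
  · simp only [h, if_true]; exact measurable_const
  · simp only [h, if_false]; exact measurable_pi_apply x

lemma sum_atom {s : ℕ → ℕ} (hs : ∀ n, 0 < s n) {Pv : Measure ℝ} [IsProbabilityMeasure Pv]
    {α : ℝ} (hα : ∀ c : ℝ, Pv {c} ≤ ENNReal.ofReal α) (N : ℕ) (c : ℝ) :
    PP s Pv {v | ∑ i : Fin (s N), v ⟨N, i⟩ = c} ≤ ENNReal.ofReal α := by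
  classical
  set i0 : Fin (s N) := ⟨0, hs N⟩ with hi0
  -- the coordinates of the shell `N` are independent
  have hind : iIndepFun (fun (x : Vtx s) (v : Om s) => v x) (PP s Pv) := by
    have := iIndepFun_infinitePi (P := fun _ : Vtx s => Pv) (X := fun (_ : Vtx s) (a : ℝ) => a)
      (fun _ => measurable_id)
    exact this
  have hmap : ∀ x : Vtx s, (PP s Pv).map (fun v : Om s => v x) = Pv := by
    intro x
    exact (measurePreserving_eval_infinitePi (fun _ : Vtx s => Pv) x).map_eq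
  have hind2 : iIndepFun (fun (i : Fin (s N)) (v : Om s) => v ⟨N, i⟩) (PP s Pv) := by
    have hinj : Function.Injective (fun i : Fin (s N) => (⟨N, i⟩ : Vtx s)) := by
      intro a b hab
      simpa using hab
    exact hind.precomp hinj
  have hind3 : IndepFun (∑ i ∈ (Finset.univ.erase i0), fun (v : Om s) => v ⟨N, i⟩)
      (fun v : Om s => v ⟨N, i0⟩) (PP s Pv) :=
    hind2.indepFun_finsetSum_of_notMem (fun i => measurable_pi_apply _) (Finset.notMem_erase _ _)
  set Y : Om s → ℝ := ∑ i ∈ (Finset.univ.erase i0), fun (v : Om s) => v ⟨N, i⟩ with hY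
  have hYm : Measurable Y := by
    have h8 : Y = fun v : Om s => ∑ i ∈ (Finset.univ.erase i0), v ⟨N, i⟩ := by
      funext v
      rw [hY, Finset.sum_apply]
    rw [h8]
    exact Finset.measurable_sum (s := Finset.univ.erase i0)
      (f := fun (i : Fin (s N)) (v : Om s) => v ⟨N, i⟩) (fun i _ => measurable_pi_apply _)
  have hXm : Measurable (fun v : Om s => v ⟨N, i0⟩) := measurable_pi_apply _
  have hprod := (indepFun_iff_map_prod_eq_prod_map_map hYm.aemeasurable hXm.aemeasurable).1 hind3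
  have hset : {v : Om s | ∑ i : Fin (s N), v ⟨N, i⟩ = c} =
      (fun v : Om s => (Y v, v ⟨N, i0⟩)) ⁻¹' {p : ℝ × ℝ | p.1 + p.2 = c} := by
    ext v
    simp only [Set.mem_ofPred_eq, Set.mem_preimage]
    rw [hY, Finset.sum_apply, ← Finset.sum_erase_add _ _ (Finset.mem_univ i0)]
  have hmeas : MeasurableSet {p : ℝ × ℝ | p.1 + p.2 = c} :=
    measurableSet_eq_fun (measurable_fst.add measurable_snd) measurable_const
  rw [hset, ← Measure.map_apply (hYm.prodMk hXm) hmeas, hprod, hmap,
    Measure.prod_apply hmeas]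
  have hfib : ∀ y : ℝ, Pv (Prod.mk y ⁻¹' {p : ℝ × ℝ | p.1 + p.2 = c}) ≤ ENNReal.ofReal α := by
    intro y
    have : (Prod.mk y ⁻¹' {p : ℝ × ℝ | p.1 + p.2 = c}) = {c - y} := by
      ext x
      simp only [Set.mem_preimage, Set.mem_ofPred_eq, Set.mem_singleton_iff]
      constructor
      · intro h; linarith
      · intro h; linarith
    rw [this]
    exact hα _
  have : IsProbabilityMeasure ((PP s Pv).map Y) :=
    Measure.isProbabilityMeasure_map hYm.aemeasurable
  calc ∫⁻ y, Pv (Prod.mk y ⁻¹' {p : ℝ × ℝ | p.1 + p.2 = c}) ∂((PP s Pv).map Y)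
      ≤ ∫⁻ _, ENNReal.ofReal α ∂((PP s Pv).map Y) := lintegral_mono hfib
    _ = ENNReal.ofReal α := by simp

theorem t4 (h0 : T0) (h3 : T3) : T4 := by
  intro s hs Pv hG B hB hPB ε hε
  obtain ⟨hP, -, hat⟩ := hG
  obtain ⟨α, hα0, hα1, hα⟩ := atoms_le hat
  set e : ℝ := min ε ((1 - α) / 2) with he
  have he0 : 0 < e := lt_min hε (by linarith)
  have heε : e ≤ ε := min_le_left _ _
  have heα : e ≤ (1 - α) / 2 := min_le_right _ _
  obtain ⟨N, g0, hg0⟩ := h3 s Pv hP B hB hPB (e ^ 2) (by positivity)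
  have hCm : MeasurableSet {v : Om s | comb s N g0 v ∉ B} := (comb_meas N g0 hB).compl
  have hmp := h0 s Pv hP (N + 1)
  have h1 : (PP s Pv).prod (PP s Pv)
      ((fun p : Om s × Om s => comb s (N + 1) p.1 p.2) ⁻¹' {v : Om s | comb s N g0 v ∉ B}) ≤
      ENNReal.ofReal (e ^ 2) := by
    rw [hmp.measure_preimage hCm.nullMeasurableSet]
    exact hg0
  rw [Measure.prod_apply (hmp.measurable hCm)] at h1
  set F : Om s → ENNReal := fun w => PP s Pv {v | comb s (N + 1) (comb s N g0 w) v ∉ B} with hF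
  have hFeq : ∀ w : Om s, PP s Pv (Prod.mk w ⁻¹' ((fun p : Om s × Om s => comb s (N + 1) p.1 p.2) ⁻¹'
      {v : Om s | comb s N g0 v ∉ B})) = F w := by
    intro w
    rw [hF]
    congr 1
    ext v
    simp only [Set.mem_preimage, Set.mem_ofPred_eq, comb_comb]
  have hFm : Measurable F := by
    have := measurable_measure_prodMk_left (ν := PP s Pv) (hmp.measurable hCm)
    have h7 : F = fun w => PP s Pv (Prod.mk w ⁻¹' ((fun p : Om s × Om s => comb s (N + 1) p.1 p.2) ⁻¹'
        {v : Om s | comb s N g0 v ∉ B})) := by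
      funext w
      exact (hFeq w).symm
    rw [h7]
    exact this
  simp only [hFeq] at h1
  -- Markov
  have h2 : ENNReal.ofReal e * PP s Pv {w | ENNReal.ofReal e ≤ F w} ≤ ENNReal.ofReal (e ^ 2) :=
    (mul_meas_ge_le_lintegral hFm _).trans h1
  have h4 : PP s Pv {w | ENNReal.ofReal e ≤ F w} ≤ ENNReal.ofReal e := by
    rw [pow_two, ENNReal.ofReal_mul he0.le] at h2
    exact (ENNReal.mul_le_mul_iff_right (by simpa using he0) ENNReal.ofReal_ne_top).1 h2
  have hex : ∃ w w' : Om s, F w < ENNReal.ofReal e ∧ F w' < ENNReal.ofReal e ∧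
      ∑ i : Fin (s N), w ⟨N, i⟩ ≠ ∑ i : Fin (s N), w' ⟨N, i⟩ := by
    by_contra hcon
    push Not at hcon
    have h5 : PP s Pv {w | F w < ENNReal.ofReal e} ≤ ENNReal.ofReal α := by
      rcases Set.eq_empty_or_nonempty {w | F w < ENNReal.ofReal e} with hE | ⟨w, hw⟩
      · rw [hE]; simp
      · refine (measure_mono ?_).trans (sum_atom hs hα N (∑ i : Fin (s N), w ⟨N, i⟩))
        intro w' hw'
        exact hcon w' w hw' hw
    have h6 : (1 : ENNReal) ≤ ENNReal.ofReal α + ENNReal.ofReal e := by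
      calc (1 : ENNReal) = PP s Pv Set.univ := by simp
        _ ≤ PP s Pv ({w | F w < ENNReal.ofReal e} ∪ {w | ENNReal.ofReal e ≤ F w}) := by
            apply measure_mono
            intro w _
            exact lt_or_ge (F w) (ENNReal.ofReal e)
        _ ≤ _ := (measure_union_le _ _).trans (add_le_add h5 h4)
    rw [← ENNReal.ofReal_add hα0 he0.le, ← ENNReal.ofReal_one,
      ENNReal.ofReal_le_ofReal_iff (by linarith)] at h6
    linarith
  obtain ⟨w, w', hw, hw', hne⟩ := hex
  have hsum : ∀ u : Om s, ∑ i : Fin (s N), comb s N g0 u ⟨N, i⟩ = ∑ i : Fin (s N), u ⟨N, i⟩ := by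
    intro u
    simp [comb]
  refine ⟨N, comb s N g0 w, comb s N g0 w', ?_, ?_, ?_, ?_⟩
  · intro x hx
    simp [comb, hx]
  · rw [hsum, hsum]; exact hne
  · exact hw.le.trans (ENNReal.ofReal_le_ofReal heε)
  · exact hw'.le.trans (ENNReal.ofReal_le_ofReal heε)

end Pool.Agent.H8R3.AT
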