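import Mathlib

set_option autoImplicit false

/-!
A locally compact group with small invariant neighbourhoods, all of whose abelian subgroups have
compact closure and which is topologically locally finite, but which is neither compact nor
totally disconnected: a central extension of an infinite discrete elementary abelian 2-group by
a torus of infinite dimension.
-/

namespace Pool.Agent.H8R3.Bal

/-- The compact centre. -/
abbrev N := ℕ → ℕ → UnitAddCircle

/-- The underlying type of the quotient. -/
abbrev W := ℕ →₀ ZMod 2

/-- The cocycle. -/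
noncomputable def bt (v w : W) : N := fun i j => ZMod.toAddCircle (v i * w j)

theorem bt_add_left (v v' w : W) : bt (v + v') w = bt v w + bt v' w := by
  funext i j
  simp only [bt, Finsupp.add_apply, add_mul, map_add, Pi.add_apply]

theorem bt_add_right (v w w' : W) : bt v (w + w') = bt v w + bt v w' := by
  funext i j
  simp only [bt, Finsupp.add_apply, mul_add, map_add, Pi.add_apply]

theorem bt_zero_left (w : W) : bt 0 w = 0 := by
  funext i j
  simp [bt]

theorem bt_zero_right (w : W) : bt w 0 = 0 := by
  funext i j
  simp [bt]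

theorem bt_neg_left (v w : W) : bt (-v) w = - bt v w := by
  funext i j
  simp only [bt, Finsupp.neg_apply, neg_mul, map_neg, Pi.neg_apply]

theorem bt_neg_right (v w : W) : bt v (-w) = - bt v w := by
  funext i j
  simp only [bt, Finsupp.neg_apply, mul_neg, map_neg, Pi.neg_apply]

theorem bt_apply (v w : W) (i j : ℕ) : bt v w i j = ZMod.toAddCircle (v i * w j) := rfl

attribute [irreducible] bt

/-- The group. -/
def G := N × W

noncomputable instance : Group G where
  mul x y := (x.1 + y.1 + bt x.2 y.2, x.2 + y.2)
  one := (0, 0)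
  inv x := (-x.1 + bt x.2 x.2, -x.2)
  mul_assoc x y z := by
    apply Prod.ext
    · change (x.1 + y.1 + bt x.2 y.2) + z.1 + bt (x.2 + y.2) z.2 =
        x.1 + (y.1 + z.1 + bt y.2 z.2) + bt x.2 (y.2 + z.2)
      rw [bt_add_left, bt_add_right]
      abel
    · exact add_assoc _ _ _
  one_mul x := by
    apply Prod.ext
    · change 0 + x.1 + bt 0 x.2 = x.1
      rw [bt_zero_left]; simp
    · exact zero_add _
  mul_one x := by
    apply Prod.ext
    · change x.1 + 0 + bt x.2 0 = x.1
      rw [bt_zero_right]; simp
    · exact add_zero _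
  inv_mul_cancel x := by
    apply Prod.ext
    · change (-x.1 + bt x.2 x.2) + x.1 + bt (-x.2) x.2 = 0
      rw [bt_neg_left]; abel
    · exact neg_add_cancel _

theorem mul_fst (x y : G) : (x * y).1 = x.1 + y.1 + bt x.2 y.2 := rfl
theorem mul_snd (x y : G) : (x * y).2 = x.2 + y.2 := rfl
theorem one_fst : (1 : G).1 = 0 := rfl
theorem one_snd : (1 : G).2 = 0 := rfl
theorem inv_fst (x : G) : (x⁻¹).1 = -x.1 + bt x.2 x.2 := rfl
theorem inv_snd (x : G) : (x⁻¹).2 = -x.2 := rfl

local instance topW : TopologicalSpace W := ⊥
local instance discW : DiscreteTopology W := ⟨rfl⟩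

instance : TopologicalSpace G := inferInstanceAs (TopologicalSpace (N × W))
instance : T2Space G := inferInstanceAs (T2Space (N × W))
instance : LocallyCompactSpace G := inferInstanceAs (LocallyCompactSpace (N × W))

theorem cont_fst : Continuous (fun x : G => x.1) := continuous_fst (X := N) (Y := W)
theorem cont_snd : Continuous (fun x : G => x.2) := continuous_snd (X := N) (Y := W)

local instance discWW : DiscreteTopology (W × W) := by
  rw [discreteTopology_iff_forall_isOpen]
  intro s
  have : s = ⋃ x ∈ s, ({x.1} : Set W) ×ˢ ({x.2} : Set W) := by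
    ext y
    simp only [Set.mem_iUnion, Set.mem_prod, Set.mem_singleton_iff, exists_prop]
    constructor
    · intro hy; exact ⟨y, hy, rfl, rfl⟩
    · rintro ⟨x, hx, h1, h2⟩
      have : y = x := Prod.ext h1 h2
      rw [this]; exact hx
  rw [this]
  exact isOpen_biUnion (fun x _ => (isOpen_discrete _).prod (isOpen_discrete _))

instance cN : ContinuousAdd N := inferInstance
instance cnN : ContinuousNeg N := inferInstance

def pf (x : G) : N := x.1
def pg (x : G) : W := x.2

theorem cont_pf : Continuous pf := continuous_fst (X := N) (Y := W)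
theorem cont_pg : Continuous pg := continuous_snd (X := N) (Y := W)

theorem cont_mul : Continuous (fun p : G × G => p.1 * p.2) := by
  have b1 : Continuous (fun p : G × G => pf p.1) := cont_pf.comp continuous_fst
  have b2 : Continuous (fun p : G × G => pf p.2) := cont_pf.comp continuous_snd
  have b3 : Continuous (fun p : G × G => pg p.1) := cont_pg.comp continuous_fst
  have b4 : Continuous (fun p : G × G => pg p.2) := cont_pg.comp continuous_snd
  have h1 : Continuous (fun t : W × W => bt t.1 t.2) := continuous_of_discreteTopology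
  have h2 : Continuous (fun t : W × W => t.1 + t.2) := continuous_of_discreteTopology
  have b5 : Continuous (fun p : G × G => bt (pg p.1) (pg p.2)) := h1.comp (b3.prodMk b4)
  have b6 : Continuous (fun p : G × G => pg p.1 + pg p.2) := h2.comp (b3.prodMk b4)
  have b7 : Continuous (fun p : G × G => pf p.1 + pf p.2 + bt (pg p.1) (pg p.2)) :=
    (b1.add b2).add b5
  exact b7.prodMk b6

theorem cont_inv : Continuous (fun p : G => p⁻¹) := by
  have h1 : Continuous (fun t : W => bt t t) := continuous_of_discreteTopology
  have h2 : Continuous (fun t : W => - t) := continuous_of_discreteTopology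
  have b5 : Continuous (fun p : G => bt (pg p) (pg p)) := h1.comp cont_pg
  have b6 : Continuous (fun p : G => - pg p) := h2.comp cont_pg
  have b7 : Continuous (fun p : G => - pf p + bt (pg p) (pg p)) := (cont_pf.neg).add b5
  exact b7.prodMk b6

instance : IsTopologicalGroup G where
  continuous_mul := cont_mul
  continuous_inv := cont_inv

/-- Sets lying over a finite subset of `W` are relatively compact. -/
theorem compact_over (F : Set W) (hF : F.Finite) (S : Set G) (hS : ∀ x ∈ S, x.2 ∈ F) :
    IsCompact (closure S) := by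
  have h1 : IsCompact ((Set.univ : Set N) ×ˢ F) := isCompact_univ.prod hF.isCompact
  have h2 : S ⊆ ((Set.univ : Set N) ×ˢ F : Set (N × W)) := fun x hx => ⟨Set.mem_univ _, hS x hx⟩
  exact IsCompact.closure_of_subset (X := G) h1 h2

theorem sin : ∀ U ∈ nhds (1 : G), ∃ V ∈ nhds (1 : G), V ⊆ U ∧
    ∀ g x : G, x ∈ V → g * x * g⁻¹ ∈ V := by
  intro U hU
  refine ⟨U ∩ {x | x.2 = 0}, ?_, Set.inter_subset_left, ?_⟩
  · apply Filter.inter_mem hU
    apply IsOpen.mem_nhds
    · exact (isOpen_discrete ({0} : Set W)).preimage cont_snd
    · exact one_snd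
  · rintro g x ⟨hx, hx2⟩
    have hx2' : x.2 = 0 := hx2
    have : g * x * g⁻¹ = x := by
      rw [mul_inv_eq_iff_eq_mul]
      apply Prod.ext
      · rw [mul_fst, mul_fst, hx2', bt_zero_left, bt_zero_right]
        abel
      · rw [mul_snd, mul_snd, add_comm]
    rw [this]
    exact ⟨hx, hx2⟩

theorem abel_cl : ∀ H : Subgroup G, (∀ a ∈ H, ∀ b ∈ H, a * b = b * a) →
    IsCompact (closure (H : Set G)) := by
  intro H hH
  by_cases h : ∃ h0 ∈ H, (h0 : G).2 ≠ 0
  · obtain ⟨h0, h0H, hne⟩ := h
    obtain ⟨i0, hi0⟩ : ∃ i, h0.2 i ≠ 0 := by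
      by_contra hcon
      push Not at hcon
      exact hne (Finsupp.ext hcon)
    have hi1 : h0.2 i0 = 1 := by
      have : ∀ a : ZMod 2, a ≠ 0 → a = 1 := by decide
      exact this _ hi0
    apply compact_over {0, h0.2} (Set.toFinite _)
    intro x hx
    have h1 := congrArg Prod.fst (hH h0 h0H x hx)
    have h2 : h0.1 + x.1 + bt h0.2 x.2 = x.1 + h0.1 + bt x.2 h0.2 := h1
    have h3 : bt h0.2 x.2 = bt x.2 h0.2 := by
      rw [add_comm x.1 h0.1] at h2
      exact add_left_cancel h2
    have h4 : ∀ j, x.2 j = x.2 i0 * h0.2 j := by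
      intro j
      have h5 := congrFun (congrFun h3 i0) j
      simp only [bt_apply] at h5
      have h6 := ZMod.toAddCircle_injective 2 h5
      rw [hi1, one_mul] at h6
      exact h6
    by_cases hx0 : x.2 i0 = 0
    · left
      ext j
      rw [h4 j, hx0]; simp
    · right
      have : ∀ a : ZMod 2, a ≠ 0 → a = 1 := by decide
      have hx1 := this _ hx0
      ext j
      rw [h4 j, hx1, one_mul]
  · push Not at h
    apply compact_over {0} (Set.toFinite _)
    intro x hx
    exact h x hx

/-- The finite subgroup of elements supported below `n`. -/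
theorem fin_supp (n : ℕ) : {v : W | ∀ i, n ≤ i → v i = 0}.Finite := by
  apply Set.Finite.of_injOn (f := fun v : W => (fun i : Fin n => v i)) (t := Set.univ)
  · intro x _; exact Set.mem_univ _
  · intro v hv w hw hvw
    ext i
    by_cases hi : i < n
    · exact congrFun hvw ⟨i, hi⟩
    · push Not at hi
      rw [hv i hi, hw i hi]
  · exact Set.toFinite _

theorem loc_fin : ∀ K : Set G, IsCompact (closure K) →
    IsCompact (closure ((Subgroup.closure K : Subgroup G) : Set G)) := by
  intro K hK
  have h1 : ((fun x : G => x.2) '' (closure K)).Finite :=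
    (hK.image cont_snd).finite_of_discrete
  obtain ⟨n, hn⟩ : ∃ n : ℕ, ∀ x ∈ K, ∀ i, n ≤ i → (x : G).2 i = 0 := by
    obtain ⟨n, hn⟩ : ∃ n : ℕ, ∀ v ∈ (fun x : G => x.2) '' (closure K), ∀ i ∈ v.support, i < n := by
      have h2 : (⋃ v ∈ (fun x : G => x.2) '' (closure K), (v.support : Set ℕ)).Finite :=
        h1.biUnion (fun v _ => v.support.finite_toSet)
      obtain ⟨m, hm⟩ := h2.bddAbove
      refine ⟨m + 1, ?_⟩
      intro v hv i hi
      have := hm (Set.mem_biUnion hv hi)
      omega
    refine ⟨n, ?_⟩
    intro x hx i hi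
    by_contra hne
    have := hn x.2 ⟨x, subset_closure hx, rfl⟩ i (Finsupp.mem_support_iff.mpr hne)
    omega
  apply compact_over _ (fin_supp n)
  intro x hx
  induction hx using Subgroup.closure_induction with
  | mem y hy => exact fun i hi => hn y hy i hi
  | one => intro i _; rfl
  | mul a b _ _ ha hb =>
    intro i hi
    rw [mul_snd, Finsupp.add_apply, ha i hi, hb i hi, add_zero]
  | inv a _ ha =>
    intro i hi
    rw [inv_snd, Finsupp.neg_apply, ha i hi, neg_zero]

theorem not_compact : ¬ CompactSpace G := by
  intro h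
  have h1 : (Set.univ : Set W).Finite := by
    have h2 : (fun x : G => x.2) '' Set.univ = Set.univ := by
      ext v
      simp only [Set.mem_image, Set.mem_univ, true_and, iff_true]
      exact ⟨((0, v) : N × W), rfl⟩
    rw [← h2]
    exact (isCompact_univ.image cont_snd).finite_of_discrete
  have h3 : Function.Injective (fun n : ℕ => (Finsupp.single n 1 : W)) :=
    Finsupp.single_left_injective (one_ne_zero)
  have h4 : Finite W := Set.finite_univ_iff.mp h1
  exact not_finite_iff_infinite.mpr (Infinite.of_injective _ h3) h4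

theorem not_td : ¬ TotallyDisconnectedSpace G := by
  intro h
  let f : UnitAddCircle → G := fun t => ((fun _ _ => t, 0) : N × W)
  have hf : Continuous f := by
    have a1 : Continuous (fun t : UnitAddCircle => ((fun _ _ => t) : N)) :=
      continuous_pi (fun _ => continuous_pi (fun _ => continuous_id))
    have a2 : Continuous (fun _ : UnitAddCircle => (0 : W)) := continuous_const
    have a3 : Continuous (fun t : UnitAddCircle => (((fun _ _ => t), 0) : N × W)) := a1.prodMk a2
    exact a3
  have h1 : IsPreconnected (Set.range f) := isPreconnected_range hf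
  have h2 := h.isTotallyDisconnected_univ _ (Set.subset_univ _) h1
  have h3 : f 0 = f (ZMod.toAddCircle (1 : ZMod 2)) := h2 ⟨_, rfl⟩ ⟨_, rfl⟩
  have h4 := congrFun (congrFun (congrArg Prod.fst h3) 0) 0
  have h5 : (0 : UnitAddCircle) = ZMod.toAddCircle (1 : ZMod 2) := h4
  have h6 : ZMod.toAddCircle (0 : ZMod 2) = ZMod.toAddCircle (1 : ZMod 2) := by
    rw [map_zero]; exact h5
  have h7 := ZMod.toAddCircle_injective 2 h6
  exact absurd h7 (by decide)

end Pool.Agent.H8R3.Bal
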