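import Mathlib

set_option autoImplicit false

namespace Pool.Agent.H8R3.Hopf

/-- the symmetric group of degree three -/
abbrev S := Equiv.Perm (Fin 3)

/-- finitely supported sequences in `S` -/
def G : Subgroup (ℕ → S) where
  carrier := {f | (Function.mulSupport f).Finite}
  one_mem' := by simp
  mul_mem' := by
    intro a b ha hb
    exact (ha.union hb).subset (Function.mulSupport_mul a b)
  inv_mem' := by
    intro a ha
    rw [Set.mem_ofPred_eq, Function.mulSupport_inv]
    exact ha

theorem fin (f : G) : (Function.mulSupport f.1).Finite := f.2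

theorem finSign (f : G) : (Function.mulSupport (fun n => Equiv.Perm.sign (f.1 n))).Finite := by
  refine (fin f).subset ?_
  intro n hn hf
  apply hn
  change Equiv.Perm.sign (f.1 n) = 1
  have : f.1 n = 1 := hf
  rw [this, map_one]

/-- the total sign -/
noncomputable def sg : G →* ℤˣ where
  toFun f := ∏ᶠ n, Equiv.Perm.sign (f.1 n)
  map_one' := by
    have : ∀ n : ℕ, Equiv.Perm.sign ((1 : G).1 n) = 1 := fun n => map_one _
    simp only [this, finprod_one]
  map_mul' f g := by
    rw [← finprod_mul_distrib (finSign f) (finSign g)]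
    apply finprod_congr
    intro n
    exact map_mul _ _ _

/-- sequences of total sign one -/
noncomputable def H : Subgroup G := sg.ker

theorem mem_H (f : G) : f ∈ H ↔ ∏ᶠ n, Equiv.Perm.sign (f.1 n) = 1 := Iff.rfl

instance : H.FiniteIndex := inferInstanceAs (sg.ker.FiniteIndex)

/-- a sequence with one entry -/
noncomputable def sng (n : ℕ) (s : S) : G :=
  ⟨fun m => if m = n then s else 1, (Set.finite_singleton n).subset (by
    intro m hm
    by_contra hne
    exact hm (if_neg hne))⟩

theorem sng_same (n : ℕ) (s : S) : (sng n s).1 n = s := if_pos rfl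

theorem sng_ne (n m : ℕ) (h : m ≠ n) (s : S) : (sng n s).1 m = 1 := if_neg h

theorem sg_sng (n : ℕ) (s : S) : sg (sng n s) = Equiv.Perm.sign s := by
  change ∏ᶠ m, Equiv.Perm.sign ((sng n s).1 m) = _
  rw [finprod_eq_single _ n]
  · rw [sng_same]
  · intro m hm
    rw [sng_ne n m hm, map_one]

/-- elements of `V_n` -/
noncomputable def vv (n : ℕ) (a : S) (ha : Equiv.Perm.sign a = 1) : H :=
  ⟨sng n a, by rw [H, MonoidHom.mem_ker, sg_sng, ha]⟩

/-- two equal entries -/
noncomputable def pp (n k : ℕ) (s : S) : H :=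
  ⟨sng n s * sng k s, by
    rw [H, MonoidHom.mem_ker, map_mul, sg_sng, sg_sng]
    exact Int.units_mul_self _⟩

theorem pp_left (n k : ℕ) (h : n ≠ k) (s : S) : (pp n k s).1.1 n = s := by
  change (sng n s).1 n * (sng k s).1 n = s
  rw [sng_same, sng_ne k n h, mul_one]

theorem pp_other (n k m : ℕ) (h : m ≠ n) (h' : m ≠ k) (s : S) : (pp n k s).1.1 m = 1 := by
  change (sng n s).1 m * (sng k s).1 m = 1
  rw [sng_ne n m h, sng_ne k m h', mul_one]

theorem pp_right (n k : ℕ) (h : n ≠ k) (s : S) : (pp n k s).1.1 k = s := by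
  change (sng n s).1 k * (sng k s).1 k = s
  rw [sng_same, sng_ne n k h.symm, one_mul]

theorem H_ext (h h' : H) (hh : ∀ n, h.1.1 n = h'.1.1 n) : h = h' := by
  apply Subtype.ext
  apply Subtype.ext
  funext n
  exact hh n

theorem H_mul (h h' : H) (n : ℕ) : (h * h').1.1 n = h.1.1 n * h'.1.1 n := rfl

theorem H_inv (h : H) (n : ℕ) : (h⁻¹).1.1 n = (h.1.1 n)⁻¹ := rfl

theorem H_one (n : ℕ) : (1 : H).1.1 n = 1 := rfl

theorem H_bound (h : H) : ∃ N, ∀ n, N ≤ n → h.1.1 n = 1 := by
  obtain ⟨N, hN⟩ := (fin h.1).bddAbove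
  refine ⟨N + 1, fun n hn => ?_⟩
  by_contra hne
  have := hN (show n ∈ Function.mulSupport h.1.1 from hne)
  omega

/-- If `τ` kills all `V_n` with `n ∈ X` then it kills the elements with even entries supported
in `X`. -/
theorem kill {Q : Type} [Group Q] (τ : H →* Q) (X : Set ℕ)
    (hX : ∀ n ∈ X, ∀ (a : S) (ha : Equiv.Perm.sign a = 1), τ (vv n a ha) = 1) :
    ∀ N, ∀ h : H, (∀ n, N ≤ n → h.1.1 n = 1) → (∀ n, n ∉ X → h.1.1 n = 1) →
      (∀ n, Equiv.Perm.sign (h.1.1 n) = 1) → τ h = 1 := by
  intro N
  induction N with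
  | zero =>
    intro h h1 _ _
    have : h = 1 := H_ext _ _ (fun n => h1 n (Nat.zero_le _))
    rw [this, map_one]
  | succ N ih =>
    intro h h1 h2 h3
    by_cases hN : N ∈ X
    · have key : τ ((vv N (h.1.1 N) (h3 N))⁻¹ * h) = 1 := by
        apply ih
        · intro n hn
          rw [H_mul, H_inv]
          rcases hn.lt_or_eq with hn | hn
          · rw [h1 n hn]
            have : (vv N (h.1.1 N) (h3 N)).1.1 n = 1 := sng_ne N n (by omega) _
            rw [this]; simp
          · rw [← hn]
            have : (vv N (h.1.1 N) (h3 N)).1.1 N = h.1.1 N := sng_same N _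
            rw [this]; simp
        · intro n hn
          rw [H_mul, H_inv, h2 n hn]
          have : (vv N (h.1.1 N) (h3 N)).1.1 n = 1 := sng_ne N n (by rintro rfl; exact hn hN) _
          rw [this]; simp
        · intro n
          rw [H_mul, H_inv, map_mul, map_inv, h3 n]
          by_cases hn : n = N
          · have : (vv N (h.1.1 N) (h3 N)).1.1 n = h.1.1 N := by rw [hn]; exact sng_same N _
            rw [this, h3 N]; simp
          · have : (vv N (h.1.1 N) (h3 N)).1.1 n = 1 := sng_ne N n hn _
            rw [this]; simp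
      rw [map_mul, map_inv, hX N hN, inv_one, one_mul] at key
      exact key
    · apply ih h _ h2 h3
      intro n hn
      rcases hn.lt_or_eq with hn | hn
      · exact h1 n hn
      · rw [← hn]; exact h2 N hN

set_option maxRecDepth 10000 in
theorem dec1 : ∀ z x : S, z ^ 3 = 1 → z ≠ 1 → x * z = z * x → x ^ 3 = 1 := by decide

theorem dec2 : ∀ a : S, Equiv.Perm.sign a = 1 → a ^ 3 = 1 := by decide

theorem dec3 : ∀ a : S, Equiv.Perm.sign a = 1 →
    Equiv.swap 0 1 * a * (Equiv.swap 0 1)⁻¹ = a⁻¹ := by decide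

theorem dec4 : ∀ x : S, x ^ 2 = 1 → x ≠ 1 → Equiv.Perm.sign x = -1 := by decide


theorem H_pow (h : H) (k n : ℕ) : (h ^ k).1.1 n = (h.1.1 n) ^ k := by
  induction k with
  | zero => rw [pow_zero, pow_zero]; rfl
  | succ k ih => rw [pow_succ, pow_succ, H_mul, ih]

/-- A surjection to `S_3` factors through a coordinate. -/
theorem factor (τ : H →* S) (hτ : Function.Surjective τ) :
    ∃ i : ℕ, ∀ h : H, h.1.1 i = 1 ↔ τ h = 1 := by
  -- some `V_i` is not killed
  have hA : ∃ i, ∃ (a : S) (ha : Equiv.Perm.sign a = 1), τ (vv i a ha) ≠ 1 := by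
    by_contra hcon
    push Not at hcon
    have hcomm : ∀ x y : S, x * y = y * x := by
      intro x y
      obtain ⟨h, rfl⟩ := hτ x
      obtain ⟨h', rfl⟩ := hτ y
      obtain ⟨N, hN⟩ := H_bound (h * h' * h⁻¹ * h'⁻¹)
      have := kill τ Set.univ (fun n _ a ha => hcon n a ha) N (h * h' * h⁻¹ * h'⁻¹) hN
        (fun n hn => absurd (Set.mem_univ n) hn) (by
          intro n
          rw [H_mul, H_mul, H_mul, H_inv, H_inv, map_mul, map_mul, map_mul, map_inv, map_inv]
          rw [mul_inv_cancel_comm]
          simp)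
      rw [map_mul, map_mul, map_mul, map_inv, map_inv] at this
      have h2 := mul_eq_one_iff_eq_inv.1 this
      rw [inv_inv] at h2
      exact mul_inv_eq_iff_eq_mul.1 h2
    have : ¬ ∀ x y : S, x * y = y * x := by decide
    exact this hcomm
  obtain ⟨i, a, ha, hz⟩ := hA
  have hz3 : τ (vv i a ha) ^ 3 = 1 := by
    rw [← map_pow]
    have : (vv i a ha) ^ 3 = 1 := by
      apply H_ext
      intro n
      rw [H_pow, H_one]
      by_cases hn : n = i
      · rw [hn]
        have : (vv i a ha).1.1 i = a := sng_same i a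
        rw [this, dec2 a ha]
      · have : (vv i a ha).1.1 n = 1 := sng_ne i n hn a
        rw [this, one_pow]
    rw [this, map_one]
  -- elements trivial at `i` are mapped to elements of order dividing 3
  have h3 : ∀ h : H, h.1.1 i = 1 → τ h ^ 3 = 1 := by
    intro h hi
    apply dec1 _ _ hz3 hz
    rw [← map_mul, ← map_mul]
    congr 1
    apply H_ext
    intro n
    rw [H_mul, H_mul]
    by_cases hn : n = i
    · rw [hn, hi]; simp
    · have : (vv i a ha).1.1 n = 1 := sng_ne i n hn a
      rw [this]; simp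
  -- the other `V_n` are killed
  have hV : ∀ n ∈ {n | n ≠ i}, ∀ (b : S) (hb : Equiv.Perm.sign b = 1), τ (vv n b hb) = 1 := by
    intro n hn b hb
    have hn : n ≠ i := hn
    obtain ⟨k, hk, hk'⟩ : ∃ k, k ≠ n ∧ k ≠ i := ⟨n + i + 1, by omega, by omega⟩
    have h1 := h3 (pp n k (Equiv.swap 0 1)) (pp_other n k i hn.symm hk'.symm _)
    have h2 : τ (pp n k (Equiv.swap 0 1)) ^ 2 = 1 := by
      rw [← map_pow]
      have : (pp n k (Equiv.swap 0 1)) ^ 2 = 1 := by
        apply H_ext
        intro m
        rw [H_pow, H_one]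
        by_cases hm : m = n
        · rw [hm, pp_left n k hk.symm]; decide
        · by_cases hm' : m = k
          · rw [hm', pp_right n k hk.symm]; decide
          · rw [pp_other n k m hm hm']; simp
      rw [this, map_one]
    have h4 : τ (pp n k (Equiv.swap 0 1)) = 1 := by
      rw [pow_succ, h2, one_mul] at h1
      exact h1
    have h5 : pp n k (Equiv.swap 0 1) * vv n b hb * (pp n k (Equiv.swap 0 1))⁻¹
        = (vv n b hb)⁻¹ := by
      apply H_ext
      intro m
      rw [H_mul, H_mul, H_inv, H_inv]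
      by_cases hm : m = n
      · rw [hm, pp_left n k hk.symm]
        have : (vv n b hb).1.1 n = b := sng_same n b
        rw [this]
        exact dec3 b hb
      · have : (vv n b hb).1.1 m = 1 := sng_ne n m hm b
        rw [this]; simp
    have h6 := congrArg τ h5
    rw [map_mul, map_mul, map_inv, map_inv, h4] at h6
    simp only [one_mul, inv_one, mul_one] at h6
    have h7 := h3 (vv n b hb) (sng_ne n i hn.symm b)
    have h8 : τ (vv n b hb) ^ 2 = 1 := by
      rw [pow_two]
      nth_rewrite 1 [h6]
      simp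
    rw [pow_succ, h8, one_mul] at h7
    exact h7
  -- elements trivial at `i` are killed
  have hC : ∀ h : H, h.1.1 i = 1 → τ h = 1 := by
    intro h hi
    have h4 := h3 h hi
    obtain ⟨N, hN⟩ := H_bound (h ^ 2)
    have h5 := kill τ {n | n ≠ i} hV N (h ^ 2) hN (by
        intro n hn
        have : n = i := by simpa using hn
        rw [this, H_pow, hi, one_pow]) (by
        intro n
        rw [H_pow, map_pow, Int.units_sq])
    rw [map_pow] at h5
    rw [pow_succ, h5, one_mul] at h4
    exact h4
  have hC' : ∀ h h' : H, h.1.1 i = h'.1.1 i → τ h = τ h' := by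
    intro h h' hh
    have := hC (h * h'⁻¹) (by rw [H_mul, H_inv, hh]; simp)
    rw [map_mul, map_inv] at this
    exact mul_inv_eq_one.1 this
  -- the induced map on S_3
  let α : S → S := fun s => τ (pp i (i + 1) s)
  have hα : ∀ h : H, τ h = α (h.1.1 i) := fun h => hC' _ _ (pp_left i (i + 1) (by omega) _).symm
  have hsurj : Function.Surjective α := by
    intro y
    obtain ⟨h, rfl⟩ := hτ y
    exact ⟨_, (hα h).symm⟩
  have hinj : Function.Injective α := Finite.injective_iff_surjective.2 hsurj
  refine ⟨i, fun h => ⟨hC h, fun hh => ?_⟩⟩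
  apply hinj
  rw [← hα h, hh]
  have := hα 1
  rw [map_one, H_one] at this
  exact this

theorem proj_surj (n : ℕ) (s : S) : ∃ h : H, h.1.1 n = s := ⟨pp n (n + 1) s, pp_left n (n + 1) (by omega) s⟩

/-- evaluation at `n` -/
def ev (n : ℕ) : H →* S where
  toFun h := h.1.1 n
  map_one' := rfl
  map_mul' _ _ := rfl

theorem hopfian (ψ : H →* H) (hψ : Function.Surjective ψ) : Function.Injective ψ := by
  have hf : ∀ n, ∃ i : ℕ, ∀ h : H, h.1.1 i = 1 ↔ (ψ h).1.1 n = 1 := by
    intro n
    apply factor ((ev n).comp ψ)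
    intro s
    obtain ⟨h, hh⟩ := proj_surj n s
    obtain ⟨h', rfl⟩ := hψ h
    exact ⟨h', hh⟩
  choose i hi using hf
  have hinj : Function.Injective i := by
    intro n m hnm
    by_contra hne
    obtain ⟨h, hh⟩ := hψ (vv n (finRotate 3) (by decide))
    have h1 : (ψ h).1.1 m = 1 := by
      rw [hh]; exact sng_ne n m (Ne.symm hne) _
    rw [← hi m, ← hnm, hi n, hh] at h1
    have h2 : (vv n (finRotate 3) (by decide)).1.1 n = finRotate 3 := sng_same n _
    rw [h2] at h1
    exact absurd h1 (by decide)
  have hsurj : Function.Surjective i := by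
    intro j
    by_contra hj
    push Not at hj
    have hj0 : i 0 ≠ j := hj 0
    -- the element with two transpositions
    have h1 : ∀ n, n ≠ 0 → (ψ (pp j (i 0) (Equiv.swap 0 1))).1.1 n = 1 := by
      intro n hn
      rw [← hi n]
      apply pp_other
      · exact hj n
      · exact fun h => hn (hinj h)
    have h2 : (ψ (pp j (i 0) (Equiv.swap 0 1))).1.1 0 ≠ 1 := by
      rw [ne_eq, ← hi 0, pp_right j (i 0) hj0.symm]
      decide
    have h3 : ((ψ (pp j (i 0) (Equiv.swap 0 1))).1.1 0) ^ 2 = 1 := by
      rw [← H_pow, ← map_pow, ← hi 0, H_pow, pp_right j (i 0) hj0.symm]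
      decide
    have h4 := dec4 _ h3 h2
    have h5 := (mem_H _).1 (ψ (pp j (i 0) (Equiv.swap 0 1))).2
    rw [finprod_eq_single _ 0] at h5
    · rw [h4] at h5
      exact absurd h5 (by decide)
    · intro n hn
      rw [h1 n hn, map_one]
  rw [injective_iff_map_eq_one]
  intro h hh
  apply H_ext
  intro n
  obtain ⟨m, rfl⟩ := hsurj n
  have h1 : h.1.1 (i m) = 1 := by
    rw [hi m, hh]
    rfl
  exact h1

/-- the shift -/
def shift : G →* G where
  toFun f := ⟨fun n => f.1 (n + 1), by
    have h := (fin f)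
    refine (h.preimage (f := fun n => n + 1) (fun a _ b _ hab => by simpa using hab)).subset ?_
    intro n hn
    exact hn⟩
  map_one' := rfl
  map_mul' _ _ := rfl

theorem shift_surj : Function.Surjective shift := by
  intro f
  refine ⟨⟨fun n => if n = 0 then 1 else f.1 (n - 1), ?_⟩, ?_⟩
  · refine ((fin f).image (fun n => n + 1)).subset ?_
    intro n hn
    rcases Nat.eq_zero_or_pos n with h0 | h0
    · exfalso; apply hn; simp [h0]
    · refine ⟨n - 1, ?_, Nat.sub_add_cancel h0⟩
      intro hcon
      apply hn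
      have h1 : n ≠ 0 := by omega
      change (if n = 0 then 1 else f.1 (n - 1)) = 1
      rw [if_neg h1]
      exact hcon
  · apply Subtype.ext
    funext n
    change (if n + 1 = 0 then 1 else f.1 (n + 1 - 1)) = f.1 n
    simp

theorem shift_not_inj : ¬ Function.Injective shift := by
  intro hinj
  have h1 : shift (sng 0 (Equiv.swap 0 1)) = shift 1 := by
    apply Subtype.ext
    funext n
    change (sng 0 (Equiv.swap 0 1)).1 (n + 1) = 1
    exact sng_ne 0 (n + 1) (by omega) _
  have h2 := hinj h1
  have h3 : (sng 0 (Equiv.swap 0 1)).1 0 = (1 : G).1 0 := by rw [h2]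
  rw [sng_same] at h3
  have : (Equiv.swap 0 1 : S) ≠ 1 := by decide
  exact this h3

end Pool.Agent.H8R3.Hopf
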