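import Mathlib

set_option autoImplicit false

namespace Pool.Agent.H8R3.Hyper

open Finset

/-- Independence step: if `E` does not depend on the coordinates `w1`, `w2`, then the
event not both on has conditional probability at most `3/4`. -/
theorem step_count {Ω : Type*} [Fintype Ω] [DecidableEq Ω] (E : (Ω → Bool) → Prop)
    [DecidablePred E] (w1 w2 : Ω)
    (hE : ∀ T, E T → E (Function.update (Function.update T w1 true) w2 true)) :
    4 * (univ.filter (fun T : Ω → Bool => E T ∧ ¬ (T w1 = true ∧ T w2 = true))).card ≤
      3 * (univ.filter (fun T : Ω → Bool => E T)).card := by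
  classical
  set S := univ.filter (fun T : Ω → Bool => E T) with hS
  set B := univ.filter (fun T : Ω → Bool => E T ∧ (T w1 = true ∧ T w2 = true)) with hB
  set N := univ.filter (fun T : Ω → Bool => E T ∧ ¬ (T w1 = true ∧ T w2 = true)) with hN
  have h1 : N.card + B.card = S.card := by
    have := Finset.card_filter_add_card_filter_not (s := S)
      (fun T : Ω → Bool => T w1 = true ∧ T w2 = true)
    rw [hS, Finset.filter_filter, Finset.filter_filter] at this
    rw [hN, hB, hS]
    omega
  have h2 : S.card ≤ 4 * B.card := by
    apply Finset.card_le_mul_card_image_of_maps_to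
      (f := fun T : Ω → Bool => Function.update (Function.update T w1 true) w2 true)
    · intro T hT
      simp only [hS, mem_filter, mem_univ, true_and] at hT
      simp only [hB, mem_filter, mem_univ, true_and]
      refine ⟨hE T hT, ?_, ?_⟩
      · by_cases h : w1 = w2
        · subst h; simp
        · rw [Function.update_of_ne h]; simp
      · simp
    · intro T' hT'
      have : ∀ a ∈ (S.filter fun a => Function.update (Function.update a w1 true) w2 true = T'),
          ((fun T : Ω → Bool => (T w1, T w2)) a) ∈ (univ : Finset (Bool × Bool)) := by
        intro a _; exact mem_univ _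
      refine le_trans (Finset.card_le_card_of_injOn _ this ?_) (by decide)
      intro a ha b hb hab
      simp only [coe_filter, Set.mem_ofPred_eq] at ha hb
      simp only [Prod.mk.injEq] at hab
      funext w
      by_cases h1 : w = w1
      · subst h1; exact hab.1
      · by_cases h2 : w = w2
        · subst h2; exact hab.2
        · have h3 := congrFun (ha.2.trans hb.2.symm) w
          rw [Function.update_of_ne h2, Function.update_of_ne h1,
            Function.update_of_ne h2, Function.update_of_ne h1] at h3
          exact h3
  omega

theorem bad_count {Ω ι : Type*} [Fintype Ω] [DecidableEq Ω] [DecidableEq ι] (u v : ι → Ω)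
    (k : ℕ) (hk : 0 < k) (m : ℕ) : ∀ (s : Finset ι)
    (_ : ∀ w, (s.filter (fun i => u i = w)).card ≤ k)
    (_ : ∀ w, (s.filter (fun i => v i = w)).card ≤ k) (_ : 4 * k * m ≤ s.card),
    4 ^ m * (univ.filter (fun T : Ω → Bool => ∀ i ∈ s, ¬ (T (u i) = true ∧ T (v i) = true))).card
      ≤ 3 ^ m * 2 ^ (Fintype.card Ω) := by
  induction m with
  | zero =>
    intro s _ _ _
    simp only [pow_zero, one_mul]
    calc _ ≤ (univ : Finset (Ω → Bool)).card := Finset.card_le_card (Finset.filter_subset _ _)
      _ = _ := by simp
  | succ m ih =>
    intro s hu hv hm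
    have hpos : 0 < s.card := by
      have : 0 < 4 * k * (m + 1) := by positivity
      omega
    obtain ⟨i0, hi0⟩ := Finset.card_pos.mp hpos
    set w1 := u i0
    set w2 := v i0
    set s' := s.filter (fun j => ¬ (u j = w1 ∨ u j = w2 ∨ v j = w1 ∨ v j = w2)) with hs'
    have hsub : s' ⊆ s := Finset.filter_subset _ _
    have hcard : s.card ≤ s'.card + 4 * k := by
      have h1 := Finset.card_filter_add_card_filter_not (s := s)
        (fun j => (u j = w1 ∨ u j = w2 ∨ v j = w1 ∨ v j = w2))
      have h2 : (s.filter (fun j => (u j = w1 ∨ u j = w2 ∨ v j = w1 ∨ v j = w2))).card ≤ 4 * k := by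
        calc _ ≤ ((s.filter (fun j => u j = w1)) ∪ (s.filter (fun j => u j = w2)) ∪
              (s.filter (fun j => v j = w1)) ∪ (s.filter (fun j => v j = w2))).card := by
              apply Finset.card_le_card
              intro j hj
              simp only [mem_filter, mem_union] at hj ⊢
              tauto
          _ ≤ _ := by
              refine le_trans (Finset.card_union_le _ _) ?_
              have a1 := Finset.card_union_le (s.filter (fun j => u j = w1)) (s.filter (fun j => u j = w2))
              have a2 := Finset.card_union_le ((s.filter (fun j => u j = w1)) ∪ (s.filter (fun j => u j = w2)))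
                (s.filter (fun j => v j = w1))
              have := hu w1; have := hu w2; have := hv w1; have := hv w2
              omega
      rw [hs']
      omega
    have hm' : 4 * k * m ≤ s'.card := by
      have : 4 * k * (m + 1) = 4 * k * m + 4 * k := by ring
      omega
    have hih := ih s' (fun w => le_trans (Finset.card_le_card (Finset.filter_subset_filter _ hsub)) (hu w))
      (fun w => le_trans (Finset.card_le_card (Finset.filter_subset_filter _ hsub)) (hv w)) hm'
    have hstep := step_count
      (fun T : Ω → Bool => ∀ i ∈ s', ¬ (T (u i) = true ∧ T (v i) = true)) w1 w2 (by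
        intro T hT i hi
        have hi' := hi
        rw [hs', mem_filter] at hi'
        have h := hi'.2
        simp only [not_or] at h
        obtain ⟨h1, h2, h3, h4⟩ := h
        rw [Function.update_of_ne h2, Function.update_of_ne h1, Function.update_of_ne h4,
          Function.update_of_ne h3]
        exact hT i hi)
    have hle : (univ.filter (fun T : Ω → Bool => ∀ i ∈ s, ¬ (T (u i) = true ∧ T (v i) = true))).card
        ≤ (univ.filter (fun T : Ω → Bool => (∀ i ∈ s', ¬ (T (u i) = true ∧ T (v i) = true)) ∧
            ¬ (T w1 = true ∧ T w2 = true))).card := by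
      apply Finset.card_le_card
      intro T hT
      simp only [mem_filter, mem_univ, true_and] at hT ⊢
      exact ⟨fun i hi => hT i (hsub hi), hT i0 hi0⟩
    calc 4 ^ (m + 1) * (univ.filter (fun T : Ω → Bool => ∀ i ∈ s, ¬ (T (u i) = true ∧ T (v i) = true))).card
        ≤ 4 ^ (m + 1) * (univ.filter (fun T : Ω → Bool => (∀ i ∈ s', ¬ (T (u i) = true ∧ T (v i) = true)) ∧
            ¬ (T w1 = true ∧ T w2 = true))).card := Nat.mul_le_mul_left _ hle
      _ = 4 ^ m * (4 * (univ.filter (fun T : Ω → Bool => (∀ i ∈ s', ¬ (T (u i) = true ∧ T (v i) = true)) ∧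
            ¬ (T w1 = true ∧ T w2 = true))).card) := by ring
      _ ≤ 4 ^ m * (3 * (univ.filter (fun T : Ω → Bool =>
            ∀ i ∈ s', ¬ (T (u i) = true ∧ T (v i) = true))).card) := Nat.mul_le_mul_left _ hstep
      _ = 3 * (4 ^ m * (univ.filter (fun T : Ω → Bool =>
            ∀ i ∈ s', ¬ (T (u i) = true ∧ T (v i) = true))).card) := by ring
      _ ≤ 3 * (3 ^ m * 2 ^ (Fintype.card Ω)) := Nat.mul_le_mul_left _ hih
      _ = _ := by ring

theorem forced_count {Ω : Type*} [Fintype Ω] [DecidableEq Ω] (I : Finset Ω) :
    (univ.filter (fun T : Ω → Bool => ∀ w ∈ I, T w = true)).card * 2 ^ I.card =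
      2 ^ (Fintype.card Ω) := by
  classical
  have h1 : (univ.filter (fun T : Ω → Bool => ∀ w ∈ I, T w = true)) =
      Fintype.piFinset (fun w => if w ∈ I then ({true} : Finset Bool) else univ) := by
    ext T
    simp only [mem_filter, mem_univ, true_and, Fintype.mem_piFinset]
    constructor
    · intro h w
      by_cases hw : w ∈ I
      · simp [hw, h w hw]
      · simp [hw]
    · intro h w hw
      have := h w
      simpa [hw] using this
  rw [h1, Fintype.card_piFinset]
  have h2 : ∀ w, (if w ∈ I then ({true} : Finset Bool) else univ).card = if w ∈ I then 1 else 2 := by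
    intro w; split <;> simp
  simp_rw [h2]
  rw [← Finset.prod_const, ← Finset.prod_filter_mul_prod_filter_not univ (fun w => w ∈ I)]
  rw [Finset.prod_ite_of_true (by intro x hx; exact (mem_filter.mp hx).2),
    Finset.prod_ite_of_false (by intro x hx; exact (mem_filter.mp hx).2)]
  simp only [Finset.prod_const_one, one_mul, Finset.prod_const]
  rw [← pow_add]
  congr 1
  have := Finset.card_filter_add_card_filter_not (s := (univ : Finset Ω)) (fun w => w ∈ I)
  simp only [card_univ] at this
  have h3 : (univ.filter (fun w => w ∈ I)).card = I.card := by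
    congr 1; ext; simp
  omega

/-- A finite group of order `r` is generated by a set `S` with `2 ^ |S| ≤ r`. -/
theorem exists_small_gen (A : Type*) [Group A] [Finite A] :
    ∃ S : Finset A, Subgroup.closure (S : Set A) = ⊤ ∧ 2 ^ S.card ≤ Nat.card A := by
  classical
  by_contra hcon
  push Not at hcon
  have key : ∀ n : ℕ, ∃ S : Finset A, S.card = n ∧
      2 ^ S.card ≤ Nat.card (Subgroup.closure (S : Set A)) := by
    intro n
    induction n with
    | zero =>
      refine ⟨∅, rfl, ?_⟩
      simp only [card_empty, pow_zero]
      exact Nat.card_pos
    | succ n ih =>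
      obtain ⟨S, hS, hc⟩ := ih
      have hne : Subgroup.closure (S : Set A) ≠ ⊤ := by
        intro h
        have h1 := hcon S h
        rw [h] at hc
        have h2 : Nat.card (⊤ : Subgroup A) = Nat.card A := Subgroup.card_top
        omega
      obtain ⟨a, ha⟩ : ∃ a, a ∉ Subgroup.closure (S : Set A) := by
        by_contra h
        push Not at h
        exact hne (by ext x; simp [h x])
      have haS : a ∉ S := fun h => ha (Subgroup.subset_closure (by exact_mod_cast h))
      refine ⟨insert a S, by rw [Finset.card_insert_of_notMem haS, hS], ?_⟩
      have hle : Subgroup.closure (S : Set A) ≤ Subgroup.closure ((insert a S : Finset A) : Set A) :=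
        Subgroup.closure_mono (by exact_mod_cast Finset.subset_insert a S)
      have hlt : Subgroup.closure (S : Set A) < Subgroup.closure ((insert a S : Finset A) : Set A) := by
        refine lt_of_le_of_ne hle ?_
        intro h
        apply ha
        rw [h]
        exact Subgroup.subset_closure (by simp)
      have hdvd : Nat.card (Subgroup.closure (S : Set A)) ∣
          Nat.card (Subgroup.closure ((insert a S : Finset A) : Set A)) :=
        Subgroup.card_dvd_of_le hle
      obtain ⟨c, hc'⟩ := hdvd
      have hpos : 0 < Nat.card (Subgroup.closure ((insert a S : Finset A) : Set A)) := Nat.card_pos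
      have hc2 : 2 ≤ c := by
        rcases c with _ | _ | c
        · rw [Nat.mul_zero] at hc'
          omega
        · exfalso
          have : Nat.card (Subgroup.closure (S : Set A)) =
            Nat.card (Subgroup.closure ((insert a S : Finset A) : Set A)) := by
            rw [hc']; ring
          have h3 := Subgroup.eq_of_le_of_card_ge hle this.ge
          exact hlt.ne h3
        · omega
      rw [Finset.card_insert_of_notMem haS, pow_succ, hc']
      exact Nat.mul_le_mul hc hc2
  obtain ⟨S, hS, -⟩ := key (Nat.card A + 1)
  have h1 : S.card ≤ Nat.card A := by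
    have := Fintype.ofFinite A
    rw [Nat.card_eq_fintype_card]
    exact Finset.card_le_univ S
  omega

end Pool.Agent.H8R3.Hyper
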