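import Mathlib
import Pool.Agent.H8R3.HyperComb

set_option autoImplicit false

namespace Pool.Agent.H8R3.Hyper

open Finset

theorem ms3 {α : Type*} {a b c a' b' c' : α} (h : ({a, b, c} : Multiset α) = {a', b', c'}) :
    (a' = a ∧ b' = b ∧ c' = c) ∨ (a' = a ∧ b' = c ∧ c' = b) ∨ (a' = b ∧ b' = a ∧ c' = c) ∨
    (a' = b ∧ b' = c ∧ c' = a) ∨ (a' = c ∧ b' = a ∧ c' = b) ∨ (a' = c ∧ b' = b ∧ c' = a) := by
  classical
  have two : ∀ x y x' y' : α, ({x, y} : Multiset α) = {x', y'} →
      (x' = x ∧ y' = y) ∨ (x' = y ∧ y' = x) := by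
    intro x y x' y' h
    have hx : x' ∈ ({x, y} : Multiset α) := by rw [h]; simp
    simp only [Multiset.insert_eq_cons, Multiset.mem_cons, Multiset.mem_singleton] at hx
    rcases hx with rfl | rfl
    · left
      simp only [Multiset.insert_eq_cons, Multiset.cons_inj_right, Multiset.singleton_inj] at h
      exact ⟨rfl, h.symm⟩
    · right
      rw [Multiset.pair_comm] at h
      simp only [Multiset.insert_eq_cons, Multiset.cons_inj_right, Multiset.singleton_inj] at h
      exact ⟨rfl, h.symm⟩
  have hx : a' ∈ ({a, b, c} : Multiset α) := by rw [h]; simp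
  simp only [Multiset.insert_eq_cons, Multiset.mem_cons, Multiset.mem_singleton] at hx h
  rcases hx with rfl | rfl | rfl
  · rw [Multiset.cons_inj_right] at h
    rcases two _ _ _ _ h with ⟨h1, h2⟩ | ⟨h1, h2⟩ <;> tauto
  · rw [Multiset.cons_swap, Multiset.cons_inj_right] at h
    rcases two _ _ _ _ h with ⟨h1, h2⟩ | ⟨h1, h2⟩ <;> tauto
  · have h' : a' ::ₘ a ::ₘ {b} = a' ::ₘ b' ::ₘ ({c'} : Multiset α) := by
      rw [← h]
      have : (b ::ₘ ({a'} : Multiset α)) = a' ::ₘ {b} := Multiset.pair_comm _ _
      rw [this, Multiset.cons_swap]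
    rw [Multiset.cons_inj_right] at h'
    rcases two _ _ _ _ h' with ⟨h1, h2⟩ | ⟨h1, h2⟩ <;> tauto

/-- Triples in a commutative group modulo scaling and permutation. -/
def triSetoid (A : Type*) [CommGroup A] : Setoid (A × A × A) where
  r t t' := ∃ l : A, ({l * t.1, l * t.2.1, l * t.2.2} : Multiset A) = {t'.1, t'.2.1, t'.2.2}
  iseqv := by
    refine ⟨fun t => ⟨1, by simp⟩, ?_, ?_⟩
    · rintro t t' ⟨l, h⟩
      refine ⟨l⁻¹, ?_⟩
      have := congrArg (Multiset.map (fun x => l⁻¹ * x)) h
      simpa using this.symm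
    · rintro t t' t'' ⟨l, h⟩ ⟨l', h'⟩
      refine ⟨l' * l, ?_⟩
      have := congrArg (Multiset.map (fun x => l' * x)) h
      rw [← h']
      simpa [mul_assoc] using this

/-- The orbit space. -/
def Orb (A : Type*) [CommGroup A] := Quotient (triSetoid A)

section
variable {A : Type*} [CommGroup A]

def q (a b c : A) : Orb A := Quotient.mk (triSetoid A) (a, b, c)

noncomputable instance [Fintype A] : Fintype (Orb A) := by
  classical
  unfold Orb
  infer_instance

noncomputable instance : DecidableEq (Orb A) := Classical.decEq _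

theorem q_eq {a b c a' b' c' : A} : q a b c = q a' b' c' ↔
    ∃ l : A, ({l * a, l * b, l * c} : Multiset A) = {a', b', c'} :=
  Quotient.eq (r := triSetoid A)

theorem q_surj (w : Orb A) : ∃ a b c : A, q a b c = w := by
  induction w using Quotient.inductionOn with
  | h t => exact ⟨t.1, t.2.1, t.2.2, rfl⟩

theorem q_swap12 (a b c : A) : q b a c = q a b c := by
  rw [q_eq]
  refine ⟨1, ?_⟩
  simp only [one_mul, Multiset.insert_eq_cons]
  rw [Multiset.cons_swap]

theorem q_swap23 (a b c : A) : q a c b = q a b c := by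
  rw [q_eq]
  refine ⟨1, ?_⟩
  simp only [one_mul, Multiset.insert_eq_cons]
  have : (c ::ₘ ({b} : Multiset A)) = b ::ₘ {c} := Multiset.pair_comm _ _
  rw [this]

theorem q_smul (l a b c : A) : q (l * a) (l * b) (l * c) = q a b c := by
  rw [q_eq]
  exact ⟨l⁻¹, by simp⟩

/-- If `q a b d = q a b d'` then `d'` is one of three values. -/
theorem q_fiber {a b d d' : A} (h : q a b d = q a b d') :
    d' = d ∨ d' = (a * b⁻¹) ^ 3 * d ∨ d' = (a * d⁻¹) ^ 3 * d := by
  obtain ⟨l, hl⟩ := q_eq.mp h
  have hp := congrArg Multiset.prod hl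
  simp only [Multiset.insert_eq_cons, Multiset.prod_cons, Multiset.prod_singleton] at hp
  have hd : d' = l ^ 3 * d := by
    have : a * b * d' = a * b * (l ^ 3 * d) := by
      calc a * b * d' = a * (b * d') := by rw [mul_assoc]
        _ = l * a * (l * b * (l * d)) := hp.symm
        _ = a * b * (l ^ 3 * d) := by
          simp only [pow_succ, pow_zero, one_mul]
          ac_rfl
    exact mul_left_cancel this
  have ha : a ∈ ({l * a, l * b, l * d} : Multiset A) := by rw [hl]; simp
  simp only [Multiset.insert_eq_cons, Multiset.mem_cons, Multiset.mem_singleton] at ha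
  rcases ha with h1 | h1 | h1
  · left
    have : l = 1 := by simpa using h1.symm
    rw [hd, this]; simp
  · right; left
    have : l = a * b⁻¹ := by rw [eq_mul_inv_iff_mul_eq]; exact h1.symm
    rw [hd, this]
  · right; right
    have : l = a * d⁻¹ := by rw [eq_mul_inv_iff_mul_eq]; exact h1.symm
    rw [hd, this]

theorem fiber_le [Fintype A] [DecidableEq A] (a b : A) (w : Orb A) :
    (univ.filter (fun d : A => q a b d = w)).card ≤ 3 := by
  by_cases h : ∃ d0, q a b d0 = w
  · obtain ⟨d0, hd0⟩ := h
    refine le_trans (Finset.card_le_card (t := {d0, (a * b⁻¹) ^ 3 * d0, (a * d0⁻¹) ^ 3 * d0}) ?_)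
      Finset.card_le_three
    intro d hd
    simp only [mem_filter, mem_univ, true_and] at hd
    have := q_fiber (hd0.trans hd.symm)
    simpa using this
  · push Not at h
    have : univ.filter (fun d : A => q a b d = w) = ∅ := by
      ext d; simp [h d]
    rw [this]; simp

/-- The image of `d ↦ q a b d` has at least `|A| / 3` elements. -/
theorem image_ge [Fintype A] [DecidableEq A] (a b : A) :
    Fintype.card A ≤ 3 * (univ.image (fun d : A => q a b d)).card := by
  rw [← Finset.card_univ]
  apply Finset.card_le_mul_card_image_of_maps_to (f := fun d : A => q a b d)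
  · intro d hd; exact mem_image_of_mem _ hd
  · intro w _; exact fiber_le a b w

theorem q_fiber2 [DecidableEq A] {x y x' y' : A} (h : q 1 x y = q 1 x' y') :
    ∃ l ∈ ({1, x⁻¹, y⁻¹} : Finset A), x' ∈ ({l, l * x, l * y} : Finset A) ∧
      y' = l ^ 3 * x * y * x'⁻¹ := by
  obtain ⟨l, hl⟩ := q_eq.mp h
  have hp := congrArg Multiset.prod hl
  simp only [Multiset.insert_eq_cons, Multiset.prod_cons, Multiset.prod_singleton] at hp
  refine ⟨l, ?_, ?_, ?_⟩
  · have ha : (1 : A) ∈ ({l * 1, l * x, l * y} : Multiset A) := by rw [hl]; simp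
    simp only [Multiset.insert_eq_cons, Multiset.mem_cons, Multiset.mem_singleton, mul_one] at ha
    simp only [mem_insert, mem_singleton]
    rcases ha with h1 | h1 | h1
    · exact Or.inl h1.symm
    · right; left; exact eq_inv_of_mul_eq_one_left h1.symm
    · right; right; exact eq_inv_of_mul_eq_one_left h1.symm
  · have ha : x' ∈ ({l * 1, l * x, l * y} : Multiset A) := by rw [hl]; simp
    simpa using ha
  · rw [eq_mul_inv_iff_mul_eq]
    rw [one_mul] at hp
    calc y' * x' = x' * y' := mul_comm _ _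
      _ = l * 1 * (l * x * (l * y)) := hp.symm
      _ = l ^ 3 * x * y := by
        simp only [pow_succ, pow_zero, one_mul, mul_one]
        ac_rfl

theorem orb_ge [Fintype A] [DecidableEq A] :
    (Fintype.card A) ^ 2 ≤ 9 * Fintype.card (Orb A) := by
  have h1 : (Fintype.card A) ^ 2 = (univ : Finset (A × A)).card := by
    rw [Finset.card_univ, Fintype.card_prod, sq]
  rw [h1, ← Finset.card_univ (α := Orb A)]
  apply Finset.card_le_mul_card_image_of_maps_to (f := fun d : A × A => q 1 d.1 d.2)
  · intro d hd; exact mem_univ _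
  · intro w _
    by_cases h : ∃ d0 : A × A, q 1 d0.1 d0.2 = w
    · obtain ⟨⟨x, y⟩, hd0⟩ := h
      refine le_trans (Finset.card_le_card (t := (({1, x⁻¹, y⁻¹} : Finset A) ×ˢ (univ : Finset (Fin 3))).image
        (fun p => ((if p.2 = 0 then p.1 else if p.2 = 1 then p.1 * x else p.1 * y),
          p.1 ^ 3 * x * y * (if p.2 = 0 then p.1 else if p.2 = 1 then p.1 * x else p.1 * y)⁻¹))) ?_) ?_
      · rintro ⟨x', y'⟩ hd
        simp only [mem_filter, mem_univ, true_and] at hd
        obtain ⟨l, hl, hx, hy⟩ := q_fiber2 (hd0.trans hd.symm)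
        simp only [mem_insert, mem_singleton] at hx
        rw [mem_image]
        rcases hx with hx | hx | hx
        · exact ⟨(l, 0), by simpa using hl, by simp [hx, hy]⟩
        · exact ⟨(l, 1), by simpa using hl, by simp [hx, hy]⟩
        · exact ⟨(l, 2), by simpa using hl, by simp [hx, hy]⟩
      · refine le_trans Finset.card_image_le ?_
        rw [Finset.card_product]
        have : ({1, x⁻¹, y⁻¹} : Finset A).card ≤ 3 := Finset.card_le_three
        simp only [card_univ, Fintype.card_fin]
        omega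
    · push Not at h
      have : (univ.filter (fun d : A × A => q 1 d.1 d.2 = w)) = ∅ := by
        ext d; simp [h d]
      rw [this]; simp

/-- `T` is good if any two lines meet. -/
def Good (T : Orb A → Bool) : Prop :=
  ∀ a b c e : A, ∃ d : A, T (q a b d) = true ∧ T (q c e d) = true

open Classical in
theorem good_count [Fintype A] (m : ℕ) (hm : 12 * m ≤ Fintype.card A)
    (hm2 : 2 * (Fintype.card A) ^ 4 * 3 ^ m ≤ 4 ^ m) :
    2 ^ (Fintype.card (Orb A)) ≤
      2 * (univ.filter (fun T : Orb A → Bool => Good T)).card := by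
  set r := Fintype.card A
  have hbad : ∀ t : (A × A) × (A × A), 4 ^ m * (univ.filter (fun T : Orb A → Bool =>
      ∀ d ∈ (univ : Finset A), ¬ (T (q t.1.1 t.1.2 d) = true ∧ T (q t.2.1 t.2.2 d) = true))).card
      ≤ 3 ^ m * 2 ^ (Fintype.card (Orb A)) := by
    intro t
    have := bad_count (fun d => q t.1.1 t.1.2 d) (fun d => q t.2.1 t.2.2 d) 3 (by norm_num) m univ
      (fun w => fiber_le _ _ _) (fun w => fiber_le _ _ _) (by rw [Finset.card_univ]; omega)
    convert this using 3
    ext T
    simp only [Finset.mem_filter]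
  have hsub : univ.filter (fun T : Orb A → Bool => ¬ Good T) ⊆
      (univ : Finset ((A × A) × (A × A))).biUnion (fun t => univ.filter (fun T : Orb A → Bool =>
      ∀ d ∈ (univ : Finset A), ¬ (T (q t.1.1 t.1.2 d) = true ∧ T (q t.2.1 t.2.2 d) = true))) := by
    intro T hT
    have hT := (mem_filter.mp hT).2
    unfold Good at hT
    push Not at hT
    obtain ⟨a, b, c, e, h⟩ := hT
    simp only [mem_biUnion, mem_filter, mem_univ, true_and]
    refine ⟨((a, b), (c, e)), ?_⟩
    intro d _ hd
    exact h d hd.1 hd.2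
  have h1 : 4 ^ m * (univ.filter (fun T : Orb A → Bool => ¬ Good T)).card ≤
      r ^ 4 * (3 ^ m * 2 ^ (Fintype.card (Orb A))) := by
    calc 4 ^ m * (univ.filter (fun T : Orb A → Bool => ¬ Good T)).card
        ≤ 4 ^ m * ∑ t : (A × A) × (A × A), (univ.filter (fun T : Orb A → Bool =>
      ∀ d ∈ (univ : Finset A), ¬ (T (q t.1.1 t.1.2 d) = true ∧ T (q t.2.1 t.2.2 d) = true))).card := by
          apply Nat.mul_le_mul_left
          exact le_trans (Finset.card_le_card hsub) Finset.card_biUnion_le
      _ = ∑ t : (A × A) × (A × A), 4 ^ m * (univ.filter (fun T : Orb A → Bool =>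
      ∀ d ∈ (univ : Finset A), ¬ (T (q t.1.1 t.1.2 d) = true ∧ T (q t.2.1 t.2.2 d) = true))).card := by
          rw [Finset.mul_sum]
      _ ≤ ∑ t : (A × A) × (A × A), 3 ^ m * 2 ^ (Fintype.card (Orb A)) :=
          Finset.sum_le_sum (fun t _ => hbad t)
      _ = r ^ 4 * (3 ^ m * 2 ^ (Fintype.card (Orb A))) := by
          rw [Finset.sum_const, Finset.card_univ, Fintype.card_prod, Fintype.card_prod, smul_eq_mul]
          ring
  have h2 := Finset.card_filter_add_card_filter_not (s := (univ : Finset (Orb A → Bool)))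
    (fun T => Good T)
  have h3 : (univ : Finset (Orb A → Bool)).card = 2 ^ (Fintype.card (Orb A)) := by
    rw [Finset.card_univ]; simp
  rw [h3] at h2
  have h4 : 2 * (univ.filter (fun T : Orb A → Bool => ¬ Good T)).card ≤ 2 ^ (Fintype.card (Orb A)) := by
    have h5 : 4 ^ m * (2 * (univ.filter (fun T : Orb A → Bool => ¬ Good T)).card) ≤
        4 ^ m * 2 ^ (Fintype.card (Orb A)) := by
      calc 4 ^ m * (2 * (univ.filter (fun T : Orb A → Bool => ¬ Good T)).card)
          = 2 * (4 ^ m * (univ.filter (fun T : Orb A → Bool => ¬ Good T)).card) := by ring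
        _ ≤ 2 * (r ^ 4 * (3 ^ m * 2 ^ (Fintype.card (Orb A)))) := Nat.mul_le_mul_left _ h1
        _ = (2 * r ^ 4 * 3 ^ m) * 2 ^ (Fintype.card (Orb A)) := by ring
        _ ≤ 4 ^ m * 2 ^ (Fintype.card (Orb A)) := Nat.mul_le_mul_right _ hm2
    exact Nat.le_of_mul_le_mul_left h5 (by positivity)
  omega

end

end Pool.Agent.H8R3.Hyper
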