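import Mathlib
import Pool.Agent.H8R3.HyperOrb

set_option autoImplicit false

namespace Pool.Agent.H8R3.Hyper

open Finset

/-- The multiplicative axioms of a hyperfield on a type with zero `z`. -/
structure MulAx {H : Type} (z : H) (m : H → H → H) : Prop where
  one : ∃ u, u ≠ z ∧ ∀ a, m u a = a
  comm : ∀ a b, m a b = m b a
  assoc : ∀ a b c, m (m a b) c = m a (m b c)
  zero : ∀ a, m z a = z
  ne : ∀ a b, a ≠ z → b ≠ z → m a b ≠ z
  inv : ∀ a, a ≠ z → ∃ b, ∀ c, m (m a b) c = c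

/-- The additive axioms of a hyperfield, except associativity and nonemptiness. -/
structure AddAx {H : Type} (z : H) (m : H → H → H) (s : H → H → Set H) : Prop where
  comm : ∀ a b, s a b = s b a
  zero : ∀ a, s z a = {a}
  neg : ∀ a, ∃! b, z ∈ s a b
  rev : ∀ a b c d, a ∈ s b c → z ∈ s b d → c ∈ s a d
  dist : ∀ a b c, (fun x => m a x) '' s b c = s (m a b) (m a c)

def LH {H : Type} (z : H) (m : H → H → H) : Set (H → H → Set H) :=
  {s | AddAx z m s ∧ (∀ a b, (s a b).Nonempty) ∧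
    (∀ a b c, (⋃ x ∈ s a b, s x c) = ⋃ x ∈ s b c, s a x)}

def LP {H : Type} (z : H) (m : H → H → H) : Set (H → H → Set H) :=
  {s | AddAx z m s ∧ ∀ x n w, x ≠ z → z ∈ s x n → w ∈ s x n}

/-- Commutative group with zero structure from the axioms. -/
@[instance_reducible] noncomputable def cgwz {H : Type} {z : H} {m : H → H → H} (h : MulAx z m) :
    CommGroupWithZero H := by
  classical
  exact
  { mul := m
    mul_assoc := h.assoc
    mul_comm := h.comm
    one := h.one.choose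
    one_mul := h.one.choose_spec.2
    mul_one := fun a => (h.comm a _).trans (h.one.choose_spec.2 a)
    zero := z
    zero_mul := h.zero
    mul_zero := fun a => (h.comm a _).trans (h.zero a)
    inv := fun a => if ha : a ≠ z then (h.inv a ha).choose else z
    exists_pair_ne := ⟨h.one.choose, z, h.one.choose_spec.1⟩
    inv_zero := by
      change (if ha : z ≠ z then (h.inv z ha).choose else z) = z
      rw [dif_neg (by simp)]
    mul_inv_cancel := fun a ha => by
      change m a (if ha : a ≠ z then (h.inv a ha).choose else z) = h.one.choose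
      rw [dif_pos (show a ≠ z from ha)]
      have h1 := (h.inv a ha).choose_spec h.one.choose
      rw [h.comm, h.one.choose_spec.2] at h1
      exact h1 }

section
variable {H : Type} [CommGroupWithZero H]

/-- The symmetric ternary relation attached to `T`. -/
def tri (T : Orb Hˣ → Bool) (x y z : H) : Prop :=
  (x = 0 ∧ y = z) ∨ (y = 0 ∧ x = z) ∨ (z = 0 ∧ x = y) ∨
    ∃ a b c : Hˣ, x = a ∧ y = b ∧ z = c ∧ T (q a b c) = true

def hadd (T : Orb Hˣ → Bool) (x y : H) : Set H := {z | tri T x y z}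

theorem tri_swap12 {T : Orb Hˣ → Bool} {x y z : H} (h : tri T x y z) : tri T y x z := by
  rcases h with ⟨h1, h2⟩ | ⟨h1, h2⟩ | ⟨h1, h2⟩ | ⟨a, b, c, h1, h2, h3, h4⟩
  · exact Or.inr (Or.inl ⟨h1, h2⟩)
  · exact Or.inl ⟨h1, h2⟩
  · exact Or.inr (Or.inr (Or.inl ⟨h1, h2.symm⟩))
  · exact Or.inr (Or.inr (Or.inr ⟨b, a, c, h2, h1, h3, by rw [q_swap12]; exact h4⟩))

theorem tri_swap23 {T : Orb Hˣ → Bool} {x y z : H} (h : tri T x y z) : tri T x z y := by
  rcases h with ⟨h1, h2⟩ | ⟨h1, h2⟩ | ⟨h1, h2⟩ | ⟨a, b, c, h1, h2, h3, h4⟩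
  · exact Or.inl ⟨h1, h2.symm⟩
  · exact Or.inr (Or.inr (Or.inl ⟨h1, h2⟩))
  · exact Or.inr (Or.inl ⟨h1, h2⟩)
  · exact Or.inr (Or.inr (Or.inr ⟨a, c, b, h1, h3, h2, by rw [q_swap23]; exact h4⟩))

theorem tri_zero1 {T : Orb Hˣ → Bool} {y z : H} : tri T 0 y z ↔ y = z := by
  constructor
  · rintro (⟨h1, h2⟩ | ⟨h1, h2⟩ | ⟨h1, h2⟩ | ⟨a, b, c, h1, h2, h3, h4⟩)
    · exact h2
    · rw [h1, h2]
    · rw [h1, h2]
    · exact absurd h1.symm a.ne_zero
  · intro h; exact Or.inl ⟨rfl, h⟩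

theorem tri_zero2 {T : Orb Hˣ → Bool} {x z : H} : tri T x 0 z ↔ x = z := by
  constructor
  · intro h; exact tri_zero1.mp (tri_swap12 h)
  · intro h; exact tri_swap12 (tri_zero1.mpr h)

theorem tri_zero3 {T : Orb Hˣ → Bool} {x y : H} : tri T x y 0 ↔ x = y := by
  constructor
  · intro h; exact tri_zero2.mp (tri_swap23 h)
  · intro h; exact tri_swap23 (tri_zero2.mpr h)

theorem tri_unit {T : Orb Hˣ → Bool} {a b c : Hˣ} :
    tri T (a : H) b c ↔ T (q a b c) = true := by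
  constructor
  · rintro (⟨h1, h2⟩ | ⟨h1, h2⟩ | ⟨h1, h2⟩ | ⟨a', b', c', h1, h2, h3, h4⟩)
    · exact absurd h1 a.ne_zero
    · exact absurd h1 b.ne_zero
    · exact absurd h1 c.ne_zero
    · rw [Units.ext h1, Units.ext h2, Units.ext h3]; exact h4
  · intro h; exact Or.inr (Or.inr (Or.inr ⟨a, b, c, rfl, rfl, rfl, h⟩))

theorem exists_unit {x : H} (h : x ≠ 0) : ∃ a : Hˣ, x = a := ⟨Units.mk0 x h, rfl⟩

theorem tri_smul {T : Orb Hˣ → Bool} {x y z : H} (l : Hˣ) (h : tri T x y z) :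
    tri T (l * x) (l * y) (l * z) := by
  rcases h with ⟨h1, h2⟩ | ⟨h1, h2⟩ | ⟨h1, h2⟩ | ⟨a, b, c, h1, h2, h3, h4⟩
  · subst h1 h2; rw [mul_zero]; exact tri_zero1.mpr rfl
  · subst h1 h2; rw [mul_zero]; exact tri_zero2.mpr rfl
  · subst h1 h2; rw [mul_zero]; exact tri_zero3.mpr rfl
  · subst h1 h2 h3
    rw [← Units.val_mul, ← Units.val_mul, ← Units.val_mul, tri_unit, q_smul]
    exact h4

theorem tri_assoc {T : Orb Hˣ → Bool} (hT : Good T) {a b c t : H}
    (h : ∃ x, tri T a b x ∧ tri T c t x) : ∃ x, tri T b c x ∧ tri T a t x := by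
  by_cases ha : a = 0
  · subst ha
    obtain ⟨x, h1, h2⟩ := h
    rw [tri_zero1] at h1
    subst h1
    exact ⟨t, tri_swap12 (tri_swap23 h2), tri_zero1.mpr rfl⟩
  by_cases hb : b = 0
  · subst hb
    obtain ⟨x, h1, h2⟩ := h
    rw [tri_zero2] at h1
    subst h1
    exact ⟨c, tri_zero1.mpr rfl, tri_swap12 (tri_swap23 (tri_swap12 h2))⟩
  by_cases hc : c = 0
  · subst hc
    obtain ⟨x, h1, h2⟩ := h
    rw [tri_zero1] at h2
    subst h2
    exact ⟨b, tri_zero2.mpr rfl, tri_swap23 h1⟩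
  by_cases ht : t = 0
  · subst ht
    obtain ⟨x, h1, h2⟩ := h
    rw [tri_zero2] at h2
    subst h2
    exact ⟨a, tri_swap23 (tri_swap12 h1), tri_zero2.mpr rfl⟩
  obtain ⟨a, rfl⟩ := exists_unit ha
  obtain ⟨b, rfl⟩ := exists_unit hb
  obtain ⟨c, rfl⟩ := exists_unit hc
  obtain ⟨t, rfl⟩ := exists_unit ht
  obtain ⟨d, h1, h2⟩ := hT b c a t
  exact ⟨d, tri_unit.mpr h1, tri_unit.mpr h2⟩

theorem hadd_mem_LH {T : Orb Hˣ → Bool} (hT : Good T) :
    hadd T ∈ LH (0 : H) (fun x y => x * y) := by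
  have hne : ∀ a b : H, (hadd T a b).Nonempty := by
    intro a b
    by_cases ha : a = 0
    · subst ha; exact ⟨b, tri_zero1.mpr rfl⟩
    by_cases hb : b = 0
    · subst hb; exact ⟨a, tri_zero2.mpr rfl⟩
    obtain ⟨a, rfl⟩ := exists_unit ha
    obtain ⟨b, rfl⟩ := exists_unit hb
    obtain ⟨d, h1, -⟩ := hT a b a b
    exact ⟨d, tri_unit.mpr h1⟩
  refine ⟨⟨?_, ?_, ?_, ?_, ?_⟩, hne, ?_⟩
  · intro a b
    ext x
    exact ⟨tri_swap12, tri_swap12⟩
  · intro a
    ext x
    change tri T 0 a x ↔ x = a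
    rw [tri_zero1]
    exact eq_comm
  · intro a
    refine ⟨a, tri_zero3.mpr rfl, ?_⟩
    intro y hy
    exact (tri_zero3.mp hy).symm
  · intro a b c d h1 h2
    have : b = d := tri_zero3.mp h2
    subst this
    exact tri_swap12 (tri_swap23 h1)
  · intro a b c
    by_cases ha : a = 0
    · subst ha
      ext x
      simp only [zero_mul, Set.mem_image]
      constructor
      · rintro ⟨y, hy, rfl⟩
        exact tri_zero1.mpr rfl
      · intro hx
        have : (0 : H) = x := tri_zero1.mp hx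
        obtain ⟨y, hy⟩ := hne b c
        exact ⟨y, hy, this⟩
    · obtain ⟨a, rfl⟩ := exists_unit ha
      ext x
      simp only [Set.mem_image]
      constructor
      · rintro ⟨y, hy, rfl⟩
        exact tri_smul a hy
      · intro hx
        refine ⟨(a⁻¹ : Hˣ) * x, ?_, by simp⟩
        have := tri_smul a⁻¹ hx
        change tri T b c ((a⁻¹ : Hˣ) * x)
        simpa using this
  · intro a b c
    ext t
    simp only [Set.mem_iUnion, exists_prop]
    constructor
    · rintro ⟨x, h1, h2⟩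
      obtain ⟨y, h3, h4⟩ := tri_assoc hT (a := a) (b := b) (c := c) (t := t)
        ⟨x, h1, tri_swap23 (tri_swap12 h2)⟩
      exact ⟨y, h3, tri_swap23 h4⟩
    · rintro ⟨x, h1, h2⟩
      obtain ⟨y, h3, h4⟩ := tri_assoc hT (a := c) (b := b) (c := a) (t := t)
        ⟨x, tri_swap12 h1, tri_swap23 h2⟩
      exact ⟨y, tri_swap12 h3, tri_swap12 (tri_swap23 h4)⟩

theorem hadd_inj {T T' : Orb Hˣ → Bool} (h : hadd T = hadd T') : T = T' := by
  funext w
  obtain ⟨a, b, c, rfl⟩ := q_surj w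
  have h1 : (c : H) ∈ hadd T (a : H) b ↔ (c : H) ∈ hadd T' (a : H) b := by rw [h]
  change tri T (a : H) b c ↔ tri T' (a : H) b c at h1
  rw [tri_unit, tri_unit] at h1
  cases h2 : T (q a b c) <;> cases h3 : T' (q a b c) <;> simp_all

open Classical in
theorem lower [Finite H] [Fintype Hˣ] :
    (univ.filter (fun T : Orb Hˣ → Bool => Good T)).card ≤
      (LH (0 : H) (fun x y => x * y)).ncard := by
  rw [← Set.ncard_coe_finset]
  apply Set.ncard_le_ncard_of_injOn (f := hadd)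
  · intro T hT
    have := (mem_filter.mp (Finset.mem_coe.mp hT)).2
    exact hadd_mem_LH this
  · intro T _ T' _ h
    exact hadd_inj h

end

end Pool.Agent.H8R3.Hyper
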