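import Mathlib
import Pool.Agent.H8R3.HyperStr

set_option autoImplicit false

namespace Pool.Agent.H8R3.Hyper

open Finset

section
variable {H : Type} [CommGroupWithZero H]

def recon (e : Hˣ) (T : Orb Hˣ → Bool) (x y : H) : Set H :=
  {z | (x = 0 ∧ z = y) ∨ (y = 0 ∧ z = x) ∨ (z = 0 ∧ y = e * x) ∨
    ∃ a b c : Hˣ, x = a ∧ y = b ∧ z = c ∧ T (q a b (e * c)) = true}

theorem exists_eps {s : H → H → Set H} (h : AddAx (0 : H) (fun x y => x * y) s) :
    ∃ e : Hˣ, e * e = 1 ∧ ∀ x y : H, (0 : H) ∈ s x y ↔ y = e * x := by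
  obtain ⟨e, he, heu⟩ := h.neg 1
  have he0 : e ≠ 0 := by
    intro h0
    subst h0
    have : (0 : H) ∈ s 0 1 := by rw [h.comm]; exact he
    rw [h.zero] at this
    exact zero_ne_one (α := H) (Set.mem_singleton_iff.mp this)
  have hd : ∀ a x y z : H, z ∈ s x y → a * z ∈ s (a * x) (a * y) := by
    intro a x y z hz
    have := h.dist a x y
    rw [← this]
    exact ⟨z, hz, rfl⟩
  have hee : e * e = 1 := by
    have h1 := hd e 1 e 0 he
    rw [mul_zero, mul_one] at h1
    have h2 : (0 : H) ∈ s e 1 := by rw [h.comm]; exact he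
    exact (h.neg e).unique h1 h2
  refine ⟨Units.mk0 e he0, Units.ext hee, ?_⟩
  intro x y
  have h1 := hd x 1 e 0 he
  rw [mul_zero, mul_one] at h1
  constructor
  · intro hy
    have := (h.neg x).unique hy h1
    rw [this, Units.val_mk0, mul_comm]
  · intro hy
    rw [hy, Units.val_mk0, mul_comm e x]
    exact h1

theorem LP_sub {s : H → H → Set H} (hs : s ∈ LP (0 : H) (fun x y => x * y)) :
    ∃ (e : Hˣ) (T : Orb Hˣ → Bool), (∀ d, T (q 1 e d) = true) ∧ s = recon e T := by
  classical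
  obtain ⟨h, hP⟩ := hs
  obtain ⟨e, hee, hneg⟩ := exists_eps h
  have hee' : (e : H) * e = 1 := by rw [← Units.val_mul, hee]; rfl
  have hd : ∀ a x y z : H, z ∈ s x y → a * z ∈ s (a * x) (a * y) := by
    intro a x y z hz
    have := h.dist a x y
    rw [← this]
    exact ⟨z, hz, rfl⟩
  -- the predicate
  let p : Hˣ → Hˣ → Hˣ → Prop := fun a b c => (e : H) * c ∈ s a b
  have p12 : ∀ a b c, p a b c → p b a c := by
    intro a b c hp
    change (e : H) * c ∈ s b a
    rw [h.comm]; exact hp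
  have p23 : ∀ a b c, p a b c → p a c b := by
    intro a b c hp
    have h1 : (0 : H) ∈ s a (e * a) := (hneg _ _).mpr rfl
    have h2 := h.rev _ _ _ _ hp h1
    have h3 := hd e _ _ _ h2
    have h4 : (e : H) * (e * c) = c := by rw [← mul_assoc, hee', one_mul]
    have h5 : (e : H) * (e * a) = a := by rw [← mul_assoc, hee', one_mul]
    rw [h4, h5, h.comm] at h3
    exact h3
  have ps : ∀ l a b c, p a b c → p (l * a) (l * b) (l * c) := by
    intro l a b c hp
    have h1 := hd l _ _ _ hp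
    change (e : H) * ((l * c : Hˣ) : H) ∈ s ((l * a : Hˣ) : H) ((l * b : Hˣ) : H)
    push_cast
    have h2 : (l : H) * (e * c) = e * (l * c) := by ac_rfl
    rw [h2] at h1
    exact h1
  let T : Orb Hˣ → Bool := fun w => decide (∃ a b c, q a b c = w ∧ p a b c)
  have hT : ∀ a b c, T (q a b c) = true ↔ p a b c := by
    intro a b c
    change decide (∃ a' b' c', q a' b' c' = q a b c ∧ p a' b' c') = true ↔ _
    rw [decide_eq_true_iff]
    constructor
    · rintro ⟨a', b', c', h1, h2⟩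
      obtain ⟨l, hl⟩ := q_eq.mp h1
      have h3 := ps l _ _ _ h2
      rcases ms3 hl with ⟨h4, h5, h6⟩ | ⟨h4, h5, h6⟩ | ⟨h4, h5, h6⟩ | ⟨h4, h5, h6⟩ |
        ⟨h4, h5, h6⟩ | ⟨h4, h5, h6⟩
      · rw [h4, h5, h6]; exact h3
      · rw [h4, h5, h6]; exact p23 _ _ _ h3
      · rw [h4, h5, h6]; exact p12 _ _ _ h3
      · rw [h4, h5, h6]; exact p23 _ _ _ (p12 _ _ _ h3)
      · rw [h4, h5, h6]; exact p12 _ _ _ (p23 _ _ _ h3)
      · rw [h4, h5, h6]; exact p12 _ _ _ (p23 _ _ _ (p12 _ _ _ h3))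
    · intro hp
      exact ⟨a, b, c, rfl, hp⟩
  refine ⟨e, T, ?_, ?_⟩
  · intro d
    rw [hT]
    change (e : H) * d ∈ s ((1 : Hˣ) : H) e
    apply hP
    · exact Units.ne_zero 1
    · rw [hneg]; simp
  · funext x y
    ext z
    by_cases hx : x = 0
    · subst hx
      rw [h.zero]
      constructor
      · intro hz
        exact Or.inl ⟨rfl, hz⟩
      · rintro (⟨-, h2⟩ | ⟨h1, h2⟩ | ⟨h1, h2⟩ | ⟨a, b, c, h1, -, -, -⟩)
        · exact h2
        · rw [h1, h2]; rfl
        · rw [h1, h2]; simp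
        · exact absurd h1.symm a.ne_zero
    by_cases hy : y = 0
    · subst hy
      rw [h.comm, h.zero]
      constructor
      · intro hz
        exact Or.inr (Or.inl ⟨rfl, hz⟩)
      · rintro (⟨h1, h2⟩ | ⟨h1, h2⟩ | ⟨h1, h2⟩ | ⟨a, b, c, -, h1, -, -⟩)
        · exact absurd h1 hx
        · exact h2
        · exfalso
          rcases mul_eq_zero.mp h2.symm with h3 | h3
          · exact e.ne_zero h3
          · exact hx h3
        · exact absurd h1.symm b.ne_zero
    obtain ⟨a, rfl⟩ := exists_unit hx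
    obtain ⟨b, rfl⟩ := exists_unit hy
    by_cases hz : z = 0
    · subst hz
      rw [hneg]
      constructor
      · intro h1
        exact Or.inr (Or.inr (Or.inl ⟨rfl, h1⟩))
      · rintro (⟨h1, h2⟩ | ⟨h1, h2⟩ | ⟨h1, h2⟩ | ⟨a', b', c', -, -, h1, -⟩)
        · exact absurd h1 hx
        · exact absurd h1 hy
        · exact h2
        · exact absurd h1.symm c'.ne_zero
    · obtain ⟨c, rfl⟩ := exists_unit hz
      have h4 : (e : H) * ((e * c : Hˣ) : H) = c := by
        push_cast
        rw [← mul_assoc, hee', one_mul]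
      constructor
      · intro h1
        refine Or.inr (Or.inr (Or.inr ⟨a, b, c, rfl, rfl, rfl, ?_⟩))
        rw [hT]
        change (e : H) * ((e * c : Hˣ) : H) ∈ s a b
        rw [h4]; exact h1
      · rintro (⟨h1, h2⟩ | ⟨h1, h2⟩ | ⟨h1, h2⟩ | ⟨a', b', c', h1, h2, h3, h5⟩)
        · exact absurd h1 hx
        · exact absurd h1 hy
        · exact absurd h1 hz
        · rw [← Units.ext h1, ← Units.ext h2, ← Units.ext h3, hT] at h5
          change (e : H) * ((e * c : Hˣ) : H) ∈ s a b at h5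
          rw [h4] at h5; exact h5

theorem upper [Finite H] [Fintype Hˣ] (k : ℕ) (hk : 3 * k ≤ Fintype.card Hˣ + 2) :
    (LP (0 : H) (fun x y => x * y)).ncard * 2 ^ k ≤
      Fintype.card Hˣ * 2 ^ (Fintype.card (Orb Hˣ)) := by
  classical
  have hsub : LP (0 : H) (fun x y => x * y) ⊆
      (⋃ e ∈ (univ : Finset Hˣ), (fun T => recon e T) '' ((univ.filter (fun T : Orb Hˣ → Bool =>
        ∀ w ∈ univ.image (fun d => q 1 e d), T w = true) : Finset (Orb Hˣ → Bool)) :
          Set (Orb Hˣ → Bool))) := by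
    intro s hs
    obtain ⟨e, T, hT, h⟩ := LP_sub hs
    simp only [Set.mem_iUnion]
    refine ⟨e, mem_univ _, T, ?_, h.symm⟩
    simp only [coe_filter, mem_univ, true_and, Set.mem_ofPred_eq]
    intro w hw
    obtain ⟨d, -, rfl⟩ := mem_image.mp hw
    exact hT d
  have h1 : (LP (0 : H) (fun x y => x * y)).ncard ≤ ∑ e : Hˣ,
      (univ.filter (fun T : Orb Hˣ → Bool =>
        ∀ w ∈ univ.image (fun d => q 1 e d), T w = true)).card := by
    refine le_trans (Set.ncard_le_ncard hsub (Set.toFinite _)) ?_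
    refine le_trans (Finset.set_ncard_biUnion_le _ _) ?_
    apply Finset.sum_le_sum
    intro e _
    refine le_trans (Set.ncard_image_le (Set.toFinite _)) ?_
    rw [Set.ncard_coe_finset]
  calc (LP (0 : H) (fun x y => x * y)).ncard * 2 ^ k
      ≤ (∑ e : Hˣ, (univ.filter (fun T : Orb Hˣ → Bool =>
        ∀ w ∈ univ.image (fun d => q 1 e d), T w = true)).card) * 2 ^ k :=
        Nat.mul_le_mul_right _ h1
    _ = ∑ e : Hˣ, (univ.filter (fun T : Orb Hˣ → Bool =>
        ∀ w ∈ univ.image (fun d => q 1 e d), T w = true)).card * 2 ^ k := by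
        rw [Finset.sum_mul]
    _ ≤ ∑ e : Hˣ, 2 ^ (Fintype.card (Orb Hˣ)) := by
        apply Finset.sum_le_sum
        intro e _
        rw [← forced_count (univ.image (fun d => q 1 e d))]
        apply Nat.mul_le_mul_left
        apply Nat.pow_le_pow_right (by norm_num)
        have := image_ge (1 : Hˣ) e
        omega
    _ = _ := by rw [Finset.sum_const, Finset.card_univ, smul_eq_mul]

end

end Pool.Agent.H8R3.Hyper
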