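import Mathlib
import Pool.Agent.H8R3.HyperUp

set_option autoImplicit false

namespace Pool.Agent.H8R3.Hyper

open Finset

abbrev XX (H : Type) := (H → H → H) × (H → H → Set H)

def Iso {H : Type} (p q : XX H) : Prop :=
  ∃ e : H ≃ H, ∀ a b, e (p.1 a b) = q.1 (e a) (e b) ∧ e '' p.2 a b = q.2 (e a) (e b)

def cls {H : Type} (Φ : XX H → Prop) : Set (Set (XX H)) :=
  {C | ∃ p, Φ p ∧ C = {q | Φ q ∧ Iso p q}}

def tr {H : Type} (e : H ≃ H) (p : XX H) : XX H :=
  (fun a b => e (p.1 (e.symm a) (e.symm b)), fun a b => e '' p.2 (e.symm a) (e.symm b))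

section
variable {H : Type}

theorem iso_tr (e : H ≃ H) (p : XX H) : Iso p (tr e p) := by
  refine ⟨e, fun a b => ⟨?_, ?_⟩⟩ <;> simp [tr]

theorem Iso.eq_tr {p q : XX H} (h : Iso p q) : ∃ e : H ≃ H, q = tr e p := by
  obtain ⟨e, he⟩ := h
  refine ⟨e, ?_⟩
  ext a b x
  · have := (he (e.symm a) (e.symm b)).1
    simp only [Equiv.apply_symm_apply] at this
    rw [← this]; rfl
  · have := (he (e.symm a) (e.symm b)).2
    simp only [Equiv.apply_symm_apply] at this
    rw [← this]; rfl

theorem Iso.symm {p q : XX H} (h : Iso p q) : Iso q p := by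
  obtain ⟨e, rfl⟩ := h.eq_tr
  refine ⟨e.symm, fun a b => ⟨?_, ?_⟩⟩
  · simp [tr]
  · simp only [tr]
    rw [← Set.image_comp]
    simp

theorem Iso.trans {p q s : XX H} (h : Iso p q) (h' : Iso q s) : Iso p s := by
  obtain ⟨e, he⟩ := h
  obtain ⟨e', he'⟩ := h'
  refine ⟨e.trans e', fun a b => ⟨?_, ?_⟩⟩
  · simp only [Equiv.trans_apply]
    rw [(he a b).1, (he' _ _).1]
  · simp only [Equiv.trans_apply]
    rw [← (he' _ _).2, ← (he a b).2, ← Set.image_comp]
    rfl

theorem ncard_le_cls [Finite H] (Φ : XX H → Prop) :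
    {p | Φ p}.ncard ≤ (cls Φ).ncard * (Nat.card H).factorial := by
  classical
  have := Fintype.ofFinite H
  have hfin : (cls Φ).Finite := Set.toFinite _
  have hsub : {p | Φ p} ⊆ ⋃ C ∈ hfin.toFinset, C := by
    intro p hp
    simp only [Set.mem_iUnion]
    refine ⟨{q | Φ q ∧ Iso p q}, ?_, hp, ?_⟩
    · simp only [Set.Finite.mem_toFinset]
      exact ⟨p, hp, rfl⟩
    · exact ⟨Equiv.refl H, fun a b => by simp⟩
  have h2 : ∀ C ∈ hfin.toFinset, C.ncard ≤ (Nat.card H).factorial := by
    intro C hC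
    simp only [Set.Finite.mem_toFinset] at hC
    obtain ⟨p, hp, rfl⟩ := hC
    have hs : {q | Φ q ∧ Iso p q} ⊆ (fun e => tr e p) '' (Set.univ : Set (H ≃ H)) := by
      rintro q ⟨-, hq⟩
      obtain ⟨e, he⟩ := hq.eq_tr
      exact ⟨e, Set.mem_univ _, he.symm⟩
    refine le_trans (Set.ncard_le_ncard hs (Set.toFinite _)) ?_
    refine le_trans (Set.ncard_image_le (Set.toFinite _)) ?_
    rw [Set.ncard_univ, Nat.card_eq_fintype_card, Fintype.card_equiv (Equiv.refl H),
      Nat.card_eq_fintype_card]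
  calc {p | Φ p}.ncard ≤ (⋃ C ∈ hfin.toFinset, C).ncard :=
        Set.ncard_le_ncard hsub (Set.toFinite _)
    _ ≤ ∑ C ∈ hfin.toFinset, C.ncard := Finset.set_ncard_biUnion_le _ _
    _ ≤ ∑ C ∈ hfin.toFinset, (Nat.card H).factorial := Finset.sum_le_sum h2
    _ = _ := by rw [Finset.sum_const, smul_eq_mul, Set.ncard_eq_toFinset_card _ hfin]

theorem mulAx_tr {z : H} {p : XX H} (h : MulAx z p.1) {e : H ≃ H} (he : e z = z) :
    MulAx z (tr e p).1 := by
  have hz : e.symm z = z := by rw [Equiv.symm_apply_eq, he]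
  have hne : ∀ a, a ≠ z → e.symm a ≠ z := by
    intro a ha h1
    apply ha
    rw [Equiv.symm_apply_eq, he] at h1
    exact h1
  refine ⟨?_, ?_, ?_, ?_, ?_, ?_⟩
  · obtain ⟨u, hu, hu'⟩ := h.one
    refine ⟨e u, ?_, ?_⟩
    · intro h1
      apply hu
      rw [← he] at h1
      exact e.injective h1
    · intro a
      simp [tr, hu']
  · intro a b
    simp only [tr]
    rw [h.comm]
  · intro a b c
    simp only [tr, Equiv.symm_apply_apply]
    rw [h.assoc]
  · intro a
    simp only [tr]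
    rw [hz, h.zero, he]
  · intro a b ha hb
    simp only [tr]
    intro h1
    apply h.ne _ _ (hne a ha) (hne b hb)
    rw [← he] at h1
    exact e.injective (h1)
  · intro a ha
    obtain ⟨b, hb⟩ := h.inv _ (hne a ha)
    refine ⟨e b, ?_⟩
    intro c
    simp only [tr, Equiv.symm_apply_apply]
    rw [hb]; simp

theorem LP_tr {z : H} {p : XX H} (h : p.2 ∈ LP z p.1) {e : H ≃ H} (he : e z = z) :
    (tr e p).2 ∈ LP z (tr e p).1 := by
  obtain ⟨h, hP⟩ := h
  have hz : e.symm z = z := by rw [Equiv.symm_apply_eq, he]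
  have hmem : ∀ a b c, c ∈ (tr e p).2 a b ↔ e.symm c ∈ p.2 (e.symm a) (e.symm b) := by
    intro a b c
    simp only [tr, Set.mem_image]
    constructor
    · rintro ⟨x, hx, rfl⟩
      simpa using hx
    · intro hx
      exact ⟨_, hx, by simp⟩
  refine ⟨⟨?_, ?_, ?_, ?_, ?_⟩, ?_⟩
  · intro a b
    simp only [tr]
    rw [h.comm]
  · intro a
    simp only [tr]
    rw [hz, h.zero]; simp
  · intro a
    obtain ⟨b, hb, hb'⟩ := h.neg (e.symm a)
    refine ⟨e b, ?_, ?_⟩
    · change z ∈ (tr e p).2 a (e b)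
      rw [hmem, hz]
      simpa using hb
    · intro y hy
      rw [hmem, hz] at hy
      have := hb' _ hy
      rw [← this]; simp
  · intro a b c d h1 h2
    rw [hmem] at h1 h2 ⊢
    rw [hz] at h2
    exact h.rev _ _ _ _ h1 h2
  · intro a b c
    have h1 := h.dist (e.symm a) (e.symm b) (e.symm c)
    ext x
    rw [hmem]
    have h2 : (tr e p).1 a b = e (p.1 (e.symm a) (e.symm b)) := rfl
    have h3 : (tr e p).1 a c = e (p.1 (e.symm a) (e.symm c)) := rfl
    rw [h2, h3, Equiv.symm_apply_apply, Equiv.symm_apply_apply, ← h1]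
    simp only [Set.mem_image]
    constructor
    · rintro ⟨y, hy, hyx⟩
      rw [hmem] at hy
      refine ⟨_, hy, ?_⟩
      rw [← hyx]
      simp [tr]
    · rintro ⟨y, hy, hyx⟩
      refine ⟨e y, ?_, ?_⟩
      · rw [hmem]; simpa using hy
      · simp only [tr, Equiv.symm_apply_apply]
        rw [hyx]; simp
  · intro x n w hx hn
    rw [hmem] at hn ⊢
    rw [hz] at hn
    apply hP _ _ _ _ hn
    intro h1
    apply hx
    rw [Equiv.symm_apply_eq, he] at h1
    exact h1

/-- An automorphism of the multiplication fixing a generating set is the identity. -/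
theorem aut_eq [CommGroupWithZero H] (S : Set Hˣ) (hS : Subgroup.closure S = ⊤)
    (g : H ≃ H) (hg0 : g 0 = 0) (hg : ∀ a b, g (a * b) = g a * g b) (hgS : ∀ s ∈ S, g s = s) :
    ∀ x, g x = x := by
  have h1 : g 1 = 1 := by
    have h2 := hg 1 1
    rw [mul_one] at h2
    have h3 : g 1 ≠ 0 := by
      intro h
      have := g.injective (h.trans hg0.symm)
      exact one_ne_zero this
    have := mul_left_cancel₀ h3 (h2.symm.trans (mul_one _).symm)
    exact this
  intro x
  by_cases hx : x = 0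
  · rw [hx, hg0]
  obtain ⟨u, rfl⟩ := exists_unit hx
  have hu : u ∈ Subgroup.closure S := by rw [hS]; trivial
  induction hu using Subgroup.closure_induction with
  | mem s hs => exact hgS s hs
  | one => simpa using h1
  | mul a b _ _ ha hb =>
    push_cast
    rw [hg, ha a.ne_zero, hb b.ne_zero]
  | inv a _ ha =>
    have h2 := hg a ((a⁻¹ : Hˣ) : H)
    rw [← Units.val_mul, mul_inv_cancel, Units.val_one, h1, ha a.ne_zero] at h2
    have h3 : (a : H) * ((a⁻¹ : Hˣ) : H) = 1 := by
      rw [← Units.val_mul, mul_inv_cancel, Units.val_one]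
    have := mul_left_cancel₀ a.ne_zero (h2.symm.trans h3.symm)
    exact this

end

end Pool.Agent.H8R3.Hyper
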