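import Mathlib
import Pool.Agent.H8R3.HyperCls

set_option autoImplicit false

namespace Pool.Agent.H8R3.Hyper

open Finset

section
variable {H : Type}

def LPall (z : H) : Set (XX H) := {p | MulAx z p.1 ∧ p.2 ∈ LP z p.1}

def LHall (z : H) : Set (XX H) := {p | MulAx z p.1 ∧ p.2 ∈ LH z p.1}

/-- Fibre bound: permutations (fixing `z`) transporting `p` to the same structure. -/
theorem fiber_bound [Fintype H] [DecidableEq H] {z : H} {p : XX H} (h : MulAx z p.1)
    (p' : XX H) (r : ℕ) (hr : Fintype.card H = r + 1) :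
    (univ.filter (fun e : Equiv.Perm {x // x ≠ z} =>
      tr (Equiv.Perm.ofSubtype e) p = p')).card ≤ r ^ (Nat.log 2 r) := by
  classical
  letI inst : CommGroupWithZero H := cgwz h
  have hcard : Fintype.card {x : H // x ≠ z} = r := by
    have := Fintype.card_subtype_compl (fun x : H => x = z)
    simp only [Fintype.card_subtype_eq] at this
    rw [hr] at this
    simpa using this
  have hcu : Nat.card Hˣ = r := by
    rw [Nat.card_congr (unitsEquivNeZero (G₀ := H)), Nat.card_eq_fintype_card]
    exact hcard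
  have : Finite Hˣ := Nat.finite_of_card_ne_zero (by
    rw [hcu]
    have : 0 < Fintype.card {x : H // x ≠ z} := by
      obtain ⟨u, hu, -⟩ := h.one
      exact Fintype.card_pos_iff.mpr ⟨⟨u, hu⟩⟩
    omega)
  obtain ⟨S, hS, hSc⟩ := exists_small_gen Hˣ
  have hrpos : 0 < r := by
    rw [← hcu]; exact Nat.card_pos
  have hlog : S.card ≤ Nat.log 2 r := by
    rw [hcu] at hSc
    exact Nat.le_log_of_pow_le (by norm_num) hSc
  let F : Equiv.Perm {x // x ≠ z} → (S → {x // x ≠ z}) :=
    fun e s => e ⟨((s : Hˣ) : H), (s : Hˣ).ne_zero⟩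
  have hinj : Set.InjOn F (univ.filter (fun e : Equiv.Perm {x // x ≠ z} =>
      tr (Equiv.Perm.ofSubtype e) p = p') : Finset _) := by
    intro e he e' he' hF
    have he := (mem_filter.mp (Finset.mem_coe.mp he)).2
    have he' := (mem_filter.mp (Finset.mem_coe.mp he')).2
    set f := Equiv.Perm.ofSubtype e
    set f' := Equiv.Perm.ofSubtype e'
    have hfz : f z = z := Equiv.Perm.ofSubtype_apply_of_not_mem e (by simp)
    have hfz' : f' z = z := Equiv.Perm.ofSubtype_apply_of_not_mem e' (by simp)
    let g : H ≃ H := f.trans f'.symm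
    have hg : ∀ a b : H, g (a * b) = g a * g b := by
      intro a b
      have h1 : (tr f p).1 (f a) (f b) = (tr f' p).1 (f a) (f b) := by rw [he, he']
      simp only [tr, Equiv.symm_apply_apply] at h1
      change f'.symm (f (p.1 a b)) = p.1 (f'.symm (f a)) (f'.symm (f b))
      rw [Equiv.symm_apply_eq, h1]
    have hg0 : g 0 = 0 := by
      change f'.symm (f z) = z
      rw [hfz, Equiv.symm_apply_eq, hfz']
    have hgS : ∀ s ∈ (S : Set Hˣ), g s = s := by
      intro s hs
      have h1 := congrFun hF ⟨s, hs⟩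
      simp only [F] at h1
      change f'.symm (f s) = s
      rw [Equiv.symm_apply_eq]
      have h2 : f (s : H) = e ⟨(s : H), s.ne_zero⟩ :=
        Equiv.Perm.ofSubtype_apply_of_mem e s.ne_zero
      have h3 : f' (s : H) = e' ⟨(s : H), s.ne_zero⟩ :=
        Equiv.Perm.ofSubtype_apply_of_mem e' s.ne_zero
      rw [h2, h3, h1]
    have hall := aut_eq (S : Set Hˣ) hS g hg0 hg hgS
    have hff : f = f' := by
      ext x
      have := hall x
      change f'.symm (f x) = x at this
      rw [Equiv.symm_apply_eq] at this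
      exact this
    exact Equiv.Perm.ofSubtype_injective hff
  calc _ ≤ (univ : Finset (S → {x // x ≠ z})).card :=
        Finset.card_le_card_of_injOn F (fun _ _ => mem_univ _) hinj
    _ = r ^ S.card := by
        rw [Finset.card_univ, Fintype.card_fun, hcard, Fintype.card_coe]
    _ ≤ _ := Nat.pow_le_pow_right hrpos hlog

/-- The number of classes meeting `LPall` times `r!` is at most `r ^ log r` times the number
of labelled structures. -/
theorem cls_le [Fintype H] [DecidableEq H] {z : H} (Φ : XX H → Prop) (r : ℕ)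
    (hr : Fintype.card H = r + 1) :
    {C | ∃ p, Φ p ∧ p ∈ LPall z ∧ C = {q | Φ q ∧ Iso p q}}.ncard * r.factorial ≤
      r ^ (Nat.log 2 r) * (LPall z).ncard := by
  classical
  set Q := {C | ∃ p, Φ p ∧ p ∈ LPall z ∧ C = {q | Φ q ∧ Iso p q}} with hQ
  have hQf : Q.Finite := Set.toFinite _
  have hLf : (LPall z).Finite := Set.toFinite _
  have hcard : Fintype.card {x : H // x ≠ z} = r := by
    have := Fintype.card_subtype_compl (fun x : H => x = z)
    simp only [Fintype.card_subtype_eq] at this
    rw [hr] at this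
    simpa using this
  -- choose representatives
  have hrep : ∀ C : Q, ∃ p, Φ p ∧ p ∈ LPall z ∧ (C : Set (XX H)) = {q | Φ q ∧ Iso p q} :=
    fun C => C.2
  choose rep hrep1 hrep2 hrep3 using hrep
  have := hQf.fintype
  have hfz : ∀ e : Equiv.Perm {x // x ≠ z}, Equiv.Perm.ofSubtype e z = z := fun e =>
    Equiv.Perm.ofSubtype_apply_of_not_mem e (by simp)
  have key : (univ : Finset (Q × Equiv.Perm {x // x ≠ z})).card ≤
      r ^ (Nat.log 2 r) * hLf.toFinset.card := by
    apply Finset.card_le_mul_card_image_of_maps_to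
      (f := fun t : Q × Equiv.Perm {x // x ≠ z} => tr (Equiv.Perm.ofSubtype t.2) (rep t.1))
    · rintro ⟨C, e⟩ _
      simp only [Set.Finite.mem_toFinset]
      exact ⟨mulAx_tr (hrep2 C).1 (hfz e), LP_tr (hrep2 C).2 (hfz e)⟩
    · intro p' _
      by_cases hne : ∃ t : Q × Equiv.Perm {x // x ≠ z},
        tr (Equiv.Perm.ofSubtype t.2) (rep t.1) = p'
      · obtain ⟨⟨C0, e0⟩, h0⟩ := hne
        have hC : ∀ t : Q × Equiv.Perm {x // x ≠ z},
            tr (Equiv.Perm.ofSubtype t.2) (rep t.1) = p' → t.1 = C0 := by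
          rintro ⟨C, e⟩ ht
          simp only at ht h0 ⊢
          have h1 : Iso (rep C) p' := by rw [← ht]; exact iso_tr _ _
          have h2 : Iso (rep C0) p' := by rw [← h0]; exact iso_tr _ _
          apply Subtype.ext
          rw [hrep3 C, hrep3 C0]
          ext x
          constructor
          · rintro ⟨hx1, hx2⟩
            exact ⟨hx1, (h2.trans h1.symm).trans hx2⟩
          · rintro ⟨hx1, hx2⟩
            exact ⟨hx1, (h1.trans h2.symm).trans hx2⟩
        refine le_trans (Finset.card_le_card_of_injOn (t := univ.filter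
          (fun e : Equiv.Perm {x // x ≠ z} => tr (Equiv.Perm.ofSubtype e) (rep C0) = p'))
          (fun t => t.2) ?_ ?_) (fiber_bound (hrep2 C0).1 p' r hr)
        · intro t ht
          have ht := (mem_filter.mp ht).2
          have h1 := hC t ht
          simp only [coe_filter, mem_univ, true_and, Set.mem_ofPred_eq]
          rw [← h1]; exact ht
        · intro t ht t' ht' htt
          have ht := (mem_filter.mp ht).2
          have ht' := (mem_filter.mp ht').2
          exact Prod.ext ((hC t ht).trans (hC t' ht').symm) htt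
      · push Not at hne
        have : (univ.filter (fun t : Q × Equiv.Perm {x // x ≠ z} =>
          tr (Equiv.Perm.ofSubtype t.2) (rep t.1) = p')) = ∅ := by
          ext t; simpa using hne t
        rw [this]; simp
  rw [Finset.card_univ, Fintype.card_prod, Fintype.card_perm, hcard] at key
  rw [Set.ncard_eq_toFinset_card _ hLf]
  rw [← Nat.card_coe_set_eq, Nat.card_eq_fintype_card]
  exact key

/-- Fibrewise comparison. -/
theorem ncard_prod_le {U V : Type} [Finite U] [Finite V] (A B : Set (U × V)) (a b : ℕ)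
    (h : ∀ u, {v | (u, v) ∈ A}.ncard * a ≤ b * {v | (u, v) ∈ B}.ncard) :
    A.ncard * a ≤ b * B.ncard := by
  classical
  have := Fintype.ofFinite U
  have := Fintype.ofFinite V
  have key : ∀ A : Set (U × V), A.ncard = ∑ u : U, {v | (u, v) ∈ A}.ncard := by
    intro A
    rw [Set.ncard_eq_toFinset_card']
    rw [Finset.card_eq_sum_card_fiberwise (f := Prod.fst) (t := univ) (fun _ _ => mem_univ _)]
    apply Finset.sum_congr rfl
    intro u _
    rw [Set.ncard_eq_toFinset_card']
    apply Finset.card_bij (fun x _ => x.2)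
    · rintro ⟨u', v⟩ hx
      simp only [mem_filter, Set.mem_toFinset] at hx
      obtain ⟨h1, rfl⟩ := hx
      simpa using h1
    · rintro ⟨u1, v1⟩ h1 ⟨u2, v2⟩ h2 h12
      simp only [mem_filter, Set.mem_toFinset] at h1 h2
      simp only at h12
      rw [Prod.mk.injEq]
      exact ⟨h1.2.trans h2.2.symm, h12⟩
    · intro v hv
      simp only [Set.mem_toFinset, Set.mem_ofPred_eq] at hv
      exact ⟨(u, v), by simpa using hv, rfl⟩
  rw [key A, key B, Finset.sum_mul, Finset.mul_sum]
  exact Finset.sum_le_sum (fun u _ => h u)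

/-- The key per-multiplication estimates. -/
theorem per_mul [Fintype H] [DecidableEq H] {z : H} {m : H → H → H} (h : MulAx z m) (r : ℕ)
    (hr : Fintype.card H = r + 1) (k : ℕ) (hk : 3 * k ≤ r + 2) (j : ℕ) (hj : 12 * j ≤ r)
    (hj2 : 2 * r ^ 4 * 3 ^ j ≤ 4 ^ j) :
    (LP z m).ncard * 2 ^ k ≤ (2 * r) * (LH z m).ncard ∧
    ∃ N : ℕ, r ^ 2 ≤ 9 * N ∧ 2 ^ N ≤ 2 * (LH z m).ncard := by
  classical
  letI inst : CommGroupWithZero H := cgwz h
  have hcard : Fintype.card {x : H // x ≠ z} = r := by
    have := Fintype.card_subtype_compl (fun x : H => x = z)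
    simp only [Fintype.card_subtype_eq] at this
    rw [hr] at this
    simpa using this
  have hcu : Nat.card Hˣ = r := by
    rw [Nat.card_congr (unitsEquivNeZero (G₀ := H)), Nat.card_eq_fintype_card]
    exact hcard
  have hfin : Finite Hˣ := Nat.finite_of_card_ne_zero (by
    rw [hcu]
    have : 0 < Fintype.card {x : H // x ≠ z} := by
      obtain ⟨u, hu, -⟩ := h.one
      exact Fintype.card_pos_iff.mpr ⟨⟨u, hu⟩⟩
    omega)
  have hft : Fintype Hˣ := Fintype.ofFinite _
  have hcf : Fintype.card Hˣ = r := by rw [← Nat.card_eq_fintype_card]; exact hcu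
  have h1 := upper (H := H) k (by rw [hcf]; exact hk)
  have h2 := lower (H := H)
  have h3 := good_count (A := Hˣ) j (by rw [hcf]; exact hj) (by rw [hcf]; exact hj2)
  have e1 : LP (0 : H) (fun x y => x * y) = LP z m := rfl
  have e2 : LH (0 : H) (fun x y => x * y) = LH z m := rfl
  rw [e1, hcf] at h1
  rw [e2] at h2
  constructor
  · calc (LP z m).ncard * 2 ^ k ≤ r * 2 ^ (Fintype.card (Orb Hˣ)) := h1
      _ ≤ r * (2 * (univ.filter (fun T : Orb Hˣ → Bool => Good T)).card) :=
          Nat.mul_le_mul_left _ h3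
      _ ≤ r * (2 * (LH z m).ncard) := Nat.mul_le_mul_left _ (Nat.mul_le_mul_left _ h2)
      _ = _ := by ring
  · refine ⟨Fintype.card (Orb Hˣ), ?_, le_trans h3 (Nat.mul_le_mul_left _ h2)⟩
    have := orb_ge (A := Hˣ)
    rw [hcf] at this
    exact this

theorem all_le [Fintype H] [DecidableEq H] {z : H} (r : ℕ)
    (hr : Fintype.card H = r + 1) (k : ℕ) (hk : 3 * k ≤ r + 2) (j : ℕ) (hj : 12 * j ≤ r)
    (hj2 : 2 * r ^ 4 * 3 ^ j ≤ 4 ^ j) :
    (LPall z).ncard * 2 ^ k ≤ (2 * r) * (LHall z).ncard := by
  classical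
  apply ncard_prod_le
  intro m
  by_cases hm : MulAx z m
  · have h1 : {v | (m, v) ∈ LPall z} = LP z m := by
      ext v; simp [LPall, hm]
    have h2 : {v | (m, v) ∈ LHall z} = LH z m := by
      ext v; simp [LHall, hm]
    rw [h1, h2]
    exact (per_mul hm r hr k hk j hj hj2).1
  · have h1 : {v | (m, v) ∈ LPall z} = ∅ := by
      ext v; simp [LPall, hm]
    rw [h1]; simp

end

end Pool.Agent.H8R3.Hyper
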