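import Mathlib
import Pool.Agent.H8R3.HyperCnt

set_option autoImplicit false

namespace Pool.Agent.H8R3.Hyper

open Finset

/-- Quotient data. -/
structure QD {H : Type} (z : H) (K : Type) [Field K] (G : Subgroup Kˣ) (f : K → H) (p : XX H) :
    Prop where
  surj : Function.Surjective f
  zero : f 0 = z
  eq : ∀ x y : K, f x = f y ↔ ∃ g ∈ G, y = x * (g : K)
  mul : ∀ x y : K, f (x * y) = p.1 (f x) (f y)
  add : ∀ x y : K, p.2 (f x) (f y) = {z | ∃ g ∈ G, ∃ h ∈ G, z = f (x * (g : K) + y * (h : K))}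

section
variable {H : Type} {z : H} {K : Type} [Field K] {G : Subgroup Kˣ} {f : K → H} {p : XX H}

theorem QD.fz (h : QD z K G f p) (x : K) : f x = z ↔ x = 0 := by
  rw [← h.zero, h.eq]
  constructor
  · rintro ⟨g, -, hg⟩
    rcases mul_eq_zero.mp hg.symm with h1 | h1
    · exact h1
    · exact absurd h1 g.ne_zero
  · intro hx
    exact ⟨1, G.one_mem, by rw [hx]; simp⟩

theorem QD.mulAx (h : QD z K G f p) : MulAx z p.1 := by
  refine ⟨⟨f 1, ?_, ?_⟩, ?_, ?_, ?_, ?_, ?_⟩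
  · rw [Ne, h.fz]; exact one_ne_zero
  · intro a
    obtain ⟨x, rfl⟩ := h.surj a
    rw [← h.mul, one_mul]
  · intro a b
    obtain ⟨x, rfl⟩ := h.surj a
    obtain ⟨y, rfl⟩ := h.surj b
    rw [← h.mul, ← h.mul, mul_comm]
  · intro a b c
    obtain ⟨x, rfl⟩ := h.surj a
    obtain ⟨y, rfl⟩ := h.surj b
    obtain ⟨w, rfl⟩ := h.surj c
    rw [← h.mul, ← h.mul, ← h.mul, ← h.mul, mul_assoc]
  · intro a
    obtain ⟨x, rfl⟩ := h.surj a
    rw [← h.zero, ← h.mul, zero_mul]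
  · intro a b ha hb
    obtain ⟨x, rfl⟩ := h.surj a
    obtain ⟨y, rfl⟩ := h.surj b
    rw [Ne, h.fz] at ha hb
    rw [← h.mul, Ne, h.fz]
    exact mul_ne_zero ha hb
  · intro a ha
    obtain ⟨x, rfl⟩ := h.surj a
    rw [Ne, h.fz] at ha
    refine ⟨f x⁻¹, ?_⟩
    intro c
    obtain ⟨y, rfl⟩ := h.surj c
    rw [← h.mul, ← h.mul, mul_inv_cancel₀ ha, one_mul]

theorem QD.mem (h : QD z K G f p) (x y : K) (c : H) :
    c ∈ p.2 (f x) (f y) ↔ ∃ g ∈ G, ∃ k ∈ G, c = f (x * (g : K) + y * (k : K)) := by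
  rw [h.add]; rfl

theorem QD.fmul (h : QD z K G f p) (x : K) {g : Kˣ} (hg : g ∈ G) : f (x * g) = f x :=
  ((h.eq _ _).mpr ⟨g, hg, rfl⟩).symm

theorem QD.addAx (h : QD z K G f p) : AddAx z p.1 p.2 := by
  refine ⟨?_, ?_, ?_, ?_, ?_⟩
  · intro a b
    obtain ⟨x, rfl⟩ := h.surj a
    obtain ⟨y, rfl⟩ := h.surj b
    ext c
    rw [h.mem, h.mem]
    constructor
    · rintro ⟨g, hg, k, hk, h1⟩
      exact ⟨k, hk, g, hg, by rw [h1, add_comm]⟩
    · rintro ⟨g, hg, k, hk, h1⟩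
      exact ⟨k, hk, g, hg, by rw [h1, add_comm]⟩
  · intro a
    obtain ⟨x, rfl⟩ := h.surj a
    ext c
    rw [← h.zero, h.mem]
    constructor
    · rintro ⟨g, hg, k, hk, h1⟩
      rw [h1, zero_mul, zero_add, h.fmul _ hk]
      exact Set.mem_singleton _
    · intro h1
      rw [Set.mem_singleton_iff] at h1
      exact ⟨1, G.one_mem, 1, G.one_mem, by rw [h1]; simp⟩
  · intro a
    obtain ⟨x, rfl⟩ := h.surj a
    refine ⟨f (-x), ?_, ?_⟩
    · change z ∈ p.2 (f x) (f (-x))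
      rw [h.mem]
      exact ⟨1, G.one_mem, 1, G.one_mem, by simp [h.zero]⟩
    · intro b hb
      obtain ⟨y, rfl⟩ := h.surj b
      change z ∈ p.2 (f x) (f y) at hb
      rw [h.mem] at hb
      obtain ⟨g, hg, k, hk, h1⟩ := hb
      have h2 := (h.fz _).mp h1.symm
      rw [h.eq]
      refine ⟨k * g⁻¹, G.mul_mem hk (G.inv_mem hg), ?_⟩
      push_cast
      have hg0 : (g : K) ≠ 0 := g.ne_zero
      field_simp
      linear_combination -h2
  · intro a b c d h1 h2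
    obtain ⟨x, rfl⟩ := h.surj b
    obtain ⟨y, rfl⟩ := h.surj c
    obtain ⟨w, rfl⟩ := h.surj d
    rw [h.mem] at h1 h2
    obtain ⟨g, hg, k, hk, h1⟩ := h1
    obtain ⟨g', hg', k', hk', h2⟩ := h2
    have h3 := (h.fz _).mp h2.symm
    rw [h1, h.mem]
    refine ⟨1, G.one_mem, k' * g'⁻¹ * g, G.mul_mem (G.mul_mem hk' (G.inv_mem hg')) hg, ?_⟩
    have h4 : (x * (g : K) + y * (k : K)) * ((1 : Kˣ) : K) + w * ((k' * g'⁻¹ * g : Kˣ) : K)
        = y * k := by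
      push_cast
      have hg0 : (g' : K) ≠ 0 := g'.ne_zero
      field_simp
      linear_combination (g : K) * h3
    rw [h4, h.fmul _ hk]
  · intro a b c
    obtain ⟨x, rfl⟩ := h.surj a
    obtain ⟨y, rfl⟩ := h.surj b
    obtain ⟨w, rfl⟩ := h.surj c
    rw [← h.mul, ← h.mul]
    ext u
    rw [h.mem]
    constructor
    · rintro ⟨v, hv, rfl⟩
      rw [h.mem] at hv
      obtain ⟨g, hg, k, hk, rfl⟩ := hv
      refine ⟨g, hg, k, hk, ?_⟩
      change p.1 (f x) _ = _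
      rw [← h.mul]
      congr 1; ring
    · rintro ⟨g, hg, k, hk, rfl⟩
      refine ⟨f (y * g + w * k), ?_, ?_⟩
      · rw [h.mem]; exact ⟨g, hg, k, hk, rfl⟩
      · change p.1 (f x) _ = _
        rw [← h.mul]
        congr 1; ring

/-- Every element is, up to `G`, a difference of elements of `G`. -/
def DD (K : Type) [Field K] (G : Subgroup Kˣ) : Prop :=
  ∀ t : K, t ≠ 0 → ∃ g ∈ G, ∃ h ∈ G, ∃ k ∈ G, t * (k : K) = g - h

theorem QD.LPall (h : QD z K G f p) (hD : DD K G) : p ∈ LPall z := by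
  refine ⟨h.mulAx, h.addAx, ?_⟩
  intro a n c ha hn
  obtain ⟨x, rfl⟩ := h.surj a
  obtain ⟨y, rfl⟩ := h.surj n
  obtain ⟨w, rfl⟩ := h.surj c
  rw [Ne, h.fz] at ha
  rw [h.mem] at hn ⊢
  obtain ⟨g, hg, k, hk, h1⟩ := hn
  have h2 := (h.fz _).mp h1.symm
  by_cases hw : w = 0
  · refine ⟨g, hg, k, hk, ?_⟩
    rw [hw, h2]
  obtain ⟨g', hg', k', hk', l, hl, h3⟩ := hD (w * x⁻¹) (mul_ne_zero hw (inv_ne_zero ha))
  refine ⟨g', hg', k * g⁻¹ * k', G.mul_mem (G.mul_mem hk (G.inv_mem hg)) hk', ?_⟩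
  rw [← h.fmul w hl]
  congr 1
  push_cast
  have hg0 : (g : K) ≠ 0 := g.ne_zero
  field_simp at h3 ⊢
  linear_combination (g : K) * h3 - (k' : K) * h2

end

end Pool.Agent.H8R3.Hyper
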