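import Mathlib
import Pool.Agent.H8R3.HyperFld

set_option autoImplicit false

namespace Pool.Agent.H8R3.Hyper

open Finset

/-- In an infinite field there are weights with all nonempty subset sums nonzero. -/
theorem exists_weights (K : Type) [Field K] [Infinite K] (ι : Type) [Fintype ι] :
    ∃ w : ι → K, ∀ s : Finset ι, s.Nonempty → ∑ i ∈ s, w i ≠ 0 := by
  classical
  suffices h : ∀ t : Finset ι, ∃ w : ι → K, ∀ s : Finset ι, s ⊆ t → s.Nonempty → ∑ i ∈ s, w i ≠ 0 by
    obtain ⟨w, hw⟩ := h univ
    exact ⟨w, fun s hs => hw s (Finset.subset_univ _) hs⟩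
  intro t
  induction t using Finset.induction_on with
  | empty =>
    refine ⟨fun _ => 0, ?_⟩
    intro s hs hne
    rw [Finset.subset_empty] at hs
    exact absurd hs hne.ne_empty
  | insert a t ha ih =>
    obtain ⟨w, hw⟩ := ih
    obtain ⟨x, hx⟩ := Infinite.exists_notMem_finset (t.powerset.image (fun s => - ∑ i ∈ s, w i))
    refine ⟨Function.update w a x, ?_⟩
    intro s hs hne
    by_cases has : a ∈ s
    · rw [← Finset.add_sum_erase s _ has, Function.update_self]
      have h1 : ∑ i ∈ s.erase a, Function.update w a x i = ∑ i ∈ s.erase a, w i := by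
        apply Finset.sum_congr rfl
        intro i hi
        rw [Function.update_of_ne (Finset.ne_of_mem_erase hi)]
      rw [h1]
      intro h2
      apply hx
      rw [mem_image]
      refine ⟨s.erase a, ?_, ?_⟩
      · rw [mem_powerset]
        intro i hi
        have := hs (Finset.mem_of_mem_erase hi)
        rw [mem_insert] at this
        rcases this with h3 | h3
        · exact absurd h3 (Finset.ne_of_mem_erase hi)
        · exact h3
      · linear_combination -h2
    · have h1 : ∑ i ∈ s, Function.update w a x i = ∑ i ∈ s, w i := by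
        apply Finset.sum_congr rfl
        intro i hi
        rw [Function.update_of_ne (by rintro rfl; exact has hi)]
      rw [h1]
      apply hw _ _ hne
      intro i hi
      have := hs hi
      rw [mem_insert] at this
      rcases this with h3 | h3
      · subst h3; exact absurd hi has
      · exact h3

theorem DD_of_infinite {H : Type} [Finite H] {z : H} {K : Type} [Field K] [Infinite K]
    {G : Subgroup Kˣ} {f : K → H} {p : XX H} (h : QD z K G f p) : DD K G := by
  classical
  intro t ht
  -- section of f
  obtain ⟨s, hs⟩ := h.surj.hasRightInverse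
  let S : Option H → K := fun o => o.elim 0 s
  obtain ⟨ι, _, hHJ⟩ := Combinatorics.Line.exists_mono_in_high_dimension (Option H) H
  obtain ⟨w, hw⟩ := exists_weights K ι
  obtain ⟨l, c, hc⟩ := hHJ (fun v => f (∑ i, w i * S (v i)))
  set M := univ.filter (fun i => l.idxFun i = none) with hM
  have hMne : M.Nonempty := by
    obtain ⟨i, hi⟩ := l.proper
    exact ⟨i, by simp [hM, hi]⟩
  set a := ∑ i ∈ M, w i with ha
  have ha0 : a ≠ 0 := hw M hMne
  set b := ∑ i ∈ univ.filter (fun i => ¬ l.idxFun i = none), w i * S ((l.idxFun i).getD none) with hb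
  have hval : ∀ o : Option H, ∑ i, w i * S (l o i) = a * S o + b := by
    intro o
    rw [← Finset.sum_filter_add_sum_filter_not univ (fun i => l.idxFun i = none)]
    congr 1
    · rw [ha, Finset.sum_mul]
      apply Finset.sum_congr rfl
      intro i hi
      simp only [mem_filter, mem_univ, true_and] at hi
      rw [Combinatorics.Line.apply_none _ _ _ hi]
    · rw [hb]
      apply Finset.sum_congr rfl
      intro i hi
      simp only [mem_filter, mem_univ, true_and] at hi
      rw [Combinatorics.Line.apply_def]
      obtain ⟨y, hy⟩ := Option.ne_none_iff_exists'.mp hi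
      simp [hy]
  have hcol : ∀ o : Option H, f (a * S o + b) = c := by
    intro o
    rw [← hval]; exact hc o
  have h0 : f b = c := by
    have := hcol none
    simpa [S] using this
  have hb0 : b ≠ 0 := by
    intro hb0
    rw [hb0, h.zero] at h0
    have h1 := hcol (some (f 1))
    rw [hb0, add_zero, ← h0, h.fz] at h1
    rcases mul_eq_zero.mp h1 with h2 | h2
    · exact ha0 h2
    · have h3 : f (s (f 1)) = f 1 := hs (f 1)
      have h4 : s (f 1) = 0 := h2
      rw [h4] at h3
      have := (h.fz 1).mp (by rw [← h3, h.zero])
      exact one_ne_zero this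
  -- choose the class of t * b / a
  have h1 := hcol (some (f (t * b * a⁻¹)))
  have h2 : f (s (f (t * b * a⁻¹))) = f (t * b * a⁻¹) := hs _
  obtain ⟨k, hk, hk'⟩ := (h.eq _ _).mp h2.symm
  change f (a * s (f (t * b * a⁻¹)) + b) = c at h1
  rw [hk', ← h0] at h1
  obtain ⟨g, hg, hg'⟩ := (h.eq _ _).mp h1.symm
  refine ⟨g, hg, 1, G.one_mem, k, hk, ?_⟩
  field_simp at hg'
  push_cast
  linear_combination hg'

end Pool.Agent.H8R3.Hyper
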