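import Mathlib
import Pool.Agent.H8R3.HyperInf

set_option autoImplicit false

namespace Pool.Agent.H8R3.Hyper

open Finset ComplexConjugate

section
variable {K : Type} [Field K] [Fintype K]

/-- The character sum over a set. -/
noncomputable def eta (ψ : AddChar K ℂ) (S : Finset K) (a : K) : ℂ := ∑ g ∈ S, ψ (a * g)

theorem exists_prim : ∃ ψ : AddChar K ℂ, ψ.IsPrimitive := by
  obtain ⟨ψ, hψ⟩ := (AddChar.exists_apply_ne_zero (α := K) (a := 1)).mpr one_ne_zero
  refine ⟨ψ, AddChar.IsPrimitive.of_ne_one ?_⟩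
  intro h
  rw [h] at hψ
  simp at hψ

theorem conj_eta (ψ : AddChar K ℂ) (S : Finset K) (a : K) :
    conj (eta ψ S a) = ∑ h ∈ S, ψ (-(a * h)) := by
  unfold eta
  rw [map_sum]
  apply Finset.sum_congr rfl
  intro h _
  rw [AddChar.map_neg_eq_conj]

theorem sum_sq {ψ : AddChar K ℂ} (hψ : ψ.IsPrimitive) (S : Finset K) :
    ∑ a, ‖eta ψ S a‖ ^ 2 = (Fintype.card K : ℝ) * S.card := by
  classical
  have h1 : ∀ a, ((‖eta ψ S a‖ ^ 2 : ℝ) : ℂ) = ∑ g ∈ S, ∑ h ∈ S, ψ (a * (g - h)) := by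
    intro a
    rw [← Complex.normSq_eq_norm_sq, ← Complex.mul_conj, conj_eta, eta, Finset.sum_mul_sum]
    apply Finset.sum_congr rfl
    intro g _
    apply Finset.sum_congr rfl
    intro h _
    rw [← AddChar.map_add_eq_mul]
    congr 1; ring
  have h2 : ((∑ a, ‖eta ψ S a‖ ^ 2 : ℝ) : ℂ) = ((Fintype.card K : ℝ) * S.card : ℝ) := by
    push_cast
    calc ∑ a, ((‖eta ψ S a‖ : ℂ) ^ 2) = ∑ a, ∑ g ∈ S, ∑ h ∈ S, ψ (a * (g - h)) := by
          apply Finset.sum_congr rfl
          intro a _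
          rw [← h1]; push_cast; rfl
      _ = ∑ g ∈ S, ∑ h ∈ S, ∑ a, ψ (a * (g - h)) := by
          rw [Finset.sum_comm]
          apply Finset.sum_congr rfl
          intro g _
          rw [Finset.sum_comm]
      _ = ∑ g ∈ S, ∑ h ∈ S, (if g = h then (Fintype.card K : ℂ) else 0) := by
          apply Finset.sum_congr rfl
          intro g _
          apply Finset.sum_congr rfl
          intro h _
          rw [AddChar.sum_mulShift _ hψ]
          simp only [sub_eq_zero]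
          split_ifs <;> simp
      _ = ∑ g ∈ S, (Fintype.card K : ℂ) := by
          apply Finset.sum_congr rfl
          intro g hg
          rw [Finset.sum_ite_eq]
          simp [hg]
      _ = _ := by rw [Finset.sum_const]; simp [mul_comm]
  exact_mod_cast h2

omit [Fintype K] in
theorem eta_inv {ψ : AddChar K ℂ} {S : Finset K} (h0 : ∀ x ∈ S, x ≠ 0)
    (hmul : ∀ x ∈ S, ∀ y ∈ S, x * y ∈ S) (a h : K) (hh : h ∈ S) :
    eta ψ S (a * h) = eta ψ S a := by
  classical
  have himg : S.image (fun g => h * g) = S := by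
    apply Finset.eq_of_subset_of_card_le
    · intro x hx
      obtain ⟨y, hy, rfl⟩ := mem_image.mp hx
      exact hmul _ hh _ hy
    · rw [Finset.card_image_of_injective _ (mul_right_injective₀ (h0 h hh))]
  unfold eta
  conv_rhs => rw [← himg]
  rw [Finset.sum_image (by
    intro x _ y _ hxy
    exact mul_right_injective₀ (h0 h hh) hxy)]
  apply Finset.sum_congr rfl
  intro g _
  rw [mul_assoc]

theorem eta_bound {ψ : AddChar K ℂ} (hψ : ψ.IsPrimitive) {S : Finset K} (h0 : ∀ x ∈ S, x ≠ 0)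
    (hmul : ∀ x ∈ S, ∀ y ∈ S, x * y ∈ S) (hne : S.Nonempty) (a : K) (ha : a ≠ 0) :
    ‖eta ψ S a‖ ^ 2 ≤ Fintype.card K := by
  classical
  have h1 : (S.card : ℝ) * ‖eta ψ S a‖ ^ 2 ≤ (Fintype.card K : ℝ) * S.card := by
    rw [← sum_sq hψ S]
    calc (S.card : ℝ) * ‖eta ψ S a‖ ^ 2 = ∑ h ∈ S, ‖eta ψ S (a * h)‖ ^ 2 := by
          rw [Finset.sum_congr rfl (fun h hh => by rw [eta_inv h0 hmul a h hh]), Finset.sum_const,
            nsmul_eq_mul]
      _ = ∑ b ∈ S.image (fun h => a * h), ‖eta ψ S b‖ ^ 2 := by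
          rw [Finset.sum_image (by
            intro x _ y _ hxy
            exact mul_right_injective₀ ha hxy)]
      _ ≤ ∑ b, ‖eta ψ S b‖ ^ 2 := by
          apply Finset.sum_le_sum_of_subset_of_nonneg (Finset.subset_univ _)
          intro i _ _
          positivity
  have h2 : (0 : ℝ) < S.card := by exact_mod_cast Finset.card_pos.mpr hne
  rw [mul_comm] at h1
  exact le_of_mul_le_mul_right h1 h2

theorem count_bound {S : Finset K} (h0 : ∀ x ∈ S, x ≠ 0)
    (hmul : ∀ x ∈ S, ∀ y ∈ S, x * y ∈ S) (hne : S.Nonempty) (t : K) (ht : t ≠ 0)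
    (hno : ∀ g ∈ S, ∀ h ∈ S, ∀ k ∈ S, t * k ≠ g - h) :
    S.card ^ 4 ≤ (Fintype.card K) ^ 3 := by
  classical
  obtain ⟨ψ, hψ⟩ := exists_prim (K := K)
  have hzero : ∑ a, (((‖eta ψ S a‖ ^ 2 : ℝ) : ℂ) * eta ψ S (-(t * a))) = 0 := by
    have h1 : ∀ a, ((‖eta ψ S a‖ ^ 2 : ℝ) : ℂ) * eta ψ S (-(t * a)) =
        ∑ g ∈ S, ∑ h ∈ S, ∑ k ∈ S, ψ (a * (g - h - t * k)) := by
      intro a
      rw [← Complex.normSq_eq_norm_sq, ← Complex.mul_conj, conj_eta, eta, eta, Finset.sum_mul_sum,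
        Finset.sum_mul]
      apply Finset.sum_congr rfl
      intro g _
      rw [Finset.sum_mul]
      apply Finset.sum_congr rfl
      intro h _
      rw [Finset.mul_sum]
      apply Finset.sum_congr rfl
      intro k _
      rw [← AddChar.map_add_eq_mul, ← AddChar.map_add_eq_mul]
      congr 1; ring
    calc ∑ a, (((‖eta ψ S a‖ ^ 2 : ℝ) : ℂ) * eta ψ S (-(t * a)))
        = ∑ a, ∑ g ∈ S, ∑ h ∈ S, ∑ k ∈ S, ψ (a * (g - h - t * k)) :=
          Finset.sum_congr rfl (fun a _ => h1 a)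
      _ = ∑ g ∈ S, ∑ h ∈ S, ∑ k ∈ S, ∑ a, ψ (a * (g - h - t * k)) := by
          rw [Finset.sum_comm]
          apply Finset.sum_congr rfl
          intro g _
          rw [Finset.sum_comm]
          apply Finset.sum_congr rfl
          intro h _
          rw [Finset.sum_comm]
      _ = 0 := by
          apply Finset.sum_eq_zero
          intro g hg
          apply Finset.sum_eq_zero
          intro h hh
          apply Finset.sum_eq_zero
          intro k hk
          rw [AddChar.sum_mulShift _ hψ, if_neg]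
          · simp
          · intro h2
            exact hno g hg h hh k hk (sub_eq_zero.mp h2).symm
  have heta0 : eta ψ S 0 = S.card := by
    unfold eta; simp
  rw [← Finset.add_sum_erase univ _ (mem_univ (0 : K))] at hzero
  rw [mul_zero, neg_zero, heta0] at hzero
  have hn : ((S.card : ℝ)) ^ 3 = ‖∑ a ∈ univ.erase (0 : K),
      (((‖eta ψ S a‖ ^ 2 : ℝ) : ℂ) * eta ψ S (-(t * a)))‖ := by
    have h2 : ∑ a ∈ univ.erase (0 : K),
      (((‖eta ψ S a‖ ^ 2 : ℝ) : ℂ) * eta ψ S (-(t * a))) = - ((S.card : ℂ)) ^ 3 := by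
      have h3 : (((‖((S.card : ℕ) : ℂ)‖ ^ 2 : ℝ) : ℂ) * ((S.card : ℕ) : ℂ)) = (S.card : ℂ) ^ 3 := by
        rw [Complex.norm_natCast]; push_cast; ring
      rw [h3] at hzero
      linear_combination hzero
    rw [h2, norm_neg, norm_pow, Complex.norm_natCast]
  set Q : ℝ := (Fintype.card K : ℝ) with hQ
  have hQ0 : 0 ≤ Q := by positivity
  have hle : ((S.card : ℝ)) ^ 3 ≤ Real.sqrt Q * (Q * S.card) := by
    rw [hn]
    calc ‖∑ a ∈ univ.erase (0 : K), (((‖eta ψ S a‖ ^ 2 : ℝ) : ℂ) * eta ψ S (-(t * a)))‖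
        ≤ ∑ a ∈ univ.erase (0 : K), ‖(((‖eta ψ S a‖ ^ 2 : ℝ) : ℂ) * eta ψ S (-(t * a)))‖ :=
          norm_sum_le _ _
      _ ≤ ∑ a ∈ univ.erase (0 : K), Real.sqrt Q * ‖eta ψ S a‖ ^ 2 := by
          apply Finset.sum_le_sum
          intro a ha
          have ha0 : a ≠ 0 := Finset.ne_of_mem_erase ha
          rw [norm_mul, Complex.norm_real, Real.norm_of_nonneg (by positivity), mul_comm]
          apply mul_le_mul_of_nonneg_right _ (by positivity)
          apply Real.le_sqrt_of_sq_le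
          exact eta_bound hψ h0 hmul hne _ (neg_ne_zero.mpr (mul_ne_zero ht ha0))
      _ ≤ ∑ a, Real.sqrt Q * ‖eta ψ S a‖ ^ 2 := by
          apply Finset.sum_le_sum_of_subset_of_nonneg (Finset.subset_univ _)
          intro i _ _
          positivity
      _ = _ := by rw [← Finset.mul_sum, sum_sq hψ S]
  have hS : (0 : ℝ) < S.card := by exact_mod_cast Finset.card_pos.mpr hne
  have hle2 : ((S.card : ℝ)) ^ 2 ≤ Real.sqrt Q * Q := by
    have : ((S.card : ℝ)) ^ 2 * S.card ≤ (Real.sqrt Q * Q) * S.card := by nlinarith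
    exact le_of_mul_le_mul_right this hS
  have hfin : ((S.card : ℝ)) ^ 4 ≤ Q ^ 3 := by
    calc ((S.card : ℝ)) ^ 4 = (((S.card : ℝ)) ^ 2) ^ 2 := by ring
      _ ≤ (Real.sqrt Q * Q) ^ 2 := by
          apply pow_le_pow_left₀ (by positivity) hle2
      _ = Q ^ 3 := by
          rw [mul_pow, Real.sq_sqrt hQ0]; ring
  rw [hQ] at hfin
  exact_mod_cast hfin

end

end Pool.Agent.H8R3.Hyper
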