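import Mathlib
import Pool.Agent.H8R3.HyperFin

set_option autoImplicit false

namespace Pool.Agent.H8R3.Hyper

open Finset

section
variable {H : Type} {z : H} {K : Type} [Field K] {G : Subgroup Kˣ} {f : K → H} {p : XX H}

theorem QD.index (h : QD z K G f p) : Nat.card (Kˣ ⧸ G) = Nat.card {x : H // x ≠ z} := by
  let φ : Kˣ → {x : H // x ≠ z} := fun u => ⟨f u, by rw [Ne, h.fz]; exact u.ne_zero⟩
  have hφ : ∀ u v : Kˣ, (QuotientGroup.leftRel G) u v → φ u = φ v := by
    intro u v huv
    rw [QuotientGroup.leftRel_apply] at huv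
    apply Subtype.ext
    change f u = f v
    rw [h.eq]
    refine ⟨_, huv, ?_⟩
    push_cast
    rw [mul_inv_cancel_left₀ u.ne_zero]
  apply Nat.card_eq_of_bijective (Quotient.lift φ hφ)
  constructor
  · intro a b
    induction a using Quotient.inductionOn with
    | h u =>
    induction b using Quotient.inductionOn with
    | h v =>
    intro huv
    have h1 : f u = f v := congrArg Subtype.val huv
    obtain ⟨g, hg, hv⟩ := (h.eq _ _).mp h1
    apply Quotient.sound
    change (QuotientGroup.leftRel G) u v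
    rw [QuotientGroup.leftRel_apply]
    have : v = u * g := Units.ext (by push_cast; exact hv)
    rw [this, inv_mul_cancel_left]
    exact hg
  · rintro ⟨x, hx⟩
    obtain ⟨y, rfl⟩ := h.surj x
    rw [Ne, h.fz] at hx
    exact ⟨Quotient.mk _ (Units.mk0 y hx), Subtype.ext rfl⟩

theorem card_ne [Fintype H] {r : ℕ} (hr : Fintype.card H = r + 1) :
    Nat.card {x : H // x ≠ z} = r := by
  classical
  have := Fintype.card_subtype_compl (fun x : H => x = z)
  simp only [Fintype.card_subtype_eq] at this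
  rw [hr] at this
  rw [Nat.card_eq_fintype_card]
  simpa using this

theorem QD.card_eq (h : QD z K G f p) [Fintype H] [Finite K] {r : ℕ}
    (hr : Fintype.card H = r + 1) : Nat.card K = r * Nat.card G + 1 := by
  have h1 := Subgroup.card_eq_card_quotient_mul_card_subgroup G
  rw [h.index, card_ne hr] at h1
  have h2 : Nat.card Kˣ = Nat.card K - 1 := by
    have := Fintype.ofFinite K
    classical
    rw [Nat.card_eq_fintype_card, Nat.card_eq_fintype_card, Fintype.card_units]
  have h3 : 0 < Nat.card K := Nat.card_pos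
  omega

theorem QD.small (h : QD z K G f p) [Fintype H] [Finite K] {r : ℕ}
    (hr : Fintype.card H = r + 1) (hD : ¬ DD K G) : Nat.card K ≤ (r + 1) ^ 4 := by
  classical
  have := Fintype.ofFinite K
  have : Finite G := inferInstance
  have := Fintype.ofFinite G
  unfold DD at hD
  push Not at hD
  obtain ⟨t, ht, hno⟩ := hD
  let S : Finset K := univ.image (fun g : G => ((g : Kˣ) : K))
  have hmemS : ∀ x, x ∈ S ↔ ∃ g ∈ G, (g : K) = x := by
    intro x
    simp only [S, mem_image, mem_univ, true_and, Subtype.exists, exists_prop]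
  have hScard : S.card = Nat.card G := by
    rw [Finset.card_image_of_injective]
    · rw [Finset.card_univ, Nat.card_eq_fintype_card]
    · intro a b hab
      exact Subtype.ext (Units.ext hab)
  have hb := count_bound (S := S) (by
      intro x hx
      obtain ⟨g, -, rfl⟩ := (hmemS x).mp hx
      exact g.ne_zero) (by
      intro x hx y hy
      obtain ⟨g, hg, rfl⟩ := (hmemS x).mp hx
      obtain ⟨g', hg', rfl⟩ := (hmemS y).mp hy
      rw [hmemS]
      exact ⟨g * g', G.mul_mem hg hg', by push_cast; rfl⟩) ⟨1, by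
      rw [hmemS]; exact ⟨1, G.one_mem, rfl⟩⟩ t ht (by
      intro x hx y hy w hw
      obtain ⟨g, hg, rfl⟩ := (hmemS x).mp hx
      obtain ⟨g', hg', rfl⟩ := (hmemS y).mp hy
      obtain ⟨k, hk, rfl⟩ := (hmemS w).mp hw
      exact hno g hg g' hg' k hk)
  rw [hScard, ← Nat.card_eq_fintype_card] at hb
  have hq := h.card_eq hr
  set n := Nat.card G with hn
  have hn0 : 0 < n := Nat.card_pos
  have hqn : Nat.card K ≤ (r + 1) * n := by
    rw [hq]
    nlinarith
  have h1 : n ^ 4 ≤ (r + 1) ^ 3 * n ^ 3 := by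
    calc n ^ 4 ≤ (Nat.card K) ^ 3 := hb
      _ ≤ ((r + 1) * n) ^ 3 := Nat.pow_le_pow_left hqn 3
      _ = _ := by ring
  have h2 : n ≤ (r + 1) ^ 3 := by
    have : n * n ^ 3 ≤ (r + 1) ^ 3 * n ^ 3 := by
      calc n * n ^ 3 = n ^ 4 := by ring
        _ ≤ _ := h1
    exact Nat.le_of_mul_le_mul_right this (by positivity)
  calc Nat.card K ≤ (r + 1) * n := hqn
    _ ≤ (r + 1) * (r + 1) ^ 3 := Nat.mul_le_mul_left _ h2
    _ = _ := by ring

theorem mem_iff_pow [Finite K] (u : Kˣ) : u ∈ G ↔ u ^ (Nat.card G) = 1 := by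
  classical
  have := Fintype.ofFinite K
  have : Finite G := inferInstance
  have := Fintype.ofFinite G
  constructor
  · intro hu
    have h1 := pow_card_eq_one' (x := (⟨u, hu⟩ : G))
    have h2 := congrArg Subtype.val h1
    exact h2
  · intro hu
    have hn0 : 0 < Nat.card G := Nat.card_pos
    have hle : (univ.filter (fun a : Kˣ => a ^ (Nat.card G) = 1)).card ≤ Nat.card G :=
      IsCyclic.card_pow_eq_one_le hn0
    have hsub : univ.image (fun g : G => (g : Kˣ)) ⊆
        univ.filter (fun a : Kˣ => a ^ (Nat.card G) = 1) := by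
      intro x hx
      obtain ⟨g, -, rfl⟩ := mem_image.mp hx
      rw [mem_filter]
      refine ⟨mem_univ _, ?_⟩
      have h1 := pow_card_eq_one' (x := g)
      have h2 := congrArg Subtype.val h1
      exact h2
    have hcard : (univ.image (fun g : G => (g : Kˣ))).card = Nat.card G := by
      rw [Finset.card_image_of_injective _ Subtype.val_injective, Finset.card_univ,
        Nat.card_eq_fintype_card]
    have heq := Finset.eq_of_subset_of_card_le hsub (by rw [hcard]; exact hle)
    have hu' : u ∈ univ.image (fun g : G => (g : Kˣ)) := by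
      rw [heq, mem_filter]; exact ⟨mem_univ _, hu⟩
    obtain ⟨g, -, rfl⟩ := mem_image.mp hu'
    exact g.2

end

theorem QD.iso {H : Type} {z : H} [Fintype H] {r : ℕ} (hr : Fintype.card H = r + 1)
    (hr0 : 0 < r)
    {K : Type} [Field K] {G : Subgroup Kˣ} {f : K → H} {p : XX H} (h : QD z K G f p)
    {K' : Type} [Field K'] {G' : Subgroup K'ˣ} {f' : K' → H} {p' : XX H} (h' : QD z K' G' f' p')
    [Finite K] [Finite K'] (hc : Nat.card K = Nat.card K') : Iso p p' := by
  classical
  have := Fintype.ofFinite K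
  have := Fintype.ofFinite K'
  have hGG : Nat.card G = Nat.card G' := by
    have h1 := h.card_eq hr
    have h2 := h'.card_eq hr
    have : r * Nat.card G = r * Nat.card G' := by omega
    exact Nat.eq_of_mul_eq_mul_left hr0 this
  have φ : K ≃+* K' := FiniteField.ringEquivOfCardEq (by
    rw [← Nat.card_eq_fintype_card, ← Nat.card_eq_fintype_card]; exact hc)
  have hmap : ∀ u : Kˣ, Units.map (φ : K →* K') u ∈ G' ↔ u ∈ G := by
    intro u
    rw [mem_iff_pow, mem_iff_pow, ← hGG, ← map_pow]
    constructor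
    · intro h1
      have h2 : φ ((u ^ Nat.card G : Kˣ) : K) = 1 := congrArg Units.val h1
      have h3 : ((u ^ Nat.card G : Kˣ) : K) = 1 := by
        apply φ.injective
        rw [h2, map_one]
      exact Units.ext h3
    · intro h1
      rw [h1, map_one]
  have hff : ∀ x y : K, f x = f y ↔ f' (φ x) = f' (φ y) := by
    intro x y
    rw [h.eq, h'.eq]
    constructor
    · rintro ⟨g, hg, hy⟩
      refine ⟨Units.map (φ : K →* K') g, (hmap g).mpr hg, ?_⟩
      rw [hy, map_mul]; rfl
    · rintro ⟨g, hg, hy⟩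
      obtain ⟨g0, rfl⟩ : ∃ g0 : Kˣ, Units.map (φ : K →* K') g0 = g := by
        refine ⟨Units.map (φ.symm : K' →* K) g, ?_⟩
        ext
        simp
      refine ⟨g0, (hmap g0).mp hg, ?_⟩
      apply φ.injective
      rw [hy, map_mul]; rfl
  obtain ⟨s, hs⟩ := h.surj.hasRightInverse
  let e0 : H → H := fun a => f' (φ (s a))
  have he0 : ∀ x, e0 (f x) = f' (φ x) := by
    intro x
    change f' (φ (s (f x))) = f' (φ x)
    rw [← hff]
    exact hs _
  have hinj : Function.Injective e0 := by
    intro a b hab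
    obtain ⟨x, rfl⟩ := h.surj a
    obtain ⟨y, rfl⟩ := h.surj b
    rw [he0, he0, ← hff] at hab
    exact hab
  have hbij : Function.Bijective e0 := Finite.injective_iff_bijective.mp hinj
  refine ⟨Equiv.ofBijective e0 hbij, ?_⟩
  intro a b
  obtain ⟨x, rfl⟩ := h.surj a
  obtain ⟨y, rfl⟩ := h.surj b
  constructor
  · change e0 (p.1 (f x) (f y)) = p'.1 (e0 (f x)) (e0 (f y))
    rw [← h.mul, he0, he0, he0, ← h'.mul, map_mul]
  · change e0 '' (p.2 (f x) (f y)) = p'.2 (e0 (f x)) (e0 (f y))
    rw [he0, he0]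
    ext c
    rw [h'.mem]
    constructor
    · rintro ⟨d, hd, rfl⟩
      rw [h.mem] at hd
      obtain ⟨g, hg, k, hk, rfl⟩ := hd
      refine ⟨Units.map (φ : K →* K') g, (hmap g).mpr hg, Units.map (φ : K →* K') k,
        (hmap k).mpr hk, ?_⟩
      rw [he0, map_add, map_mul, map_mul]; rfl
    · rintro ⟨g, hg, k, hk, rfl⟩
      obtain ⟨g0, rfl⟩ : ∃ g0 : Kˣ, Units.map (φ : K →* K') g0 = g := by
        refine ⟨Units.map (φ.symm : K' →* K) g, ?_⟩
        ext
        simp
      obtain ⟨k0, rfl⟩ : ∃ g0 : Kˣ, Units.map (φ : K →* K') g0 = k := by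
        refine ⟨Units.map (φ.symm : K' →* K) k, ?_⟩
        ext
        simp
      refine ⟨f (x * g0 + y * k0), ?_, ?_⟩
      · rw [h.mem]
        exact ⟨g0, (hmap g0).mp hg, k0, (hmap k0).mp hk, rfl⟩
      · rw [he0, map_add, map_mul, map_mul]; rfl

end Pool.Agent.H8R3.Hyper
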