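import Mathlib
import Pool.Agent.H8R3.HyperUni

set_option autoImplicit false

namespace Pool.Agent.H8R3.Hyper

open Finset

def PhiQ (r : ℕ) (p : XX (Fin (r+1))) : Prop :=
  ∃ (K : Type) (_ : Field K), ∃ G : Subgroup Kˣ, ∃ f : K → Fin (r+1),
    Function.Surjective f ∧ f 0 = 0 ∧
    (∀ x y : K, f x = f y ↔ ∃ g ∈ G, y = x * (g : K)) ∧
    (∀ x y : K, f (x * y) = p.1 (f x) (f y)) ∧
    (∀ x y : K, p.2 (f x) (f y) = {z | ∃ g ∈ G, ∃ h ∈ G, z = f (x * (g : K) + y * (h : K))})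

def PhiH (r : ℕ) (p : XX (Fin (r+1))) : Prop :=
  ((∃ u : Fin (r+1), u ≠ 0 ∧ ∀ a, p.1 u a = a) ∧
    (∀ a b, p.1 a b = p.1 b a) ∧
    (∀ a b c, p.1 (p.1 a b) c = p.1 a (p.1 b c)) ∧
    (∀ a, p.1 0 a = 0) ∧
    (∀ a b, a ≠ 0 → b ≠ 0 → p.1 a b ≠ 0) ∧
    (∀ a, a ≠ 0 → ∃ b, ∀ c, p.1 (p.1 a b) c = c) ∧
    (∀ a b, (p.2 a b).Nonempty) ∧
    (∀ a b, p.2 a b = p.2 b a) ∧
    (∀ a b c, (⋃ x ∈ p.2 a b, p.2 x c) = ⋃ x ∈ p.2 b c, p.2 a x) ∧
    (∀ a, p.2 0 a = {a}) ∧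
    (∀ a, ∃! b, (0 : Fin (r+1)) ∈ p.2 a b) ∧
    (∀ a b c d, a ∈ p.2 b c → (0 : Fin (r+1)) ∈ p.2 b d → c ∈ p.2 a d) ∧
    (∀ a b c, (fun x => p.1 a x) '' p.2 b c = p.2 (p.1 a b) (p.1 a c)))

theorem LHall_sub (r : ℕ) : LHall (0 : Fin (r+1)) ⊆ {p | PhiH r p} := by
  rintro p ⟨hm, ha, hne, has⟩
  exact ⟨hm.one, hm.comm, hm.assoc, hm.zero, hm.ne, hm.inv, hne, ha.comm, has, ha.zero, ha.neg,
    ha.rev, ha.dist⟩

theorem pow_big : ∀ L : ℕ, 11 ≤ L → 36 * (4 * L + 5) ≤ 2 ^ L ∧ 3 * (L + 2) ^ 2 ≤ 2 ^ L := by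
  intro L hL
  induction L, hL using Nat.le_induction with
  | base => norm_num
  | succ n hn ih =>
    obtain ⟨h1, h2⟩ := ih
    constructor
    · have h3 : 2 ^ (n + 1) = 2 * 2 ^ n := by ring
      omega
    · have h3 : 2 ^ (n + 1) = 2 * 2 ^ n := by ring
      rw [h3]
      nlinarith

/-- The set of classes coming from small finite fields. -/
def S2 (r : ℕ) : Set (Set (XX (Fin (r+1)))) :=
  {C | ∃ p, PhiQ r p ∧ (∃ (K : Type) (_ : Field K) (G : Subgroup Kˣ) (f : K → Fin (r+1)),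
    QD (0 : Fin (r+1)) K G f p ∧ Finite K ∧ Nat.card K ≤ (r + 1) ^ 4) ∧
    C = {q | PhiQ r q ∧ Iso p q}}

def S1 (r : ℕ) : Set (Set (XX (Fin (r+1)))) :=
  {C | ∃ p, PhiQ r p ∧ p ∈ LPall (0 : Fin (r+1)) ∧ C = {q | PhiQ r q ∧ Iso p q}}

theorem cls_sub (r : ℕ) : cls (PhiQ r) ⊆ S1 r ∪ S2 r := by
  rintro C ⟨p, hp, rfl⟩
  have hp' := hp
  obtain ⟨K, _, G, f, h1, h2, h3, h4, h5⟩ := hp
  have hQD : QD (0 : Fin (r+1)) K G f p := ⟨h1, h2, h3, h4, h5⟩
  by_cases hD : DD K G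
  · left
    exact ⟨p, hp', hQD.LPall hD, rfl⟩
  · right
    by_cases hK : Finite K
    · exact ⟨p, hp', ⟨K, _, G, f, hQD, hK, hQD.small (by simp) hD⟩, rfl⟩
    · have : Infinite K := not_finite_iff_infinite.mp hK
      exact absurd (DD_of_infinite hQD) hD

theorem S2_le (r : ℕ) (hr : 0 < r) : (S2 r).ncard ≤ (r + 1) ^ 4 + 1 := by
  classical
  have hrep : ∀ C : Set (XX (Fin (r+1))), ∃ n : ℕ, C ∈ S2 r → n ≤ (r + 1) ^ 4 ∧
      ∃ p, (∃ (K : Type) (_ : Field K) (G : Subgroup Kˣ) (f : K → Fin (r+1)),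
    QD (0 : Fin (r+1)) K G f p ∧ Finite K ∧ Nat.card K = n) ∧
    C = {q | PhiQ r q ∧ Iso p q} := by
    intro C
    by_cases hC : C ∈ S2 r
    · obtain ⟨p, -, ⟨K, i, G, f, h1, h2, h3⟩, h4⟩ := hC
      exact ⟨Nat.card K, fun _ => ⟨h3, p, ⟨K, i, G, f, h1, h2, rfl⟩, h4⟩⟩
    · exact ⟨0, fun h => absurd h hC⟩
  choose g hg using hrep
  have h1 : (S2 r).ncard ≤ (Set.Iic ((r + 1) ^ 4)).ncard := by
    apply Set.ncard_le_ncard_of_injOn g
    · intro C hC
      exact (hg C hC).1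
    · intro C hC C' hC' hCC
      obtain ⟨-, p, ⟨K, i, G, f, a1, a2, a3⟩, a4⟩ := hg C hC
      obtain ⟨-, p', ⟨K', i', G', f', b1, b2, b3⟩, b4⟩ := hg C' hC'
      have hiso : Iso p p' := QD.iso (by simp) hr a1 b1 (by rw [a3, b3, hCC])
      rw [a4, b4]
      ext x
      constructor
      · rintro ⟨hx1, hx2⟩
        exact ⟨hx1, hiso.symm.trans hx2⟩
      · rintro ⟨hx1, hx2⟩
        exact ⟨hx1, hiso.trans hx2⟩
  refine le_trans h1 ?_
  rw [Set.ncard_eq_toFinset_card']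
  simp

theorem main_bound (r : ℕ) (hr : 2 ^ 11 ≤ r) :
    (cls (PhiQ r)).ncard * (r + 1) ≤ 2 * (cls (PhiH r)).ncard := by
  classical
  set L := Nat.log 2 r with hL
  have hr0 : r ≠ 0 := by
    have : 0 < 2 ^ 11 := by norm_num
    omega
  have hL1 : 2 ^ L ≤ r := Nat.pow_log_le_self 2 hr0
  have hL2 : r + 1 ≤ 2 ^ (L + 1) := Nat.lt_pow_succ_log_self (by norm_num) r
  have hL3 : 11 ≤ L := by
    rw [hL]
    exact Nat.le_log_of_pow_le (by norm_num) hr
  obtain ⟨hb1, hb2⟩ := pow_big L hL3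
  set Hn := (cls (PhiH r)).ncard with hHn
  have hcardF : Fintype.card (Fin (r+1)) = r + 1 := by simp
  -- number of labelled hyperfields
  have hLH : (LHall (0 : Fin (r+1))).ncard ≤ Hn * (r + 1).factorial := by
    refine le_trans (Set.ncard_le_ncard (LHall_sub r) (Set.toFinite _)) ?_
    have := ncard_le_cls (PhiH r)
    simpa using this
  set k := (r + 2) / 3 with hk
  have hk1 : 3 * k ≤ r + 2 := by omega
  set j := 3 * (r / 36) with hj
  have hj1 : 12 * j ≤ r := by omega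
  have hj2 : 2 * r ^ 4 * 3 ^ j ≤ 4 ^ j := by
    have h1 : 4 * L + 5 ≤ r / 36 := by omega
    have h2 : r ^ 4 ≤ 2 ^ (4 * L + 4) := by
      calc r ^ 4 ≤ (2 ^ (L + 1)) ^ 4 := Nat.pow_le_pow_left (by omega) 4
        _ = 2 ^ (4 * L + 4) := by rw [← pow_mul]; congr 1; ring
    calc 2 * r ^ 4 * 3 ^ j ≤ 2 * 2 ^ (4 * L + 4) * 3 ^ j := by gcongr
      _ = 2 ^ (4 * L + 5) * 27 ^ (r / 36) := by
          rw [hj, pow_mul]
          norm_num
          ring
      _ ≤ 2 ^ (r / 36) * 27 ^ (r / 36) := by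
          gcongr
          norm_num
      _ = 54 ^ (r / 36) := by rw [← mul_pow]; norm_num
      _ ≤ 64 ^ (r / 36) := Nat.pow_le_pow_left (by norm_num) _
      _ = 4 ^ j := by rw [hj, pow_mul]; norm_num
  have hall := all_le (z := (0 : Fin (r+1))) r hcardF k hk1 j hj1 hj2
  -- first family
  have hS1 : (S1 r).ncard * (r + 1) ≤ Hn := by
    have h1 := cls_le (z := (0 : Fin (r+1))) (PhiQ r) r hcardF
    rw [← hL] at h1
    have h2 : (S1 r).ncard * r.factorial * 2 ^ k ≤ (r ^ L * (2 * r) * (Hn * (r + 1))) * r.factorial := by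
      calc (S1 r).ncard * r.factorial * 2 ^ k ≤ (r ^ L * (LPall (0 : Fin (r+1))).ncard) * 2 ^ k :=
            Nat.mul_le_mul_right _ h1
        _ = r ^ L * ((LPall (0 : Fin (r+1))).ncard * 2 ^ k) := by ring
        _ ≤ r ^ L * ((2 * r) * (LHall (0 : Fin (r+1))).ncard) := Nat.mul_le_mul_left _ hall
        _ ≤ r ^ L * ((2 * r) * (Hn * (r + 1).factorial)) :=
            Nat.mul_le_mul_left _ (Nat.mul_le_mul_left _ hLH)
        _ = _ := by rw [Nat.factorial_succ]; ring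
    have h3 : (S1 r).ncard * 2 ^ k ≤ r ^ L * (2 * r) * (Hn * (r + 1)) := by
      have h4 : ((S1 r).ncard * 2 ^ k) * r.factorial ≤
          (r ^ L * (2 * r) * (Hn * (r + 1))) * r.factorial := by
        calc _ = (S1 r).ncard * r.factorial * 2 ^ k := by ring
          _ ≤ _ := h2
      exact Nat.le_of_mul_le_mul_right h4 (Nat.factorial_pos _)
    have h5 : r ^ L * (2 * r) * (r + 1) * (r + 1) ≤ 2 ^ k := by
      calc r ^ L * (2 * r) * (r + 1) * (r + 1)
          ≤ (2 ^ (L + 1)) ^ L * (2 * 2 ^ (L + 1)) * 2 ^ (L + 1) * 2 ^ (L + 1) := by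
            gcongr <;> omega
        _ = 2 ^ ((L + 1) * L + 3 * (L + 1) + 1) := by
            rw [← pow_mul]; ring
        _ ≤ 2 ^ k := by
            apply Nat.pow_le_pow_right (by norm_num)
            have h6 : 3 * ((L + 1) * L + 3 * (L + 1) + 1) = 3 * (L + 2) ^ 2 := by ring
            omega
    have h7 : ((S1 r).ncard * (r + 1)) * 2 ^ k ≤ Hn * 2 ^ k := by
      calc ((S1 r).ncard * (r + 1)) * 2 ^ k = ((S1 r).ncard * 2 ^ k) * (r + 1) := by ring
        _ ≤ (r ^ L * (2 * r) * (Hn * (r + 1))) * (r + 1) := Nat.mul_le_mul_right _ h3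
        _ = Hn * (r ^ L * (2 * r) * (r + 1) * (r + 1)) := by ring
        _ ≤ Hn * 2 ^ k := Nat.mul_le_mul_left _ h5
    exact Nat.le_of_mul_le_mul_right h7 (by positivity)
  -- second family
  have hS2 : (S2 r).ncard * (r + 1) ≤ Hn := by
    by_cases hne : (S2 r).Nonempty
    · obtain ⟨C, p, -, ⟨K, i, G, f, hQD, -, -⟩, -⟩ := hne
      obtain ⟨-, N, hN1, hN2⟩ := per_mul hQD.mulAx r hcardF k hk1 j hj1 hj2
      have h1 : (LH (0 : Fin (r+1)) p.1).ncard ≤ (LHall (0 : Fin (r+1))).ncard := by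
        apply Set.ncard_le_ncard_of_injOn (fun s => ((p.1, s) : XX (Fin (r+1))))
        · intro s hs
          exact ⟨hQD.mulAx, hs⟩
        · intro s _ s' _ h
          exact (Prod.mk.inj h).2
      have h2 : 2 ^ N ≤ 2 * (Hn * (r + 1).factorial) :=
        le_trans hN2 (Nat.mul_le_mul_left _ (le_trans h1 hLH))
      have h3 := S2_le r (by omega)
      have h4 : ((r + 1) ^ 4 + 1) * (r + 1) * 2 * (r + 1).factorial ≤ 2 ^ N := by
        have h5 : (r + 1).factorial ≤ 2 ^ ((L + 1) * (r + 1)) := by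
          calc (r + 1).factorial ≤ (r + 1) ^ (r + 1) := Nat.factorial_le_pow _
            _ ≤ (2 ^ (L + 1)) ^ (r + 1) := Nat.pow_le_pow_left hL2 _
            _ = _ := by rw [← pow_mul]
        have h6 : (r + 1) ^ 4 + 1 ≤ 2 * (2 ^ (L + 1)) ^ 4 := by
          have h7 : (r + 1) ^ 4 ≤ (2 ^ (L + 1)) ^ 4 := Nat.pow_le_pow_left hL2 4
          have h8 : 1 ≤ (2 ^ (L + 1)) ^ 4 := Nat.one_le_pow _ _ (by positivity)
          omega
        calc ((r + 1) ^ 4 + 1) * (r + 1) * 2 * (r + 1).factorial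
            ≤ (2 * (2 ^ (L + 1)) ^ 4) * 2 ^ (L + 1) * 2 * 2 ^ ((L + 1) * (r + 1)) := by
              gcongr
          _ = 2 ^ ((L + 1) * (r + 6) + 2) := by
              rw [← pow_mul]
              ring
          _ ≤ 2 ^ N := by
              apply Nat.pow_le_pow_right (by norm_num)
              have h9 : 3 * (L + 2) ^ 2 ≤ r := le_trans hb2 hL1
              have h10 : 9 * ((L + 1) * (r + 6) + 2) ≤ 18 * (L + 2) * r := by nlinarith
              have h11 : 18 * (L + 2) * r ≤ 3 * (L + 2) ^ 2 * r := by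
                apply Nat.mul_le_mul_right
                nlinarith
              have h12 : 3 * (L + 2) ^ 2 * r ≤ r * r := Nat.mul_le_mul_right _ h9
              have h13 : r * r = r ^ 2 := by ring
              omega
      have h7 : ((S2 r).ncard * (r + 1)) * 2 ^ N ≤ Hn * 2 ^ N := by
        calc ((S2 r).ncard * (r + 1)) * 2 ^ N
            ≤ (((r + 1) ^ 4 + 1) * (r + 1)) * (2 * (Hn * (r + 1).factorial)) :=
              Nat.mul_le_mul (Nat.mul_le_mul_right _ h3) h2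
          _ = Hn * (((r + 1) ^ 4 + 1) * (r + 1) * 2 * (r + 1).factorial) := by ring
          _ ≤ Hn * 2 ^ N := Nat.mul_le_mul_left _ h4
      exact Nat.le_of_mul_le_mul_right h7 (by positivity)
    · rw [Set.not_nonempty_iff_eq_empty] at hne
      rw [hne]; simp
  have hQ : (cls (PhiQ r)).ncard ≤ (S1 r).ncard + (S2 r).ncard :=
    le_trans (Set.ncard_le_ncard (cls_sub r) (Set.toFinite _)) (Set.ncard_union_le _ _)
  calc (cls (PhiQ r)).ncard * (r + 1) ≤ ((S1 r).ncard + (S2 r).ncard) * (r + 1) :=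
        Nat.mul_le_mul_right _ hQ
    _ = (S1 r).ncard * (r + 1) + (S2 r).ncard * (r + 1) := by ring
    _ ≤ Hn + Hn := Nat.add_le_add hS1 hS2
    _ = 2 * Hn := by ring

theorem tendsto_ratio :
    Filter.Tendsto (fun r : ℕ => (((cls (PhiQ r)).ncard : ℕ) : ℝ) / (((cls (PhiH r)).ncard : ℕ) : ℝ))
      Filter.atTop (nhds 0) := by
  have h1 : Filter.Tendsto (fun r : ℕ => 2 * ((1 : ℝ) / ((r : ℝ) + 1))) Filter.atTop (nhds 0) := by
    have := (tendsto_one_div_add_atTop_nhds_zero_nat (𝕜 := ℝ)).const_mul 2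
    simpa using this
  refine squeeze_zero' ?_ ?_ h1
  · filter_upwards with r
    positivity
  · filter_upwards [Filter.eventually_ge_atTop (2 ^ 11)] with r hr
    have h2 := main_bound r hr
    have h3 : (((cls (PhiQ r)).ncard : ℕ) : ℝ) * ((r : ℝ) + 1) ≤
        2 * (((cls (PhiH r)).ncard : ℕ) : ℝ) := by exact_mod_cast h2
    by_cases h0 : (cls (PhiH r)).ncard = 0
    · rw [h0]
      simp only [Nat.cast_zero, div_zero]
      positivity
    · have h4 : (0 : ℝ) < (((cls (PhiH r)).ncard : ℕ) : ℝ) := by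
        exact_mod_cast Nat.pos_of_ne_zero h0
      have h5 : (0 : ℝ) < (r : ℝ) + 1 := by positivity
      rw [mul_one_div, div_le_div_iff₀ h4 h5]
      exact h3

end Pool.Agent.H8R3.Hyper
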