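import Mathlib

set_option autoImplicit false

namespace Pool.Agent.H8R3.QNM2

section Abstract

variable {G : Type} [Group G]

/-- Balanced functions with respect to `z`. -/
def Bal (z : G) (p N : ℕ) (C : G → ZMod N) : Prop :=
  ∀ a : ℕ, ¬ p ∣ a → ∀ g, ∑ j ∈ Finset.range p, C (z ^ (a * j) * g) = 0

/-- `π` is a twisted translation by `u` with a balanced cocycle. -/
def Tw (z : G) (p N : ℕ) (u : G) (π : Equiv.Perm (G × ZMod N)) : Prop :=
  Commute z u ∧ ∃ C : G → ZMod N, Bal z p N C ∧ ∀ g t, π (g, t) = (u * g, t + C g)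

variable {z : G} {p N : ℕ}

lemma Tw.one : Tw z p N (1 : G) 1 :=
  ⟨Commute.one_right z, fun _ => 0, by intro a _ g; simp, by simp⟩

lemma comm_aux {v : G} (hv : Commute z v) (k : ℕ) (g : G) : v * (z ^ k * g) = z ^ k * (v * g) := by
  rw [← mul_assoc, ← mul_assoc, (hv.pow_left k).eq]

lemma Tw.mul {u v : G} {π ρ : Equiv.Perm (G × ZMod N)}
    (h1 : Tw z p N u π) (h2 : Tw z p N v ρ) : Tw z p N (u * v) (π * ρ) := by
  obtain ⟨hu, C, hC, hπ⟩ := h1
  obtain ⟨hv, D, hD, hρ⟩ := h2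
  refine ⟨hu.mul_right hv, fun g => D g + C (v * g), ?_, ?_⟩
  · intro a ha g
    rw [Finset.sum_add_distrib, hD a ha g, zero_add]
    rw [← hC a ha (v * g)]
    apply Finset.sum_congr rfl
    intro j _
    rw [comm_aux hv]
  · intro g t
    rw [Equiv.Perm.mul_apply, hρ, hπ, mul_assoc, add_assoc]

lemma Tw.inv {u : G} {π : Equiv.Perm (G × ZMod N)}
    (h1 : Tw z p N u π) : Tw z p N (u⁻¹) (π⁻¹) := by
  obtain ⟨hu, C, hC, hπ⟩ := h1
  refine ⟨hu.inv_right, fun g => - C (u⁻¹ * g), ?_, ?_⟩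
  · intro a ha g
    rw [Finset.sum_neg_distrib, neg_eq_zero, ← hC a ha (u⁻¹ * g)]
    apply Finset.sum_congr rfl
    intro j _
    rw [comm_aux hu.inv_right]
  · intro g t
    rw [Equiv.Perm.inv_eq_iff_eq, hπ]
    simp

lemma Tw.pow {u : G} {π : Equiv.Perm (G × ZMod N)}
    (h1 : Tw z p N u π) (n : ℕ) : Tw z p N (u ^ n) (π ^ n) := by
  induction n with
  | zero => simpa using Tw.one
  | succ n ih =>
    rw [pow_succ, pow_succ]
    exact ih.mul h1

lemma iter_aux {a : ℕ} {ρ : Equiv.Perm (G × ZMod N)} {S : G → ZMod N}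
    (h : ∀ g t, ρ (g, t) = (z ^ a * g, t + S g)) (j : ℕ) (g : G) (t : ZMod N) :
    (ρ ^ j) (g, t) = (z ^ (a * j) * g, t + ∑ i ∈ Finset.range j, S (z ^ (a * i) * g)) := by
  induction j with
  | zero => simp
  | succ j ih =>
    rw [pow_succ', Equiv.Perm.mul_apply, ih, h, Finset.sum_range_succ, add_assoc, ← mul_assoc,
      ← pow_add]
    congr 2
    rw [Nat.mul_succ, add_comm]

lemma Tw.pow_exp (hzp : z ^ p = 1) {u : G} {π : Equiv.Perm (G × ZMod N)}
    (h1 : Tw z p N u π) (d a : ℕ) (ha : ¬ p ∣ a) (hu : u ^ d = z ^ a) : π ^ (d * p) = 1 := by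
  have h4 := h1.pow d
  rw [hu] at h4
  obtain ⟨_, C, hC, hπ⟩ := h4
  rw [pow_mul]
  ext1 ⟨g, t⟩
  rw [iter_aux hπ, hC a ha g, mul_comm a p, pow_mul, hzp]
  simp

open Classical in
/-- The function at the identity. -/
noncomputable def dl (N : ℕ) (g : G) : ZMod N := if g = 1 then 1 else 0

/-- The cocycle on the second generator. -/
noncomputable def cc (z : G) (N : ℕ) (g : G) : ZMod N := dl N g - dl N (z⁻¹ * g)

lemma shift_aux (hzp : z ^ p = 1) (φ : G → ZMod N) (a : ℕ) (g : G) :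
    ∑ j ∈ Finset.range p, φ (z ^ (a * j) * (z ^ a * g)) =
      ∑ j ∈ Finset.range p, φ (z ^ (a * j) * g) := by
  have h1 : ∀ j, φ (z ^ (a * j) * (z ^ a * g)) = φ (z ^ (a * (j + 1)) * g) := by
    intro j
    rw [← mul_assoc, ← pow_add]
    rfl
  simp only [h1]
  have h2 := Finset.sum_range_succ (fun j => φ (z ^ (a * j) * g)) p
  have h3 := Finset.sum_range_succ' (fun j => φ (z ^ (a * j) * g)) p
  have h4 : z ^ (a * p) = 1 := by rw [mul_comm, pow_mul, hzp, one_pow]
  rw [h3] at h2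
  simp only [h4, mul_zero, pow_zero] at h2
  exact add_right_cancel h2

lemma shift_aux2 (hzp : z ^ p = 1) (φ : G → ZMod N) (a i : ℕ) (g : G) :
    ∑ j ∈ Finset.range p, φ (z ^ (a * j) * (z ^ (a * i) * g)) =
      ∑ j ∈ Finset.range p, φ (z ^ (a * j) * g) := by
  induction i with
  | zero => simp
  | succ i ih =>
    have : z ^ (a * (i + 1)) * g = z ^ a * (z ^ (a * i) * g) := by
      rw [← mul_assoc, ← pow_add]
      congr 2
      ring
    rw [this, shift_aux hzp, ih]

lemma shift_aux3 (hp : p.Prime) (hzp : z ^ p = 1) (φ : G → ZMod N) (a : ℕ) (ha : ¬ p ∣ a) (g : G) :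
    ∑ j ∈ Finset.range p, φ (z ^ (a * j) * (z * g)) =
      ∑ j ∈ Finset.range p, φ (z ^ (a * j) * g) := by
  have hc : Nat.Coprime a p := ((Nat.Prime.coprime_iff_not_dvd hp).2 ha).symm
  obtain ⟨i, _, hi⟩ := Nat.exists_mul_mod_eq_one_of_coprime hc hp.one_lt
  have h1 : z = z ^ (a * i) := by
    rw [pow_eq_pow_mod (a * i) hzp, hi, pow_one]
  conv_lhs =>
    enter [2, j]
    rw [show z * g = z ^ (a * i) * g by rw [← h1]]
  exact shift_aux2 hzp φ a i g

lemma cc_bal (hp : p.Prime) (hzp : z ^ p = 1) : Bal z p N (cc z N) := by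
  intro a ha g
  unfold cc
  rw [Finset.sum_sub_distrib]
  have h1 : ∀ j, dl N (z⁻¹ * (z ^ (a * j) * g)) = dl N (z ^ (a * j) * (z⁻¹ * g)) := by
    intro j
    rw [comm_aux ((Commute.refl z).inv_right)]
  simp only [h1]
  have h2 := shift_aux3 (N := N) hp hzp (dl N) a ha (z⁻¹ * g)
  rw [mul_inv_cancel_left] at h2
  rw [h2, sub_self]

end Abstract

section Rep

variable {G : Type} [Group G] {n : ℕ}

/-- The twisted generator. -/
noncomputable def gen (z : G) (N : ℕ) (x : Fin n → G) (i₁ : Fin n) (i : Fin n) :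
    Equiv.Perm (G × ZMod N) where
  toFun q := (x i * q.1, q.2 + (if i = i₁ then cc z N q.1 else 0))
  invFun q := ((x i)⁻¹ * q.1, q.2 - (if i = i₁ then cc z N ((x i)⁻¹ * q.1) else 0))
  left_inv := by
    rintro ⟨g, t⟩
    simp
  right_inv := by
    rintro ⟨g, t⟩
    simp

lemma gen_apply (z : G) (N : ℕ) (x : Fin n → G) (i₁ : Fin n) (i : Fin n) (g : G) (t : ZMod N) :
    gen z N x i₁ i (g, t) = (x i * g, t + (if i = i₁ then cc z N g else 0)) := rfl

/-- The twisted representation of the free group. -/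
noncomputable def rep (z : G) (N : ℕ) (x : Fin n → G) (i₁ : Fin n) :
    FreeGroup (Fin n) →* Equiv.Perm (G × ZMod N) :=
  FreeGroup.lift (gen z N x i₁)

variable {z : G} {p N : ℕ}

lemma rep_tw (hp : p.Prime) (hzp : z ^ p = 1) (x : Fin n → G) (hz : ∀ i, Commute z (x i))
    (i₁ : Fin n) (w : FreeGroup (Fin n)) :
    Tw z p N (FreeGroup.lift x w) (rep z N x i₁ w) := by
  have hgen : ∀ i, Tw z p N (FreeGroup.lift x (FreeGroup.of i)) (rep z N x i₁ (FreeGroup.of i)) := by
    intro i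
    refine ⟨by simpa using hz i, fun g => if i = i₁ then cc z N g else 0, ?_, ?_⟩
    · by_cases h : i = i₁
      · simpa [h] using cc_bal (N := N) hp hzp
      · intro a _ g
        simp [h]
    · intro g t
      simp [rep, gen_apply]
  induction w using FreeGroup.induction_on with
  | C1 => simpa using Tw.one
  | of i => exact hgen i
  | inv_of i h =>
    rw [map_inv, map_inv]
    exact h.inv
  | mul v w h1 h2 =>
    rw [map_mul, map_mul]
    exact h1.mul h2

/-- Homomorphisms sending each basis element of each basis to an element of order dividing `m`. -/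
def T (n m : ℕ) (P : Type) [Group P] : Type :=
  {h : FreeGroup (Fin n) →* P //
    ∀ (β : MulAut (FreeGroup (Fin n))) (j : Fin n), h (β (FreeGroup.of j)) ^ m = 1}

instance (n m : ℕ) (P : Type) [Group P] [Finite P] : Finite (T n m P) := by
  have : Finite (FreeGroup (Fin n) →* P) :=
    Finite.of_equiv _ (FreeGroup.lift (α := Fin n) (β := P))
  unfold T
  infer_instance

variable {m : ℕ}

/-- Precomposition. -/
def act {P : Type} [Group P] (α : MulAut (FreeGroup (Fin n))) (h : T n m P) : T n m P :=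
  ⟨h.1.comp ((α⁻¹ : MulAut (FreeGroup (Fin n))) : FreeGroup (Fin n) →* FreeGroup (Fin n)),
    fun β j => h.2 (α⁻¹ * β) j⟩

lemma act_apply {P : Type} [Group P] (α : MulAut (FreeGroup (Fin n))) (h : T n m P)
    (w : FreeGroup (Fin n)) : (act α h).1 w = h.1 (α⁻¹ w) := rfl

lemma act_mul {P : Type} [Group P] (α β : MulAut (FreeGroup (Fin n))) (h : T n m P) :
    act (α * β) h = act α (act β h) := by
  apply Subtype.ext
  apply MonoidHom.ext
  intro w
  rw [act_apply, act_apply, act_apply, mul_inv_rev, MulAut.mul_apply]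

lemma act_one {P : Type} [Group P] (h : T n m P) : act 1 h = h := by
  apply Subtype.ext
  apply MonoidHom.ext
  intro w
  rw [act_apply, inv_one, MulAut.one_apply]

/-- The permutation representation. -/
def Phi (n m : ℕ) (P : Type) [Group P] : MulAut (FreeGroup (Fin n)) →* Equiv.Perm (T n m P) where
  toFun α :=
    { toFun := act α
      invFun := act α⁻¹
      left_inv := fun h => by rw [← act_mul, inv_mul_cancel, act_one]
      right_inv := fun h => by rw [← act_mul, mul_inv_cancel, act_one] }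
  map_one' := by
    ext1 h
    exact act_one h
  map_mul' α β := by
    ext1 h
    exact act_mul α β h

lemma Phi_apply (P : Type) [Group P] (α : MulAut (FreeGroup (Fin n))) (h : T n m P) :
    Phi n m P α h = act α h := rfl

/-- `σ` is the Nielsen move `x_i ↦ x_j x_i`. -/
def IsNielsen {n : ℕ} (i j : Fin n) (σ : MulAut (FreeGroup (Fin n))) : Prop :=
  σ (FreeGroup.of i) = FreeGroup.of j * FreeGroup.of i ∧
    ∀ k : Fin n, k ≠ i → σ (FreeGroup.of k) = FreeGroup.of k

lemma IsNielsen.pow_other {i j : Fin n} {σ : MulAut (FreeGroup (Fin n))} (h : IsNielsen i j σ)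
    (r : ℕ) (k : Fin n) (hk : k ≠ i) : (σ ^ r) (FreeGroup.of k) = FreeGroup.of k := by
  induction r with
  | zero => simp
  | succ r ih => rw [pow_succ, MulAut.mul_apply, h.2 k hk, ih]

lemma IsNielsen.pow_self {i j : Fin n} (hij : i ≠ j) {σ : MulAut (FreeGroup (Fin n))}
    (h : IsNielsen i j σ) (r : ℕ) :
    (σ ^ r) (FreeGroup.of i) = FreeGroup.of j ^ r * FreeGroup.of i := by
  induction r with
  | zero => simp
  | succ r ih =>
    rw [pow_succ, MulAut.mul_apply, h.1, map_mul, ih, h.pow_other r j hij.symm,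
      ← mul_assoc, ← pow_succ']

lemma IsNielsen.inv_other {i j : Fin n} {σ : MulAut (FreeGroup (Fin n))} (h : IsNielsen i j σ)
    (r : ℕ) (k : Fin n) (hk : k ≠ i) :
    ((σ ^ r)⁻¹ : MulAut (FreeGroup (Fin n))) (FreeGroup.of k) = FreeGroup.of k := by
  refine (MulEquiv.symm_apply_eq (σ ^ r)).2 ?_
  rw [h.pow_other r k hk]

lemma IsNielsen.inv_self {i j : Fin n} (hij : i ≠ j) {σ : MulAut (FreeGroup (Fin n))}
    (h : IsNielsen i j σ) (r : ℕ) :
    ((σ ^ r)⁻¹ : MulAut (FreeGroup (Fin n))) (FreeGroup.of i) =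
      (FreeGroup.of j ^ r)⁻¹ * FreeGroup.of i := by
  refine (MulEquiv.symm_apply_eq (σ ^ r)).2 ?_
  rw [map_mul, map_inv, map_pow, h.pow_self hij, h.pow_other r j hij.symm, inv_mul_cancel_left]

lemma IsNielsen.mem_ker {i j : Fin n} (hij : i ≠ j) {σ : MulAut (FreeGroup (Fin n))}
    (h : IsNielsen i j σ) (P : Type) [Group P] : σ ^ m ∈ (Phi n m P).ker := by
  rw [MonoidHom.mem_ker]
  ext1 f
  rw [Phi_apply, Equiv.Perm.one_apply]
  apply Subtype.ext
  apply FreeGroup.ext_hom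
  intro k
  rw [act_apply]
  by_cases hk : k = i
  · subst hk
    rw [h.inv_self hij, map_mul, map_inv, map_pow]
    have := f.2 1 j
    rw [MulAut.one_apply] at this
    rw [this, inv_one, one_mul]
  · rw [h.inv_other m k hk]

/-- The induced representation of the quotient. -/
def PhiQ {i j : Fin n} (hij : i ≠ j) {σ : MulAut (FreeGroup (Fin n))}
    (h : IsNielsen i j σ) (m : ℕ) (P : Type) [Group P] :
    (MulAut (FreeGroup (Fin n)) ⧸
      Subgroup.normalClosure ({σ ^ m} : Set (MulAut (FreeGroup (Fin n))))) →*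
      Equiv.Perm (T n m P) :=
  QuotientGroup.lift _ (Phi n m P) (by
    intro g hg
    have hle : Subgroup.normalClosure ({σ ^ m} : Set (MulAut (FreeGroup (Fin n)))) ≤
        (Phi n m P).ker := by
      apply Subgroup.normalClosure_le_normal
      intro y hy
      rw [Set.mem_singleton_iff] at hy
      rw [hy]
      exact h.mem_ker hij P
    exact hle hg)

/-- The data of a finite group used below: every basis element of every basis is sent to an
element whose `p ^ k`-th power is a nontrivial power of the central element `z`. -/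
structure Data (n p k : ℕ) (G : Type) [Group G] where
  z : G
  x : Fin n → G
  hz : ∀ i, Commute z (x i)
  hzp : z ^ p = 1
  hz1 : z ≠ 1
  hx : ∀ (β : MulAut (FreeGroup (Fin n))) (j : Fin n),
    ∃ a : ℕ, ¬ p ∣ a ∧ FreeGroup.lift x (β (FreeGroup.of j)) ^ (p ^ k) = z ^ a

variable {k : ℕ} (D : Data n p k G)

lemma rep_mem_T (hp : p.Prime) (hm : p ^ (k + 1) ∣ m) (i₁ : Fin n)
    (β : MulAut (FreeGroup (Fin n))) (j : Fin n) :
    rep D.z N D.x i₁ (β (FreeGroup.of j)) ^ m = 1 := by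
  obtain ⟨a, ha, hxa⟩ := D.hx β j
  have h := (rep_tw (N := N) hp D.hzp D.x D.hz i₁ (β (FreeGroup.of j))).pow_exp D.hzp _ a ha hxa
  obtain ⟨c, hc⟩ := hm
  rw [hc, pow_succ, pow_mul, h, one_pow]

lemma eval_ne {i₁ i : Fin n} (hi : i ≠ i₁) (r : ℕ) (g : G) (t : ZMod N) :
    (rep D.z N D.x i₁ (FreeGroup.of i ^ r)) (g, t) = (D.x i ^ r * g, t) := by
  induction r with
  | zero => simp
  | succ r ih =>
    rw [pow_succ', map_mul, Equiv.Perm.mul_apply, ih]
    simp [rep, gen_apply, pow_succ', mul_assoc, hi]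

lemma eval_eq (i₁ : Fin n) (r : ℕ) (g : G) (t : ZMod N) :
    (rep D.z N D.x i₁ (FreeGroup.of i₁ ^ r)) (g, t) =
      (D.x i₁ ^ r * g, t + ∑ j ∈ Finset.range r, cc D.z N (D.x i₁ ^ j * g)) := by
  induction r with
  | zero => simp
  | succ r ih =>
    rw [pow_succ', map_mul, Equiv.Perm.mul_apply, ih, Finset.sum_range_succ]
    simp [rep, gen_apply, pow_succ', mul_assoc, add_assoc]

lemma z_pow_ne (hp : p.Prime) {a : ℕ} (ha : ¬ p ∣ a) : D.z ^ a ≠ 1 := by
  intro h
  have := Fact.mk hp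
  have h1 : orderOf D.z = p := orderOf_eq_prime D.hzp D.hz1
  apply ha
  rw [← h1]
  exact orderOf_dvd_of_pow_eq_one h

lemma gen_pow (i : Fin n) : ∃ a : ℕ, ¬ p ∣ a ∧ D.x i ^ (p ^ k) = D.z ^ a := by
  obtain ⟨a, ha, h⟩ := D.hx 1 i
  exact ⟨a, ha, by simpa using h⟩

lemma pow_ne (hp : p.Prime) (i : Fin n) (j : ℕ) (hj0 : 0 < j) (hj : j < p ^ k) :
    (D.x i ^ j) ^ p ≠ 1 := by
  intro h
  have := Fact.mk hp
  obtain ⟨a, ha, hxa⟩ := gen_pow D i
  have h1 : orderOf (D.x i) = p ^ (k + 1) := by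
    apply orderOf_eq_prime_pow
    · rw [hxa]
      exact z_pow_ne D hp ha
    · rw [pow_succ, pow_mul, hxa, ← pow_mul, mul_comm, pow_mul, D.hzp, one_pow]
  rw [← pow_mul] at h
  have h2 := orderOf_dvd_of_pow_eq_one h
  rw [h1, pow_succ] at h2
  have h3 := Nat.dvd_of_mul_dvd_mul_right hp.pos h2
  exact absurd (Nat.le_of_dvd hj0 h3) (by omega)

lemma cc_one : cc D.z N 1 = 1 := by
  have h : D.z⁻¹ ≠ 1 := by
    intro h
    exact D.hz1 (inv_eq_one.mp h)
  simp [cc, dl, h]

lemma cc_z : cc D.z N D.z = -1 := by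
  simp [cc, dl, D.hz1]

lemma cc_y {y : G} (hy : y ^ p ≠ 1) : cc D.z N y = 0 := by
  have h1 : y ≠ 1 := by
    intro h
    rw [h, one_pow] at hy
    exact hy rfl
  have h2 : D.z⁻¹ * y ≠ 1 := by
    intro h
    have : y = D.z := (inv_mul_eq_one.mp h).symm
    rw [this] at hy
    exact hy D.hzp
  simp [cc, dl, h1, h2]

lemma cc_yz {y : G} (hy : y ^ p ≠ 1) : cc D.z N (y * D.z) = 0 := by
  have h1 : y * D.z ≠ 1 := by
    intro h
    have : y = D.z⁻¹ := eq_inv_of_mul_eq_one_left h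
    rw [this, inv_pow, D.hzp, inv_one] at hy
    exact hy rfl
  have h2 : D.z⁻¹ * (y * D.z) ≠ 1 := by
    intro h
    have h3 : y * D.z = D.z := (inv_mul_eq_one.mp h).symm
    rw [mul_eq_right.mp h3, one_pow] at hy
    exact hy rfl
  simp [cc, dl, h1, h2]

lemma eval_one (hp : p.Prime) (i₁ : Fin n) (a : ℕ) (hxa : D.x i₁ ^ (p ^ k) = D.z ^ a) (t : ZMod N) :
    (rep D.z N D.x i₁ (FreeGroup.of i₁ ^ (p ^ k))) (1, t) = (D.z ^ a, t + 1) := by
  rw [eval_eq, hxa, mul_one]
  congr 2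
  rw [Finset.sum_eq_single 0]
  · simpa using cc_one D
  · intro j hj hj0
    rw [mul_one]
    exact cc_y D (pow_ne D hp i₁ j (Nat.pos_of_ne_zero hj0) (Finset.mem_range.mp hj))
  · intro h
    exact absurd (Finset.mem_range.mpr (pow_pos hp.pos k)) h

lemma eval_z (hp : p.Prime) (i₁ : Fin n) (a : ℕ) (hxa : D.x i₁ ^ (p ^ k) = D.z ^ a) (t : ZMod N) :
    (rep D.z N D.x i₁ (FreeGroup.of i₁ ^ (p ^ k))) (D.z, t) = (D.z ^ a * D.z, t - 1) := by
  rw [eval_eq, hxa, sub_eq_add_neg]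
  congr 2
  rw [Finset.sum_eq_single 0]
  · simpa using cc_z D
  · intro j hj hj0
    exact cc_yz D (pow_ne D hp i₁ j (Nat.pos_of_ne_zero hj0) (Finset.mem_range.mp hj))
  · intro h
    exact absurd (Finset.mem_range.mpr (pow_pos hp.pos k)) h

lemma exists_words (hp : p.Prime) {i₀ i₁ : Fin n} (hi : i₀ ≠ i₁) :
    ∃ ξ τ : FreeGroup (Fin n), (∀ (g : G) (t : ZMod N), rep D.z N D.x i₁ ξ (g, t) = (D.z * g, t)) ∧
      (∀ t : ZMod N, rep D.z N D.x i₁ τ (1, t) = (1, t + 1)) ∧
      (∀ t : ZMod N, rep D.z N D.x i₁ τ (D.z, t) = (D.z, t - 1)) := by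
  obtain ⟨a₀, ha₀, h₀⟩ := gen_pow D i₀
  obtain ⟨a, ha, h₁⟩ := gen_pow D i₁
  have hc : Nat.Coprime a₀ p := ((Nat.Prime.coprime_iff_not_dvd hp).2 ha₀).symm
  obtain ⟨b, _, hb⟩ := Nat.exists_mul_mod_eq_one_of_coprime hc hp.one_lt
  have hz : (D.x i₀ ^ (p ^ k)) ^ b = D.z := by
    rw [h₀, ← pow_mul, pow_eq_pow_mod (a₀ * b) D.hzp, hb, pow_one]
  have hpa : D.z ^ ((p - 1) * a) * D.z ^ a = 1 := by
    rw [← pow_add]
    have : (p - 1) * a + a = p * a := by
      obtain ⟨q, hq⟩ := Nat.exists_eq_succ_of_ne_zero hp.ne_zero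
      subst hq
      simp only [Nat.succ_eq_add_one, Nat.add_sub_cancel]
      ring
    rw [this, pow_mul, D.hzp, one_pow]
  have hξ : ∀ (g : G) (t : ZMod N),
      rep D.z N D.x i₁ (FreeGroup.of i₀ ^ (p ^ k * b)) (g, t) = (D.z * g, t) := by
    intro g t
    rw [eval_ne D hi, pow_mul, hz]
  have hξ2 : ∀ (g : G) (t : ZMod N),
      rep D.z N D.x i₁ (FreeGroup.of i₀ ^ (p ^ k * b * ((p - 1) * a))) (g, t) =
        (D.z ^ ((p - 1) * a) * g, t) := by
    intro g t
    rw [eval_ne D hi, pow_mul (D.x i₀) (p ^ k * b) _, pow_mul (D.x i₀) (p ^ k) b, hz]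
  refine ⟨FreeGroup.of i₀ ^ (p ^ k * b),
    FreeGroup.of i₀ ^ (p ^ k * b * ((p - 1) * a)) * FreeGroup.of i₁ ^ (p ^ k), hξ, ?_, ?_⟩
  · intro t
    rw [map_mul, Equiv.Perm.mul_apply, eval_one D hp i₁ a h₁, hξ2, hpa]
  · intro t
    rw [map_mul, Equiv.Perm.mul_apply, eval_z D hp i₁ a h₁, hξ2, ← mul_assoc, hpa, one_mul]

lemma tau_pow {i₁ : Fin n} {τ : FreeGroup (Fin n)}
    (h : ∀ t : ZMod N, rep D.z N D.x i₁ τ (1, t) = (1, t + 1)) (t : ZMod N) (r : ℕ) :
    rep D.z N D.x i₁ (τ ^ r) (1, t) = (1, t + r) := by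
  induction r with
  | zero => simp
  | succ r ih =>
    rw [pow_succ', map_mul, Equiv.Perm.mul_apply, ih, h]
    push_cast
    rw [add_assoc]

lemma tau_pow_z {i₁ : Fin n} {τ : FreeGroup (Fin n)}
    (h : ∀ t : ZMod N, rep D.z N D.x i₁ τ (D.z, t) = (D.z, t - 1)) (t : ZMod N) (r : ℕ) :
    rep D.z N D.x i₁ (τ ^ r) (D.z, t) = (D.z, t - r) := by
  induction r with
  | zero => simp
  | succ r ih =>
    rw [pow_succ', map_mul, Equiv.Perm.mul_apply, ih, h]
    push_cast
    rw [sub_sub]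

lemma conj_apply {i₁ : Fin n} {ξ τ : FreeGroup (Fin n)}
    (h0 : ∀ (g : G) (t : ZMod N), rep D.z N D.x i₁ ξ (g, t) = (D.z * g, t))
    (h1 : ∀ t : ZMod N, rep D.z N D.x i₁ τ (1, t) = (1, t + 1))
    (h2 : ∀ t : ZMod N, rep D.z N D.x i₁ τ (D.z, t) = (D.z, t - 1)) (r : ℕ) :
    rep D.z N D.x i₁ (((MulAut.conj (τ ^ r))⁻¹ : MulAut (FreeGroup (Fin n))) ξ) (1, 0) =
      (D.z, ((2 * r : ℕ) : ZMod N)) := by
  rw [← map_inv, MulAut.conj_apply, inv_inv, map_mul, map_mul, Equiv.Perm.mul_apply,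
    Equiv.Perm.mul_apply, tau_pow D h1, h0, map_inv,
    Equiv.Perm.inv_eq_iff_eq, tau_pow_z D h2]
  rw [mul_one]
  congr 1
  push_cast
  ring

include D in
theorem index_ge [Finite G] (hp : p.Prime) (hm : p ^ (k + 1) ∣ m) {i₀ i₁ : Fin n} (hi : i₀ ≠ i₁)
    {σ : MulAut (FreeGroup (Fin n))} (h : IsNielsen i₀ i₁ σ) (K : ℕ) (hK : 0 < K) :
    (PhiQ hi h m (Equiv.Perm (G × ZMod (2 * K)))).ker.FiniteIndex ∧
    K ≤ (PhiQ hi h m (Equiv.Perm (G × ZMod (2 * K)))).ker.index := by
  have : NeZero (2 * K) := ⟨by omega⟩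
  have : Finite (ZMod (2 * K)) := inferInstance
  have : Finite (G × ZMod (2 * K)) := inferInstance
  have : Finite (Equiv.Perm (G × ZMod (2 * K))) := inferInstance
  have : Finite (Equiv.Perm (T n m (Equiv.Perm (G × ZMod (2 * K))))) := inferInstance
  refine ⟨inferInstance, ?_⟩
  rw [Subgroup.index_ker]
  obtain ⟨ξ, τ, h0, h1, h2⟩ := exists_words (N := 2 * K) D hp hi
  let h₀ : T n m (Equiv.Perm (G × ZMod (2 * K))) :=
    ⟨rep D.z (2 * K) D.x i₁, rep_mem_T D hp hm i₁⟩
  let φ : Fin K → (PhiQ hi h m (Equiv.Perm (G × ZMod (2 * K)))).range := fun r =>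
    ⟨PhiQ hi h m (Equiv.Perm (G × ZMod (2 * K)))
      (QuotientGroup.mk (MulAut.conj (τ ^ (r : ℕ)))), ⟨_, rfl⟩⟩
  have hφ : Function.Injective φ := by
    intro r s hrs
    have key : ∀ i : Fin K, ((φ i).1 h₀).1 ξ (1, 0) =
        (D.z, ((2 * (i : ℕ) : ℕ) : ZMod (2 * K))) := fun i =>
      conj_apply D h0 h1 h2 (i : ℕ)
    have h1 := (key r).symm.trans ((congrArg (fun y => ((y.1 : Equiv.Perm _) h₀).1
      ξ (1, 0)) hrs).trans (key s))
    rw [Prod.mk.injEq] at h1
    have h2 := h1.2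
    rw [ZMod.natCast_eq_natCast_iff'] at h2
    have hn := r.2
    have hm := s.2
    rw [Nat.mod_eq_of_lt (by omega), Nat.mod_eq_of_lt (by omega)] at h2
    apply Fin.ext
    omega
  calc K = Nat.card (Fin K) := by simp
    _ ≤ _ := Nat.card_le_card_of_injective φ hφ

include D in
theorem infinite_of_data [Finite G] (hp : p.Prime) (hm : p ^ (k + 1) ∣ m) {i₀ i₁ : Fin n}
    (hi : i₀ ≠ i₁) {σ : MulAut (FreeGroup (Fin n))} (h : IsNielsen i₀ i₁ σ) :
    Set.Infinite {M : Subgroup (MulAut (FreeGroup (Fin n)) ⧸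
      Subgroup.normalClosure ({σ ^ m} : Set (MulAut (FreeGroup (Fin n))))) |
        M.Normal ∧ M.FiniteIndex} := by
  apply Set.Infinite.of_image Subgroup.index
  apply Set.infinite_of_forall_exists_gt
  intro a
  obtain ⟨h1, h2⟩ := index_ge D hp hm hi h (a + 1) (by omega)
  exact ⟨_, ⟨_, ⟨inferInstance, h1⟩, rfl⟩, by omega⟩

end Rep

/-! ### The matrix group -/

section Matrices

variable {K : Type} [Field K] {p : ℕ} [Fact p.Prime] [CharP K p]

open Matrix

set_option linter.unusedSectionVars false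

/-- Upper unitriangular with superdiagonal `e ^ (p ^ i)`. -/
def Uni (p : ℕ) {d : ℕ} (A : Matrix (Fin (d + 1)) (Fin (d + 1)) K) (e : K) : Prop :=
  (∀ i j : Fin (d + 1), (j : ℕ) < i → A i j = 0) ∧ (∀ i, A i i = 1) ∧
    ∀ i j : Fin (d + 1), (j : ℕ) = i + 1 → A i j = e ^ (p ^ (i : ℕ))

lemma Uni.one {d : ℕ} : Uni p (1 : Matrix (Fin (d + 1)) (Fin (d + 1)) K) 0 := by
  have hp : p.Prime := Fact.out
  refine ⟨?_, ?_, ?_⟩
  · intro i j h
    exact Matrix.one_apply_ne (fun hij => by subst hij; omega)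
  · intro i
    simp
  · intro i j h
    rw [Matrix.one_apply_ne (fun hij => by subst hij; omega), zero_pow (pow_pos hp.pos _).ne']

lemma Uni.mul {d : ℕ} {A B : Matrix (Fin (d + 1)) (Fin (d + 1)) K} {a b : K}
    (hA : Uni p A a) (hB : Uni p B b) : Uni p (A * B) (a + b) := by
  obtain ⟨hA0, hA1, hA2⟩ := hA
  obtain ⟨hB0, hB1, hB2⟩ := hB
  refine ⟨?_, ?_, ?_⟩
  · intro i j h
    rw [Matrix.mul_apply]
    apply Finset.sum_eq_zero
    intro c _
    by_cases hc : (c : ℕ) < i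
    · rw [hA0 i c hc, zero_mul]
    · rw [hB0 c j (by omega), mul_zero]
  · intro i
    rw [Matrix.mul_apply, Finset.sum_eq_single i]
    · rw [hA1, hB1, one_mul]
    · intro c _ hci
      have hci' : (c : ℕ) ≠ i := fun h => hci (Fin.ext h)
      by_cases hc : (c : ℕ) < i
      · rw [hA0 i c hc, zero_mul]
      · rw [hB0 c i (by omega), mul_zero]
    · intro h
      exact absurd (Finset.mem_univ i) h
  · intro i j h
    have hij : i ≠ j := fun hij => by subst hij; omega
    rw [Matrix.mul_apply, Finset.sum_eq_add i j hij]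
    · rw [hA1, hB1, one_mul, mul_one, hA2 i j h, hB2 i j h, add_pow_char_pow, add_comm]
    · intro c _ hc
      have h1 : (c : ℕ) ≠ i := fun h => hc.1 (Fin.ext h)
      have h2 : (c : ℕ) ≠ j := fun h => hc.2 (Fin.ext h)
      by_cases hc : (c : ℕ) < i
      · rw [hA0 i c hc, zero_mul]
      · rw [hB0 c j (by omega), mul_zero]
    · intro h
      exact absurd (Finset.mem_univ i) h
    · intro h
      exact absurd (Finset.mem_univ j) h

lemma Uni.pow {d : ℕ} {A : Matrix (Fin (d + 1)) (Fin (d + 1)) K} {a : K}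
    (hA : Uni p A a) (r : ℕ) : Uni p (A ^ r) (r * a) := by
  induction r with
  | zero => simpa using Uni.one
  | succ r ih =>
    rw [pow_succ]
    have := ih.mul hA
    push_cast
    rw [add_mul, one_mul]
    exact this

/-- The corner matrix. -/
def E (d : ℕ) (y : K) : Matrix (Fin (d + 1)) (Fin (d + 1)) K := Matrix.single 0 (Fin.last d) y

lemma E_mul_E {d : ℕ} (hd : d ≠ 0) (y y' : K) : E d y * E d y' = 0 := by
  unfold E
  rw [Matrix.single_mul_single_of_ne]
  intro h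
  have := congrArg Fin.val h
  simp at this
  omega

lemma E_add (d : ℕ) (y y' : K) : E d y + E d y' = E d (y + y') := by
  unfold E
  rw [Matrix.single_add]

lemma one_add_E_pow {d : ℕ} (hd : d ≠ 0) (y : K) (r : ℕ) :
    (1 + E d y) ^ r = 1 + E d (r * y) := by
  induction r with
  | zero => simp [E]
  | succ r ih =>
    rw [pow_succ, ih, add_mul, mul_add, mul_add, one_mul, one_mul, mul_one, E_mul_E hd, add_zero,
      add_assoc, E_add]
    congr 2
    push_cast
    ring

lemma E_comm {d : ℕ} {A : Matrix (Fin (d + 1)) (Fin (d + 1)) K} {a : K} (hA : Uni p A a) (y : K) :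
    E d y * A = A * E d y := by
  obtain ⟨hA0, hA1, hA2⟩ := hA
  ext i j
  unfold E
  by_cases hi : i = 0
  · subst hi
    rw [Matrix.single_mul_apply_same]
    by_cases hj : j = Fin.last d
    · subst hj
      rw [Matrix.mul_single_apply_same, hA1, hA1, mul_comm]
    · rw [Matrix.mul_single_apply_of_ne _ _ _ _ _ hj]
      have : (j : ℕ) < (Fin.last d : Fin (d + 1)) := by
        have h1 := j.2
        have h2 : (j : ℕ) ≠ d := fun h => hj (Fin.ext h)
        simp
        omega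
      rw [hA0 _ _ this, mul_zero]
  · rw [Matrix.single_mul_apply_of_ne _ _ _ _ _ hi]
    by_cases hj : j = Fin.last d
    · subst hj
      rw [Matrix.mul_single_apply_same]
      have : ((0 : Fin (d + 1)) : ℕ) < i := by
        have h0 : ((0 : Fin (d + 1)) : ℕ) = 0 := rfl
        have h2 : (i : ℕ) ≠ 0 := fun h => hi (Fin.ext h)
        omega
      rw [hA0 _ _ this, zero_mul]
    · rw [Matrix.mul_single_apply_of_ne _ _ _ _ _ hj]

lemma nil_pow {d : ℕ} {A : Matrix (Fin (d + 1)) (Fin (d + 1)) K} {e : K} (hA : Uni p A e) (r : ℕ) :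
    (∀ i j : Fin (d + 1), (j : ℕ) < i + r → ((A - 1) ^ r) i j = 0) ∧
    (∀ i j : Fin (d + 1), (j : ℕ) = i + r →
      ((A - 1) ^ r) i j = e ^ (∑ s ∈ Finset.range r, p ^ ((i : ℕ) + s))) := by
  obtain ⟨hA0, hA1, hA2⟩ := hA
  have hN0 : ∀ i j : Fin (d + 1), (j : ℕ) < i + 1 → (A - 1) i j = 0 := by
    intro i j h
    rw [Matrix.sub_apply]
    by_cases hij : i = j
    · subst hij
      rw [hA1, Matrix.one_apply_eq, sub_self]
    · have h1 : (i : ℕ) ≠ j := fun h => hij (Fin.ext h)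
      rw [hA0 i j (by omega), Matrix.one_apply_ne hij, sub_zero]
  have hN1 : ∀ i j : Fin (d + 1), (j : ℕ) = i + 1 → (A - 1) i j = e ^ (p ^ (i : ℕ)) := by
    intro i j h
    rw [Matrix.sub_apply, hA2 i j h, Matrix.one_apply_ne (fun hij => by subst hij; omega), sub_zero]
  induction r with
  | zero =>
    refine ⟨?_, ?_⟩
    · intro i j h
      rw [pow_zero]
      exact Matrix.one_apply_ne (fun hij => by subst hij; omega)
    · intro i j h
      have hij : i = j := Fin.ext (by omega)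
      subst hij
      simp
  | succ r ih =>
    obtain ⟨ih0, ih1⟩ := ih
    refine ⟨?_, ?_⟩
    · intro i j h
      rw [pow_succ, Matrix.mul_apply]
      apply Finset.sum_eq_zero
      intro c _
      by_cases hc : (c : ℕ) < i + r
      · rw [ih0 i c hc, zero_mul]
      · rw [hN0 c j (by omega), mul_zero]
    · intro i j h
      have hlt : (i : ℕ) + r < d + 1 := by
        have := j.2
        omega
      rw [pow_succ, Matrix.mul_apply, Finset.sum_eq_single (⟨(i : ℕ) + r, hlt⟩ : Fin (d + 1))]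
      · rw [ih1 i _ rfl, hN1 _ j (by simp; omega), ← pow_add, Finset.sum_range_succ]
      · intro c _ hc
        have h1 : (c : ℕ) ≠ i + r := fun h => hc (Fin.ext h)
        by_cases hc : (c : ℕ) < i + r
        · rw [ih0 i c hc, zero_mul]
        · rw [hN0 c j (by omega), mul_zero]
      · intro h
        exact absurd (Finset.mem_univ _) h

lemma pow_pk {k : ℕ} {A : Matrix (Fin (p ^ k + 1)) (Fin (p ^ k + 1)) K} {e : K}
    (hA : Uni p A e) :
    A ^ (p ^ k) = 1 + E (p ^ k) (e ^ (∑ s ∈ Finset.range (p ^ k), p ^ s)) := by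
  have h1 : A ^ (p ^ k) = 1 + (A - 1) ^ (p ^ k) := by
    have h := add_pow_char_pow_of_commute p k
      (Commute.one_left (A - 1))
    rw [add_sub_cancel, one_pow] at h
    exact h
  rw [h1]
  congr 1
  obtain ⟨h2, h3⟩ := nil_pow hA (p ^ k)
  ext i j
  unfold E
  by_cases hij : (j : ℕ) = i + p ^ k
  · have hi : i = 0 := by
      have hi0 : (i : ℕ) = 0 := by
        have := j.2
        omega
      exact Fin.ext hi0
    have hj : j = Fin.last _ := by
      apply Fin.ext
      subst hi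
      simpa using hij
    subst hi
    subst hj
    rw [h3 _ _ hij, Matrix.single_apply_same]
    simp
  · rw [h2 i j (by have := j.2; omega)]
    rw [Matrix.single_apply_of_ne]
    intro h
    apply hij
    rw [← h.1, ← h.2]
    simp

/-- The matrix with superdiagonal `e ^ (p ^ i)`. -/
def gm (p d : ℕ) (e : K) : Matrix (Fin (d + 1)) (Fin (d + 1)) K :=
  fun i j => if i = j then 1 else if (j : ℕ) = i + 1 then e ^ (p ^ (i : ℕ)) else 0

lemma gm_uni (d : ℕ) (e : K) : Uni p (gm p d e) e := by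
  refine ⟨?_, ?_, ?_⟩
  · intro i j h
    have h1 : i ≠ j := fun hij => by subst hij; omega
    have h2 : ¬ (j : ℕ) = i + 1 := by omega
    simp [gm, h1, h2]
  · intro i
    simp [gm]
  · intro i j h
    have h1 : i ≠ j := fun hij => by subst hij; omega
    simp [gm, h1, h]

lemma gm_pow (k : ℕ) (e : K) : gm p (p ^ k) e ^ (p ^ (k + 1)) = 1 := by
  have hp : p.Prime := Fact.out
  rw [pow_succ, pow_mul, pow_pk (gm_uni _ e), one_add_E_pow (pow_pos hp.pos k).ne',
    CharP.cast_eq_zero K p, zero_mul]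
  simp [E]

lemma e_pow (k : ℕ) : (1 + E (p ^ k) (1 : K)) ^ p = 1 := by
  have hp : p.Prime := Fact.out
  rw [one_add_E_pow (pow_pos hp.pos k).ne', CharP.cast_eq_zero K p, zero_mul]
  simp [E]

/-- The unit given by `gm`. -/
def uu (p : ℕ) [Fact p.Prime] [CharP K p] (k : ℕ) (e : K) :
    (Matrix (Fin (p ^ k + 1)) (Fin (p ^ k + 1)) K)ˣ :=
  Units.ofPowEqOne (gm p (p ^ k) e) (p ^ (k + 1)) (gm_pow k e)
    (pow_pos (Fact.out : p.Prime).pos _).ne'

/-- The central unit. -/
def zz (K : Type) [Field K] (p : ℕ) [Fact p.Prime] [CharP K p] (k : ℕ) :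
    (Matrix (Fin (p ^ k + 1)) (Fin (p ^ k + 1)) K)ˣ :=
  Units.ofPowEqOne (1 + E (p ^ k) (1 : K)) p (e_pow k) (Fact.out : p.Prime).ne_zero

lemma uu_val (k : ℕ) (e : K) :
    ((uu p k e : (Matrix (Fin (p ^ k + 1)) (Fin (p ^ k + 1)) K)ˣ) :
      Matrix (Fin (p ^ k + 1)) (Fin (p ^ k + 1)) K) = gm p (p ^ k) e := rfl

lemma zz_val (k : ℕ) :
    ((zz K p k : (Matrix (Fin (p ^ k + 1)) (Fin (p ^ k + 1)) K)ˣ) :
      Matrix (Fin (p ^ k + 1)) (Fin (p ^ k + 1)) K) = 1 + E (p ^ k) (1 : K) := rfl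

lemma uu_inv (k : ℕ) (e : K) :
    Uni p (((uu p k e)⁻¹ : (Matrix (Fin (p ^ k + 1)) (Fin (p ^ k + 1)) K)ˣ) :
      Matrix (Fin (p ^ k + 1)) (Fin (p ^ k + 1)) K) (-e) := by
  have hp : p.Prime := Fact.out
  have h1 : (uu p k e) ^ (p ^ (k + 1)) = 1 := Units.pow_ofPowEqOne _ _
  have hpos : 0 < p ^ (k + 1) := pow_pos hp.pos _
  have h2 : (uu p k e)⁻¹ = (uu p k e) ^ (p ^ (k + 1) - 1) := by
    rw [inv_eq_iff_mul_eq_one, ← pow_succ', Nat.sub_add_cancel hpos, h1]
  rw [h2, Units.val_pow_eq_pow_val, uu_val]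
  have h3 := (gm_uni (p := p) (p ^ k) e).pow (p ^ (k + 1) - 1)
  have h4 : (((p ^ (k + 1) - 1 : ℕ) : K)) = -1 := by
    rw [Nat.cast_sub hpos, Nat.cast_pow, CharP.cast_eq_zero K p, zero_pow (Nat.succ_ne_zero k),
      Nat.cast_one, zero_sub]
  rw [h4, neg_one_mul] at h3
  exact h3

end Matrices

section Final

variable {p : ℕ} [Fact p.Prime] {k n : ℕ}

/-- A basis of the field of order `p ^ (p ^ k)` over its prime field. -/
noncomputable def bas (p : ℕ) [Fact p.Prime] (k : ℕ) :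
    Module.Basis (Fin (p ^ k)) (ZMod p) (GaloisField p (p ^ k)) :=
  Module.finBasisOfFinrankEq (ZMod p) (GaloisField p (p ^ k))
    (GaloisField.finrank p (pow_pos (Fact.out : p.Prime).pos k).ne')

/-- The values on the generators. -/
noncomputable def vv (p : ℕ) [Fact p.Prime] (k : ℕ) {n : ℕ} (hn : n ≤ p ^ k) (i : Fin n) :
    GaloisField p (p ^ k) := bas p k (Fin.castLE hn i)

/-- The abelianisation modulo `p`, with values in a field. -/
noncomputable def eps (hn : n ≤ p ^ k) :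
    FreeGroup (Fin n) →* Multiplicative (GaloisField p (p ^ k)) :=
  FreeGroup.lift (fun i => Multiplicative.ofAdd (vv p k hn i))

/-- The images of the generators. -/
noncomputable def xx (hn : n ≤ p ^ k) (i : Fin n) :
    (Matrix (Fin (p ^ k + 1)) (Fin (p ^ k + 1)) (GaloisField p (p ^ k)))ˣ :=
  uu p k (vv p k hn i)

lemma uni_word (hn : n ≤ p ^ k) (w : FreeGroup (Fin n)) :
    Uni p ((FreeGroup.lift (xx hn) w :
      (Matrix (Fin (p ^ k + 1)) (Fin (p ^ k + 1)) (GaloisField p (p ^ k)))ˣ) :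
      Matrix (Fin (p ^ k + 1)) (Fin (p ^ k + 1)) (GaloisField p (p ^ k)))
      (eps hn w).toAdd := by
  induction w using FreeGroup.induction_on with
  | C1 =>
    rw [map_one (FreeGroup.lift (xx hn)), map_one (eps hn), Units.val_one, toAdd_one]
    exact Uni.one
  | of i =>
    rw [FreeGroup.lift_apply_of, eps, FreeGroup.lift_apply_of, toAdd_ofAdd]
    exact gm_uni _ _
  | inv_of i h =>
    rw [map_inv (FreeGroup.lift (xx hn)), map_inv (eps hn), FreeGroup.lift_apply_of, eps,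
      FreeGroup.lift_apply_of, toAdd_inv, toAdd_ofAdd]
    exact uu_inv k _
  | mul v w h1 h2 =>
    rw [map_mul (FreeGroup.lift (xx hn)), map_mul (eps hn), Units.val_mul, toAdd_mul]
    exact h1.mul h2

lemma factor (hn : n ≤ p ^ k) (ψ : FreeGroup (Fin n) →* Multiplicative (ZMod p)) :
    ∃ l : GaloisField p (p ^ k) →ₗ[ZMod p] ZMod p, ∀ w, (ψ w).toAdd = l ((eps hn w).toAdd) := by
  refine ⟨(bas p k).constr (ZMod p) (fun r => if h : (r : ℕ) < n then
    (ψ (FreeGroup.of ⟨r, h⟩)).toAdd else 0), ?_⟩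
  have hgen : ∀ i : Fin n, (ψ (FreeGroup.of i)).toAdd = ((bas p k).constr (ZMod p)
      (fun r => if h : (r : ℕ) < n then (ψ (FreeGroup.of ⟨r, h⟩)).toAdd else 0))
        ((eps hn (FreeGroup.of i)).toAdd) := by
    intro i
    rw [eps, FreeGroup.lift_apply_of, toAdd_ofAdd, vv, Module.Basis.constr_basis]
    simp
  intro w
  induction w using FreeGroup.induction_on with
  | C1 => simp
  | of i => exact hgen i
  | inv_of i h => rw [map_inv ψ, map_inv (eps hn), toAdd_inv, toAdd_inv, map_neg, h]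
  | mul v w h1 h2 => rw [map_mul ψ, map_mul (eps hn), toAdd_mul, toAdd_mul, map_add, h1, h2]

lemma eps_ne (hn : n ≤ p ^ k) (β : MulAut (FreeGroup (Fin n))) (j : Fin n) :
    (eps hn (β (FreeGroup.of j))).toAdd ≠ 0 := by
  let χ : FreeGroup (Fin n) →* Multiplicative (ZMod p) :=
    FreeGroup.lift (fun i => if i = j then Multiplicative.ofAdd 1 else 1)
  obtain ⟨l, hl⟩ := factor hn
    (χ.comp ((β⁻¹ : MulAut (FreeGroup (Fin n))) : FreeGroup (Fin n) →* FreeGroup (Fin n)))
  have h1 := hl (β (FreeGroup.of j))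
  have h2 : (χ.comp ((β⁻¹ : MulAut (FreeGroup (Fin n))) :
      FreeGroup (Fin n) →* FreeGroup (Fin n))) (β (FreeGroup.of j)) = Multiplicative.ofAdd 1 := by
    show χ (β⁻¹ (β (FreeGroup.of j))) = _
    rw [MulAut.inv_apply_self]
    simp [χ]
  rw [h2] at h1
  intro h0
  rw [h0, map_zero] at h1
  exact one_ne_zero h1

/-- The data for the matrix group. -/
noncomputable def dat (hn : n ≤ p ^ k) :
    Data n p k (Matrix (Fin (p ^ k + 1)) (Fin (p ^ k + 1)) (GaloisField p (p ^ k)))ˣ where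
  z := zz (GaloisField p (p ^ k)) p k
  x := xx hn
  hz i := by
    apply Units.ext
    rw [Units.val_mul, Units.val_mul, zz_val, add_mul, mul_add, one_mul, mul_one]
    congr 1
    exact E_comm (gm_uni (p := p) _ _) 1
  hzp := Units.pow_ofPowEqOne _ _
  hz1 := by
    intro h
    have h1 := congrArg (fun u : (Matrix (Fin (p ^ k + 1)) (Fin (p ^ k + 1))
      (GaloisField p (p ^ k)))ˣ => (u : Matrix (Fin (p ^ k + 1)) (Fin (p ^ k + 1))
      (GaloisField p (p ^ k))) 0 (Fin.last _)) h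
    have hne : (0 : Fin (p ^ k + 1)) ≠ Fin.last (p ^ k) := by
      intro h
      have := congrArg Fin.val h
      have hpos : 0 < p ^ k := pow_pos (Fact.out : p.Prime).pos k
      simp at this
      omega
    simp only [zz_val, Units.val_one, Matrix.add_apply, E, Matrix.single_apply_same,
      Matrix.one_apply_ne hne, zero_add] at h1
    exact one_ne_zero h1
  hx β j := by
    have hp : p.Prime := Fact.out
    set e := (eps hn (β (FreeGroup.of j))).toAdd with he
    have hne : e ≠ 0 := eps_ne hn β j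
    have hnorm : algebraMap (ZMod p) (GaloisField p (p ^ k)) (Algebra.norm (ZMod p) e) =
        e ^ ∑ s ∈ Finset.range (p ^ k), p ^ s := by
      rw [FiniteField.algebraMap_norm_eq_pow_sum, GaloisField.finrank p (pow_pos hp.pos k).ne',
        Nat.card_zmod]
    refine ⟨(Algebra.norm (ZMod p) e).val, ?_, ?_⟩
    · intro hdvd
      have hlt := ZMod.val_lt (Algebra.norm (ZMod p) e)
      have h0 := Nat.eq_zero_of_dvd_of_lt hdvd hlt
      rw [ZMod.val_eq_zero] at h0
      exact (Algebra.norm_ne_zero_iff.mpr hne) h0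
    · apply Units.ext
      rw [Units.val_pow_eq_pow_val, Units.val_pow_eq_pow_val, zz_val,
        pow_pk (uni_word hn (β (FreeGroup.of j))), one_add_E_pow (pow_pos hp.pos k).ne', mul_one,
        ← he, ← hnorm]
      congr 2
      conv_lhs => rw [← ZMod.natCast_zmod_val (Algebra.norm (ZMod p) e)]
      rw [map_natCast]

/-- The main theorem. -/
theorem main {n p k m : ℕ} (hp : p.Prime) (hn : n ≤ p ^ k) (hm : p ^ (k + 1) ∣ m)
    {i j : Fin n} (hij : i ≠ j) {σ : MulAut (FreeGroup (Fin n))} (h : IsNielsen i j σ) :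
    Set.Infinite {M : Subgroup (MulAut (FreeGroup (Fin n)) ⧸
      Subgroup.normalClosure ({σ ^ m} : Set (MulAut (FreeGroup (Fin n))))) |
        M.Normal ∧ M.FiniteIndex} := by
  have := Fact.mk hp
  exact infinite_of_data (dat (p := p) (k := k) hn) hp hm hij h

end Final

end Pool.Agent.H8R3.QNM2
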