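import Pool.Agent.H8R3.ThinLayer

set_option autoImplicit false

namespace Pool.Agent.H8R3.Thin

variable {R : Type} [CommRing R] {p : ℕ} [Fact p.Prime]

theorem EE_mem_zero (π s : R) : EE s ∈ Lev π 0 := by
  have := EE_mem π 0 s
  simpa using this

theorem FF_mem_zero (π s : R) : FF (π * s) ∈ Lev π 0 := by
  have := FF_mem π 0 s
  simpa using this

/-- congruence modulo the next term through the odd layer map -/
theorem cov_aux_odd {π : R} {χ : R →+* ZMod p} (h : Unif π χ) (k : ℕ) (n v : SL R)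
    (hn : n ∈ Lev π (2 * k + 1)) (hv : v ∈ Lev π (2 * k + 1))
    (he : dig π χ (k + 1) (n.1 0 0 - 1) = dig π χ (k + 1) (v.1 0 0 - 1)) :
    ∃ w ∈ Lev π (2 * k + 1 + 1), v = n * w := by
  refine ⟨n⁻¹ * v, ?_, by group⟩
  have h1 : psiO π χ h k (⟨n, hn⟩⁻¹ * ⟨v, hv⟩) = 1 := by
    have h2 : psiO π χ h k ⟨n, hn⟩ = psiO π χ h k ⟨v, hv⟩ := congrArg Multiplicative.ofAdd he
    rw [map_mul, map_inv, h2]; group
  exact (psiO_eq_one h k _).1 h1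

theorem cov_aux_even {π : R} {χ : R →+* ZMod p} (h : Unif π χ) (k : ℕ) (n v : SL R)
    (hn : n ∈ Lev π (2 * k)) (hv : v ∈ Lev π (2 * k))
    (he : dig π χ k (n.1 0 1) = dig π χ k (v.1 0 1))
    (he' : dig π χ (k + 1) (n.1 1 0) = dig π χ (k + 1) (v.1 1 0)) :
    ∃ w ∈ Lev π (2 * k + 1), v = n * w := by
  refine ⟨n⁻¹ * v, ?_, by group⟩
  have h1 : psiE π χ h k (⟨n, hn⟩⁻¹ * ⟨v, hv⟩) = 1 := by
    have h2 : psiE π χ h k ⟨n, hn⟩ = psiE π χ h k ⟨v, hv⟩ :=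
      congrArg Multiplicative.ofAdd (Prod.ext he he')
    rw [map_mul, map_inv, h2]; group
  exact (psiE_eq_one h k _).1 h1

theorem cov_even {π : R} {χ : R →+* ZMod p} (h : Unif π χ) (k : ℕ) (N : Subgroup (SL R))
    (hN : ∀ g ∈ Lev π 0, ∀ n ∈ N, g * n * g⁻¹ ∈ N) (u : SL R) (huN : u ∈ N)
    (hu : u ∈ Lev π (2 * k)) (hu' : u ∉ Lev π (2 * k + 1)) (v : SL R)
    (hv : v ∈ Lev π (2 * k + 1)) : ∃ n ∈ N, ∃ w ∈ Lev π (2 * k + 1 + 1), v = n * w := by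
  obtain ⟨ua, ub, uc, ud⟩ := mem_even.1 hu
  have hcomm : ∀ g ∈ Lev π 0, u * g * u⁻¹ * g⁻¹ ∈ N := by
    intro g hg
    have : u * g * u⁻¹ * g⁻¹ = u * (g * u⁻¹ * g⁻¹) := by group
    rw [this]
    exact mul_mem huN (hN g hg _ (inv_mem huN))
  have χa : χ (u.1 0 0) = 1 := by
    have : χ (u.1 0 0 - 1) = 0 := (h.ker _).2 ((dvd_pow_self π (by omega)).trans ua)
    rw [map_sub, map_one, sub_eq_zero] at this
    exact this
  have χd : χ (u.1 1 1) = 1 := by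
    have : χ (u.1 1 1 - 1) = 0 := (h.ker _).2 ((dvd_pow_self π (by omega)).trans ud)
    rw [map_sub, map_one, sub_eq_zero] at this
    exact this
  set ζ := dig π χ (k + 1) (v.1 0 0 - 1) with hζ
  by_cases hc : dig π χ (k + 1) (u.1 1 0) = 0
  · -- then the upper right entry is a unit times `π ^ k`
    have hb : dig π χ k (u.1 0 1) ≠ 0 := by
      intro hb
      apply hu'
      rw [mem_odd]
      exact ⟨ua, (h.dig_eq_zero k ub).1 hb, (h.dig_eq_zero (k + 1) uc).1 hc, ud⟩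
    obtain ⟨β, hβ⟩ := ub
    rw [hβ, h.dig_mul] at hb
    obtain ⟨t, ht⟩ := h.surj (ζ / χ β)
    obtain ⟨f1, f2, f3, f4⟩ := comF u (π * t)
    refine ⟨u * FF (π * t) * u⁻¹ * (FF (π * t))⁻¹, hcomm _ (FF_mem_zero π t), ?_⟩
    have hm : u * FF (π * t) * u⁻¹ * (FF (π * t))⁻¹ ∈ Lev π (2 * k + 1) := by
      rw [mem_odd, f1, f2, f3, f4, hβ]
      refine ⟨?_, ?_, ?_, ?_⟩
      · exact ⟨t * β * u.1 1 1 + π ^ (k + 1) * t ^ 2 * β ^ 2, by ring⟩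
      · exact ⟨- (t * β ^ 2 * π ^ k), by ring⟩
      · apply dvd_add
        · have : π ^ 1 ∣ π * t := by rw [pow_one]; exact dvd_mul_right _ _
          exact dvd_mul_of this (ud.mul_right _) (by omega)
        · exact ⟨t ^ 2 * β * u.1 1 1, by ring⟩
      · exact ⟨- (t * β * u.1 1 1), by ring⟩
    refine cov_aux_odd h k _ v hm hv ?_
    rw [f1, hβ]
    have e : π * t * (π ^ k * β * u.1 1 1) + (π * t) ^ 2 * (π ^ k * β * (π ^ k * β))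
        = π ^ (k + 1) * (t * β * u.1 1 1 + π * (π ^ k * t ^ 2 * β ^ 2)) := by ring
    rw [e, h.dig_mul, map_add, map_mul, map_mul, map_mul, χd, h.pi, ht]
    field_simp
    ring
  · obtain ⟨γ, hγ⟩ := uc
    rw [hγ, h.dig_mul] at hc
    obtain ⟨s, hs⟩ := h.surj (-ζ / χ γ)
    obtain ⟨f1, f2, f3, f4⟩ := comE u s
    refine ⟨u * EE s * u⁻¹ * (EE s)⁻¹, hcomm _ (EE_mem_zero π s), ?_⟩
    have hm : u * EE s * u⁻¹ * (EE s)⁻¹ ∈ Lev π (2 * k + 1) := by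
      rw [mem_odd, f1, f2, f3, f4, hγ]
      refine ⟨?_, ?_, ?_, ?_⟩
      · exact ⟨-(s * u.1 0 0 * γ), by ring⟩
      · apply dvd_add
        · exact (ua.mul_right _).mul_left _
        · exact ⟨s ^ 2 * u.1 0 0 * γ, by ring⟩
      · exact ⟨-(s * π ^ k * γ ^ 2), by ring⟩
      · exact ⟨s * u.1 0 0 * γ + s ^ 2 * π ^ (k + 1) * γ ^ 2, by ring⟩
    refine cov_aux_odd h k _ v hm hv ?_
    rw [f1, hγ]
    have e : -(s * (u.1 0 0 * (π ^ (k + 1) * γ))) = π ^ (k + 1) * (-(s * u.1 0 0 * γ)) := by ring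
    rw [e, h.dig_mul, map_neg, map_mul, map_mul, χa, hs]
    field_simp
    ring

theorem cov_odd {π : R} {χ : R →+* ZMod p} (h : Unif π χ) (h2 : (2 : ZMod p) ≠ 0) (k : ℕ)
    (N : Subgroup (SL R))
    (hN : ∀ g ∈ Lev π 0, ∀ n ∈ N, g * n * g⁻¹ ∈ N) (u : SL R) (huN : u ∈ N)
    (hu : u ∈ Lev π (2 * k + 1)) (hu' : u ∉ Lev π (2 * k + 1 + 1)) (v : SL R)
    (hv : v ∈ Lev π (2 * k + 1 + 1)) : ∃ n ∈ N, ∃ w ∈ Lev π (2 * k + 1 + 1 + 1), v = n * w := by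
  obtain ⟨ua, ub, uc, ud⟩ := mem_odd.1 hu
  have hcomm : ∀ g ∈ Lev π 0, u * g * u⁻¹ * g⁻¹ ∈ N := by
    intro g hg
    have : u * g * u⁻¹ * g⁻¹ = u * (g * u⁻¹ * g⁻¹) := by group
    rw [this]
    exact mul_mem huN (hN g hg _ (inv_mem huN))
  have χa : χ (u.1 0 0) = 1 := by
    have : χ (u.1 0 0 - 1) = 0 := (h.ker _).2 ((dvd_pow_self π (by omega)).trans ua)
    rw [map_sub, map_one, sub_eq_zero] at this
    exact this
  have χd : χ (u.1 1 1) = 1 := by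
    have : χ (u.1 1 1 - 1) = 0 := (h.ker _).2 ((dvd_pow_self π (by omega)).trans ud)
    rw [map_sub, map_one, sub_eq_zero] at this
    exact this
  have hsum := diag_sum hu
  have ua0 : ¬ π ^ (k + 2) ∣ u.1 0 0 - 1 := by
    intro hcon
    apply hu'
    have e : 2 * k + 1 + 1 = 2 * (k + 1) := by ring
    rw [e, mem_even]
    exact ⟨hcon, ub, uc, diag_of_det hu hcon⟩
  obtain ⟨α, hα⟩ := ua
  obtain ⟨δ, hδ⟩ := ud
  have hχα : χ α ≠ 0 := by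
    intro hcon
    obtain ⟨α', hα'⟩ := (h.ker α).1 hcon
    apply ua0
    exact ⟨α', by rw [hα, hα']; ring⟩
  have hχδ : χ δ = - χ α := by
    rw [hα, hδ, ← mul_add] at hsum
    have h1 : dig π χ (k + 1) (π ^ (k + 1) * (α + δ)) = 0 := h.dig_deep (k + 1) hsum
    rw [h.dig_mul, map_add] at h1
    linear_combination h1
  obtain ⟨β, hβ⟩ := ub
  obtain ⟨γ, hγ⟩ := uc
  have hev : 2 * k + 1 + 1 = 2 * (k + 1) := by ring
  rw [hev] at hv ⊢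
  set ζ1 := dig π χ (k + 1) (v.1 0 1) with hζ1
  set ζ2 := dig π χ (k + 1 + 1) (v.1 1 0) with hζ2
  obtain ⟨s, hs⟩ := h.surj (ζ1 / (2 * χ α))
  obtain ⟨t, ht⟩ := h.surj (ζ2 / (2 * χ δ))
  have hχδ0 : χ δ ≠ 0 := by rw [hχδ]; exact neg_ne_zero.2 hχα
  obtain ⟨f1, f2, f3, f4⟩ := comE u s
  obtain ⟨g1, g2, g3, g4⟩ := comF u (π * t)
  have hm1 : u * EE s * u⁻¹ * (EE s)⁻¹ ∈ Lev π (2 * (k + 1)) := by
    rw [mem_even, f1, f2, f3, f4, hγ, hα]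
    refine ⟨?_, ?_, ?_, ?_⟩
    · exact ⟨-(s * u.1 0 0 * γ), by ring⟩
    · exact ⟨s * α * (u.1 0 0 + 1) + s ^ 2 * u.1 0 0 * π * γ, by ring⟩
    · exact ⟨-(s * π ^ (k + 2) * γ ^ 2), by ring⟩
    · exact ⟨s * u.1 0 0 * γ + s ^ 2 * π ^ (k + 2) * γ ^ 2, by ring⟩
  have hm2 : u * FF (π * t) * u⁻¹ * (FF (π * t))⁻¹ ∈ Lev π (2 * (k + 1)) := by
    rw [mem_even, g1, g2, g3, g4, hβ, hδ]
    refine ⟨?_, ?_, ?_, ?_⟩
    · exact ⟨t * β * u.1 1 1 + π ^ (k + 2) * t ^ 2 * β ^ 2, by ring⟩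
    · exact ⟨-(t * π ^ (k + 2) * β ^ 2), by ring⟩
    · exact ⟨t * δ * (u.1 1 1 + 1) + t ^ 2 * π * β * u.1 1 1, by ring⟩
    · exact ⟨-(t * β * u.1 1 1), by ring⟩
  have hd1 : psiE π χ h (k + 1) ⟨_, hm1⟩ = Multiplicative.ofAdd (ζ1, 0) := by
    change Multiplicative.ofAdd (dig π χ (k + 1) ((u * EE s * u⁻¹ * (EE s)⁻¹).1 0 1),
      dig π χ (k + 1 + 1) ((u * EE s * u⁻¹ * (EE s)⁻¹).1 1 0)) = _
    congr 1
    rw [f2, f3]
    congr 1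
    · have e : s * ((u.1 0 0 - 1) * (u.1 0 0 + 1)) + s ^ 2 * (u.1 0 0 * u.1 1 0)
          = π ^ (k + 1) * (s * α * (u.1 0 0 + 1) + π * (s ^ 2 * u.1 0 0 * γ)) := by
        rw [hα, hγ]; ring
      rw [e, h.dig_mul, map_add, map_mul, map_mul, map_add, map_one, χa, map_mul, h.pi, hs]
      field_simp
      ring
    · apply h.dig_deep
      rw [hγ]
      exact ⟨-(s * π ^ (k + 1) * γ ^ 2), by ring⟩
  have hd2 : psiE π χ h (k + 1) ⟨_, hm2⟩ = Multiplicative.ofAdd (0, ζ2) := by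
    change Multiplicative.ofAdd (dig π χ (k + 1) ((u * FF (π * t) * u⁻¹ * (FF (π * t))⁻¹).1 0 1),
      dig π χ (k + 1 + 1) ((u * FF (π * t) * u⁻¹ * (FF (π * t))⁻¹).1 1 0)) = _
    congr 1
    rw [g2, g3]
    congr 1
    · apply h.dig_deep
      rw [hβ]
      exact ⟨-(t * π ^ (k + 1) * β ^ 2), by ring⟩
    · have e : π * t * ((u.1 1 1 - 1) * (u.1 1 1 + 1)) + (π * t) ^ 2 * (u.1 0 1 * u.1 1 1)
          = π ^ (k + 1 + 1) * (t * δ * (u.1 1 1 + 1) + π * (t ^ 2 * β * u.1 1 1)) := by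
        rw [hδ, hβ]; ring
      rw [e, h.dig_mul, map_add, map_mul, map_mul, map_add, map_one, χd, map_mul, h.pi, ht]
      field_simp
      ring
  refine ⟨_, mul_mem (hcomm _ (EE_mem_zero π s)) (hcomm _ (FF_mem_zero π t)),
    ((u * EE s * u⁻¹ * (EE s)⁻¹) * (u * FF (π * t) * u⁻¹ * (FF (π * t))⁻¹))⁻¹ * v, ?_, by group⟩
  have h1 : psiE π χ h (k + 1) ((⟨_, hm1⟩ * ⟨_, hm2⟩)⁻¹ * ⟨v, hv⟩) = 1 := by
    rw [map_mul, map_inv, map_mul, hd1, hd2]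
    change (Multiplicative.ofAdd (ζ1, (0 : ZMod p)) * Multiplicative.ofAdd ((0 : ZMod p), ζ2))⁻¹ *
      Multiplicative.ofAdd (ζ1, ζ2) = 1
    rw [← ofAdd_add, Prod.mk_add_mk, add_zero, zero_add]
    group
  exact (psiE_eq_one h (k + 1) _).1 h1

end Pool.Agent.H8R3.Thin
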