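import Mathlib

set_option autoImplicit false

namespace Pool.Agent.H8R3.Thin

/-- A filtration of a topological group by open normal subgroups with the covering property. -/
structure Filt (G : Type) [Group G] [TopologicalSpace G] (S : ℕ → Subgroup G) : Prop where
  zero : S 0 = ⊤
  anti : ∀ i, S (i + 1) ≤ S i
  nor : ∀ i, (S i).Normal
  op : ∀ i, IsOpen (S i : Set G)
  basis : ∀ U : Set G, IsOpen U → (1 : G) ∈ U → ∃ i, (S i : Set G) ⊆ U
  ne : ∀ i, ∃ u ∈ S i, u ∉ S (i + 1)
  cov : ∀ i, ∀ N : Subgroup G, N.Normal → ∀ u ∈ N, u ∈ S i → u ∉ S (i + 1) →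
    ∀ v ∈ S (i + 1), ∃ n ∈ N, ∃ w ∈ S (i + 2), v = n * w

variable {G : Type} [Group G] [TopologicalSpace G] {S : ℕ → Subgroup G}

theorem Filt.antitone (h : Filt G S) : Antitone S := antitone_nat_of_succ_le h.anti

theorem Filt.exists_mem (h : Filt G S) (N : Subgroup G) (hN : N.Normal) (i : ℕ) (u : G)
    (hu : u ∈ N) (hui : u ∈ S i) (hui' : u ∉ S (i + 1)) :
    ∀ m, ∃ u ∈ N, u ∈ S (i + m) ∧ u ∉ S (i + m + 1) := by
  intro m
  induction m with
  | zero => exact ⟨u, hu, hui, hui'⟩
  | succ m ih =>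
    obtain ⟨x, hxN, hx, hx'⟩ := ih
    obtain ⟨v, hv, hv'⟩ := h.ne (i + m + 1)
    obtain ⟨n, hn, w, hw, hvn⟩ := h.cov (i + m) N hN x hxN hx hx' v hv
    have hw1 : w ∈ S (i + m + 1) := h.anti _ hw
    have hnv : n = v * w⁻¹ := by rw [hvn]; group
    refine ⟨n, hn, ?_, ?_⟩
    · rw [hnv]; exact mul_mem hv (inv_mem hw1)
    · intro hn'
      apply hv'
      rw [hvn]
      exact mul_mem hn' hw

theorem Filt.le_mul (h : Filt G S) (N : Subgroup G) (hN : N.Normal) (i : ℕ) (u : G)
    (hu : u ∈ N) (hui : u ∈ S i) (hui' : u ∉ S (i + 1)) :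
    ∀ m, ∀ v ∈ S (i + 1), ∃ n ∈ N, ∃ w ∈ S (i + 1 + m), v = n * w := by
  intro m
  induction m with
  | zero => intro v hv; exact ⟨1, one_mem _, v, hv, by simp⟩
  | succ m ih =>
    intro v hv
    obtain ⟨n, hn, w, hw, hvn⟩ := ih v hv
    obtain ⟨x, hxN, hx, hx'⟩ := h.exists_mem N hN i u hu hui hui' m
    have hw' : w ∈ S (i + m + 1) := by
      have : i + m + 1 = i + 1 + m := by ring
      rw [this]; exact hw
    obtain ⟨n', hn', w', hw'', hwn⟩ := h.cov (i + m) N hN x hxN hx hx' w hw'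
    refine ⟨n * n', mul_mem hn hn', w', ?_, by rw [hvn, hwn, mul_assoc]⟩
    have : i + 1 + (m + 1) = i + m + 2 := by ring
    rw [this]; exact hw''

theorem Filt.closed_normal [IsTopologicalGroup G] [T2Space G] (h : Filt G S) (N : Subgroup G) (hN : N.Normal)
    (hcl : IsClosed (N : Set G)) (hne : N ≠ ⊥) : ∃ i, S (i + 1) ≤ N ∧ N ≤ S i := by
  classical
  -- some S j does not contain N
  have h1 : ∃ j, ¬ N ≤ S j := by
    obtain ⟨⟨g, hg⟩, hg2⟩ := Subgroup.ne_bot_iff_exists_ne_one.1 hne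
    have hg1 : g ≠ 1 := fun h => hg2 (Subtype.ext h)
    obtain ⟨i, hi⟩ := h.basis {g}ᶜ isOpen_compl_singleton (by
      intro hc; exact hg1 (Set.mem_singleton_iff.1 hc).symm)
    exact ⟨i, fun hle => (hi (hle hg)) rfl⟩
  have h2 : ¬ N ≤ S (Nat.find h1) := Nat.find_spec h1
  rcases hj : Nat.find h1 with _ | i
  · rw [hj] at h2
    rw [h.zero] at h2
    exact absurd le_top h2
  have h3 : N ≤ S i := by
    by_contra hcon
    exact Nat.find_min h1 (by omega) hcon
  rw [hj] at h2
  obtain ⟨u, huN, hu⟩ := Set.not_subset.1 h2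
  refine ⟨i, ?_, h3⟩
  intro v hv
  by_contra hvN
  have hopen : IsOpen {x : G | v * x⁻¹ ∉ (N : Set G)} := by
    have : {x : G | v * x⁻¹ ∉ (N : Set G)} = (fun x => v * x⁻¹) ⁻¹' (N : Set G)ᶜ := rfl
    rw [this]
    exact hcl.isOpen_compl.preimage (by fun_prop)
  obtain ⟨m, hm⟩ := h.basis _ hopen (by simpa using hvN)
  obtain ⟨n, hn, w, hw, hvn⟩ := h.le_mul N hN i u huN (h3 huN) hu m v hv
  have hwm : w ∈ S m := h.antitone (by omega) hw
  have := hm hwm
  apply this
  have : v * w⁻¹ = n := by rw [hvn]; group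
  show v * w⁻¹ ∈ (N : Set G)
  rw [this]; exact hn

/-- In a group of order dividing `p ^ 2`, an antichain of subgroups has at most `p + 1` members. -/
theorem card_antichain (p : ℕ) (hp : p.Prime) (V : Type) [Group V] [Finite V]
    (hV : Nat.card V ∣ p ^ 2) (T : Set (Subgroup V)) (hT : ∀ H ∈ T, H ≠ ⊥ ∧ H ≠ ⊤) :
    T.encard ≤ ((p + 1 : ℕ) : ℕ∞) := by
  classical
  have hcard : ∀ H ∈ T, Nat.card H = p ∧ Nat.card V = p ^ 2 := by
    intro H hH
    obtain ⟨k, hk, hk2⟩ := (Nat.dvd_prime_pow hp).1 hV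
    obtain ⟨j, hj, hj2⟩ := (Nat.dvd_prime_pow hp).1 ((Subgroup.card_subgroup_dvd_card H).trans hV)
    have h1 : Nat.card H ≠ 1 := by
      intro h
      exact (hT H hH).1 (Subgroup.card_eq_one.1 h)
    have h2 : Nat.card H ≠ Nat.card V := by
      intro h
      exact (hT H hH).2 (Subgroup.card_eq_iff_eq_top H |>.1 h)
    have h3 : Nat.card H ≤ Nat.card V := Subgroup.card_le_card_group H
    have hjk : j < k := by
      rw [hj2, hk2] at h3 h2
      have := (Nat.pow_le_pow_iff_right hp.one_lt).1 h3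
      rcases this.lt_or_eq with h | h
      · exact h
      · exact absurd (by rw [h]) h2
    have hj0 : j ≠ 0 := by
      rintro rfl
      exact h1 (by simpa using hj2)
    have e1 : j = 1 := by omega
    have e2 : k = 2 := by omega
    subst e1; subst e2
    exact ⟨by simpa using hj2, hk2⟩
  have hfin : T.Finite := Set.toFinite T
  haveI := Fintype.ofFinite V
  let F : Finset (Subgroup V) := hfin.toFinset
  have hF : ∀ H ∈ F, H ∈ T := fun H hH => hfin.mem_toFinset.1 hH
  rw [hfin.encard_eq_coe_toFinset_card]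
  have key : F.card ≤ p + 1 := by
    rcases F.eq_empty_or_nonempty with he | ⟨H0, hH0⟩
    · rw [he]; simp
    have hdisj : (F : Set (Subgroup V)).PairwiseDisjoint
        (fun H => (Finset.univ.filter (fun v : V => v ∈ H ∧ v ≠ 1))) := by
      intro H hH K hK hne
      rw [Function.onFun, Finset.disjoint_left]
      intro v hv hv'
      simp only [Finset.mem_filter, Finset.mem_univ, true_and] at hv hv'
      have hcH := (hcard H (hF H hH)).1
      have hcK := (hcard K (hF K hK)).1
      have hz : Nat.card (Subgroup.zpowers v) = p := by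
        have hd : Nat.card (Subgroup.zpowers v) ∣ p := by
          rw [← hcH]
          exact Subgroup.card_dvd_of_le (by rw [Subgroup.zpowers_le]; exact hv.1)
        rcases (Nat.dvd_prime hp).1 hd with h | h
        · exfalso
          apply hv.2
          rw [Nat.card_zpowers] at h
          exact orderOf_eq_one_iff.1 h
        · exact h
      apply hne
      have e1 : Subgroup.zpowers v = H :=
        Subgroup.eq_of_le_of_card_ge (by rw [Subgroup.zpowers_le]; exact hv.1) (by rw [hcH, hz])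
      have e2 : Subgroup.zpowers v = K :=
        Subgroup.eq_of_le_of_card_ge (by rw [Subgroup.zpowers_le]; exact hv'.1) (by rw [hcK, hz])
      rw [← e1, e2]
    have hsum := Finset.card_biUnion hdisj
    have hone : ∀ H ∈ F, (Finset.univ.filter (fun v : V => v ∈ H ∧ v ≠ 1)).card = p - 1 := by
      intro H hH
      have hcH := (hcard H (hF H hH)).1
      have : (Finset.univ.filter (fun v : V => v ∈ H ∧ v ≠ 1))
          = (Finset.univ.filter (fun v : V => v ∈ H)).erase 1 := by
        ext v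
        simp [and_comm]
      rw [this, Finset.card_erase_of_mem (by simp [one_mem])]
      congr 1
      rw [← hcH, Nat.card_eq_fintype_card, Fintype.card_subtype]
    rw [Finset.sum_congr rfl hone, Finset.sum_const, smul_eq_mul] at hsum
    have hle : (F.biUnion (fun H => (Finset.univ.filter (fun v : V => v ∈ H ∧ v ≠ 1)))).card
        ≤ ((Finset.univ : Finset V).erase 1).card := by
      apply Finset.card_le_card
      intro v hv
      simp only [Finset.mem_biUnion, Finset.mem_filter, Finset.mem_univ, true_and] at hv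
      obtain ⟨_, _, _, h⟩ := hv
      simp [h]
    rw [hsum, Finset.card_erase_of_mem (Finset.mem_univ _), Finset.card_univ,
      ← Nat.card_eq_fintype_card, (hcard H0 (hF H0 hH0)).2] at hle
    have hp2 := hp.two_le
    obtain ⟨q, rfl⟩ : ∃ q, p = q + 1 := ⟨p - 1, by omega⟩
    have : (q + 1) ^ 2 - 1 = (q + 2) * q := by
      have : (q + 1) ^ 2 = (q + 2) * q + 1 := by ring
      omega
    rw [this] at hle
    simp only [Nat.add_sub_cancel] at hle
    have := Nat.le_of_mul_le_mul_right hle (by omega)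
    omega
  exact_mod_cast key

/-- The finiteness data of the layers of the filtration: `S i / S (i + 1)` embeds in a finite group
of order dividing `p ^ 2`. -/
def Layer (S : ℕ → Subgroup G) (p : ℕ) (i : ℕ) : Prop :=
  ∃ (V : Type) (_ : Group V) (_ : Finite V) (f : S i →* V), Nat.card V ∣ p ^ 2 ∧
    ∀ x : S i, f x = 1 ↔ (x : G) ∈ S (i + 1)

theorem Filt.thin [IsTopologicalGroup G] [T2Space G] (h : Filt G S) (p : ℕ) (hp : p.Prime)
    (hl : ∀ i, Layer S p i) (T : Set (Subgroup G))
    (hT : ∀ H ∈ T, IsClosed (H : Set G) ∧ H.Normal) (hanti : IsAntichain (· ≤ ·) T) :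
    T.encard ≤ ((p + 1 : ℕ) : ℕ∞) := by
  classical
  by_cases hsub : T.Subsingleton
  · have h1 : T.encard ≤ 1 := Set.encard_le_one_iff_subsingleton.2 hsub
    refine h1.trans ?_
    have : (1 : ℕ) ≤ p + 1 := by omega
    exact_mod_cast this
  rw [Set.not_subsingleton_iff] at hsub
  have hother : ∀ H ∈ T, ∃ K ∈ T, K ≠ H := fun H hH => hsub.exists_ne H
  have hnb : ∀ H ∈ T, H ≠ ⊥ := by
    rintro H hH rfl
    obtain ⟨K, hK, hne⟩ := hother _ hH
    exact hanti hH hK (Ne.symm hne) bot_le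
  have hlev : ∀ H ∈ T, ∃ i, S (i + 1) ≤ H ∧ H ≤ S i :=
    fun H hH => h.closed_normal H (hT H hH).2 (hT H hH).1 (hnb H hH)
  obtain ⟨H1, hH1⟩ := hsub.nonempty
  obtain ⟨i, hi1, hi2⟩ := hlev H1 hH1
  have hall : ∀ H ∈ T, S (i + 1) ≤ H ∧ H ≤ S i := by
    intro H hH
    obtain ⟨j, hj1, hj2⟩ := hlev H hH
    by_cases hne : H = H1
    · rw [hne]; exact ⟨hi1, hi2⟩
    rcases lt_trichotomy i j with hij | hij | hij
    · exfalso
      have : H ≤ H1 := hj2.trans ((h.antitone (by omega : i + 1 ≤ j)).trans hi1)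
      exact hanti hH hH1 hne this
    · rw [hij]; exact ⟨hj1, hj2⟩
    · exfalso
      have : H1 ≤ H := hi2.trans ((h.antitone (by omega : j + 1 ≤ i)).trans hj1)
      exact hanti hH1 hH (Ne.symm hne) this
  have hstrict : ∀ H ∈ T, H ≠ S (i + 1) ∧ H ≠ S i := by
    intro H hH
    obtain ⟨K, hK, hne⟩ := hother _ hH
    refine ⟨?_, ?_⟩
    · rintro rfl
      exact hanti hH hK (Ne.symm hne) (hall K hK).1
    · rintro rfl
      exact hanti hK hH hne (hall K hK).2
  obtain ⟨V, iV, iF, f, hV, hf⟩ := hl i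
  let Φ : Subgroup G → Subgroup V := fun H => (H.subgroupOf (S i)).map f
  have hΦ : ∀ H ∈ T, (Φ H).comap f = H.subgroupOf (S i) := by
    intro H hH
    ext x
    simp only [Φ, Subgroup.mem_comap, Subgroup.mem_map]
    constructor
    · rintro ⟨y, hy, hxy⟩
      have h1 : f (y⁻¹ * x) = 1 := by rw [map_mul, map_inv, hxy]; group
      have h2 := (hf _).1 h1
      have h3 : ((y⁻¹ * x : S i) : G) ∈ H := (hall H hH).1 h2
      have h4 := mul_mem (Subgroup.mem_subgroupOf.1 hy) h3
      rw [Subgroup.mem_subgroupOf]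
      simpa using h4
    · intro hx
      exact ⟨x, hx, rfl⟩
  have hinj : Set.InjOn Φ T := by
    intro H hH K hK hHK
    have h1 := hΦ H hH
    have h2 := hΦ K hK
    rw [hHK, h2] at h1
    have h3 := congrArg (Subgroup.map (S i).subtype) h1
    rw [Subgroup.map_subgroupOf_eq_of_le (hall H hH).2,
      Subgroup.map_subgroupOf_eq_of_le (hall K hK).2] at h3
    exact h3.symm
  rw [← hinj.encard_image]
  apply card_antichain p hp V hV
  rintro _ ⟨H, hH, rfl⟩
  refine ⟨?_, ?_⟩
  · intro hbot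
    apply (hstrict H hH).1
    apply le_antisymm _ (hall H hH).1
    intro x hx
    have hxi : x ∈ S i := (hall H hH).2 hx
    have h1 : f ⟨x, hxi⟩ ∈ Φ H := ⟨⟨x, hxi⟩, Subgroup.mem_subgroupOf.2 hx, rfl⟩
    rw [hbot, Subgroup.mem_bot] at h1
    exact (hf _).1 h1
  · intro htop
    apply (hstrict H hH).2
    apply le_antisymm (hall H hH).2
    intro x hx
    have h1 := hΦ H hH
    rw [htop, Subgroup.comap_top] at h1
    have : (⟨x, hx⟩ : S i) ∈ H.subgroupOf (S i) := by rw [← h1]; trivial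
    exact Subgroup.mem_subgroupOf.1 this

end Pool.Agent.H8R3.Thin
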