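import Pool.Agent.H8R3.ThinFilt

set_option autoImplicit false

namespace Pool.Agent.H8R3.Thin

variable {G : Type} [Group G] [TopologicalSpace G] {S : ℕ → Subgroup G}

/-- A filtration with known indices and known behaviour of `p`-th powers. -/
structure PFilt (G : Type) [Group G] [TopologicalSpace G] (S : ℕ → Subgroup G) (p e : ℕ) : Prop
    extends Filt G S where
  index_even : ∀ k, (S (2 * k)).index = p ^ (3 * k)
  index_odd : ∀ k, (S (2 * k + 1)).index = p ^ (3 * k + 2)
  pow1 : ∀ k, ∃ u ∈ S (2 * k), u ^ p ∉ S (2 * (k + e + 1))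
  pow2 : ∃ k0, ∀ k, k0 ≤ k → ∀ u ∈ S (2 * k), u ^ p ∈ S (2 * (k + e))

theorem Filt.infinite (h : Filt G S) [T2Space G] : Infinite G := by
  by_contra hcon
  rw [not_infinite_iff_finite] at hcon
  have hd : DiscreteTopology G := inferInstance
  obtain ⟨i, hi⟩ := h.basis {1} (isOpen_discrete _) rfl
  obtain ⟨u, hu, hu'⟩ := h.ne i
  apply hu'
  have : u = 1 := hi hu
  rw [this]
  exact one_mem _

/-- the logarithm of the index of the `i`-th term -/
def dd (i : ℕ) : ℕ := 3 * (i / 2) + 2 * (i % 2)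

theorem PFilt.index_eq {p e : ℕ} (h : PFilt G S p e) (i : ℕ) : (S i).index = p ^ dd i := by
  rcases Nat.even_or_odd' i with ⟨k, rfl | rfl⟩
  · rw [h.index_even]
    congr 1
    simp [dd]
  · rw [h.index_odd]
    congr 1
    have h1 : (2 * k + 1) / 2 = k := by omega
    have h2 : (2 * k + 1) % 2 = 1 := by omega
    simp [dd, h1, h2]

theorem PFilt.index_pow {p e : ℕ} (h : PFilt G S p e) (hp : p.Prime) (N : Subgroup G)
    (hN : IsOpen (N : Set G)) : ∃ k : ℕ, N.index = p ^ k := by
  obtain ⟨i, hi⟩ := h.basis N hN (one_mem N)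
  have h1 : N.index ∣ (S i).index := Subgroup.index_dvd_of_le hi
  rw [h.index_eq] at h1
  obtain ⟨k, _, hk⟩ := (Nat.dvd_prime_pow hp).1 h1
  exact ⟨k, hk⟩

theorem PFilt.unique [IsTopologicalGroup G] [T2Space G] {p e : ℕ} (h : PFilt G S p e)
    (hp : p.Prime) (k : ℕ) (N : Subgroup G) (hN : N.Normal) (hcl : IsClosed (N : Set G))
    (hidx : N.index = p ^ (3 * k)) : N = S (2 * k) := by
  have hinf : Infinite G := h.toFilt.infinite
  have hpp : 0 < p ^ (3 * k) := pow_pos hp.pos _
  have hne : N ≠ ⊥ := by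
    rintro rfl
    rw [Subgroup.index_bot, Nat.card_eq_zero_of_infinite] at hidx
    omega
  obtain ⟨i, h1, h2⟩ := h.toFilt.closed_normal N hN hcl hne
  have hmono : ∀ A B : Subgroup G, A ≤ B → A.index ≠ 0 → A.index = B.index → A = B := by
    intro A B hAB h0 hAB'
    by_contra hne
    have hlt : A < B := lt_of_le_of_ne hAB hne
    have : A.FiniteIndex := ⟨h0⟩
    exact absurd hAB' (Subgroup.index_strictAnti hlt).ne'
  have d1 : (S i).index ∣ N.index := Subgroup.index_dvd_of_le h2
  have d2 : N.index ∣ (S (i + 1)).index := Subgroup.index_dvd_of_le h1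
  rw [hidx, h.index_eq] at d1
  rw [hidx, h.index_eq] at d2
  have e1 : dd i ≤ 3 * k := (Nat.pow_dvd_pow_iff_le_right hp.one_lt).1 d1
  have e2 : 3 * k ≤ dd (i + 1) := (Nat.pow_dvd_pow_iff_le_right hp.one_lt).1 d2
  have e3 : i = 2 * k ∨ i + 1 = 2 * k := by
    unfold dd at e1 e2
    omega
  rcases e3 with rfl | e3
  · apply hmono N _ h2 (by rw [hidx]; omega)
    rw [hidx, h.index_even]
  · rw [← e3]
    symm
    apply hmono _ N h1
    · rw [e3, h.index_even]; omega
    · rw [e3, hidx, h.index_even]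

theorem PFilt.not_iso [IsTopologicalGroup G] [T2Space G] {p e e' : ℕ} (h : PFilt G S p e)
    (hp : p.Prime) (hee : e < e') {G' : Type} [Group G'] [TopologicalSpace G']
    [IsTopologicalGroup G'] [T2Space G'] {S' : ℕ → Subgroup G'}
    (h' : PFilt G' S' p e') (φ : G ≃ₜ* G') : False := by
  -- the isomorphism respects the terms of even number
  have key : ∀ k, ∀ x : G, x ∈ S (2 * k) ↔ φ x ∈ S' (2 * k) := by
    intro k
    have hn := h'.nor (2 * k)
    have hcl : IsClosed ((S' (2 * k)).comap (φ : G →* G') : Set G) := by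
      have h1 : IsClosed (S' (2 * k) : Set G') := Subgroup.isClosed_of_isOpen _ (h'.op _)
      exact h1.preimage φ.continuous_toFun
    have hidx : ((S' (2 * k)).comap (φ : G →* G')).index = p ^ (3 * k) := by
      rw [Subgroup.index_comap_of_surjective _ φ.surjective, h'.index_even]
    have := h.unique hp k _ (hn.comap _) hcl hidx
    intro x
    rw [← this]
    rfl
  obtain ⟨k0, hk0⟩ := h'.pow2
  obtain ⟨u, hu, hu'⟩ := h.pow1 k0
  apply hu'
  rw [key, map_pow]
  have h1 := hk0 k0 le_rfl (φ u) ((key k0 u).1 hu)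
  exact h'.toFilt.antitone (by omega) h1

end Pool.Agent.H8R3.Thin
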