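import Pool.Agent.H8R3.ThinSL

set_option autoImplicit false

namespace Pool.Agent.H8R3.Thin

variable {R : Type} [CommRing R] {p : ℕ} [Fact p.Prime]

theorem mem_even {π : R} {k : ℕ} {g : SL R} : g ∈ Lev π (2 * k) ↔
    π ^ (k + 1) ∣ g.1 0 0 - 1 ∧ π ^ k ∣ g.1 0 1 ∧
    π ^ (k + 1) ∣ g.1 1 0 ∧ π ^ (k + 1) ∣ g.1 1 1 - 1 := by
  rw [mem_Lev]
  have e1 : 2 * k / 2 = k := by omega
  have e2 : (2 * k + 1) / 2 = k := by omega
  rw [e1, e2]

theorem mem_odd {π : R} {k : ℕ} {g : SL R} : g ∈ Lev π (2 * k + 1) ↔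
    π ^ (k + 1) ∣ g.1 0 0 - 1 ∧ π ^ (k + 1) ∣ g.1 0 1 ∧
    π ^ (k + 2) ∣ g.1 1 0 ∧ π ^ (k + 1) ∣ g.1 1 1 - 1 := by
  rw [mem_Lev]
  have e1 : (2 * k + 1) / 2 = k := by omega
  have e2 : (2 * k + 1 + 1) / 2 = k + 1 := by omega
  rw [e1, e2]

/-- the even layers -/
noncomputable def psiE (π : R) (χ : R →+* ZMod p) (h : Unif π χ) (k : ℕ) :
    Lev π (2 * k) →* Multiplicative (ZMod p × ZMod p) where
  toFun g := Multiplicative.ofAdd (dig π χ k (g.1.1 0 1), dig π χ (k + 1) (g.1.1 1 0))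
  map_one' := by
    have e1 : (1 : Lev π (2 * k)).1.1 0 1 = 0 := rfl
    have e2 : (1 : Lev π (2 * k)).1.1 1 0 = 0 := rfl
    rw [e1, e2, h.dig_deep k (dvd_zero _), h.dig_deep (k + 1) (dvd_zero _)]
    rfl
  map_mul' := by
    rintro ⟨g, hg⟩ ⟨g', hg'⟩
    obtain ⟨ga, gb, gc, gd⟩ := mem_even.1 hg
    obtain ⟨ha, hb, hc, hd⟩ := mem_even.1 hg'
    rw [← ofAdd_add]
    congr 1
    change (dig π χ k ((g * g').1 0 1), dig π χ (k + 1) ((g * g').1 1 0)) = _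
    rw [Prod.mk_add_mk]
    congr 1
    · rw [SL.mul01, ← h.dig_add k gb hb]
      apply h.dig_congr k (dvd_add gb hb)
      have : g.1 0 0 * g'.1 0 1 + g.1 0 1 * g'.1 1 1 - (g.1 0 1 + g'.1 0 1)
        = (g.1 0 0 - 1) * g'.1 0 1 + g.1 0 1 * (g'.1 1 1 - 1) := by ring
      rw [this]
      exact dvd_add (ga.mul_right _) (hd.mul_left _)
    · rw [SL.mul10, ← h.dig_add (k + 1) gc hc]
      apply h.dig_congr (k + 1) (dvd_add gc hc)
      have : g.1 1 0 * g'.1 0 0 + g.1 1 1 * g'.1 1 0 - (g.1 1 0 + g'.1 1 0)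
        = g.1 1 0 * (g'.1 0 0 - 1) + (g.1 1 1 - 1) * g'.1 1 0 := by ring
      rw [this]
      exact dvd_add (dvd_mul_of gc ha (by omega)) (dvd_mul_of gd hc (by omega))

/-- the odd layers -/
noncomputable def psiO (π : R) (χ : R →+* ZMod p) (h : Unif π χ) (k : ℕ) :
    Lev π (2 * k + 1) →* Multiplicative (ZMod p) where
  toFun g := Multiplicative.ofAdd (dig π χ (k + 1) (g.1.1 0 0 - 1))
  map_one' := by
    have e1 : (1 : Lev π (2 * k + 1)).1.1 0 0 - 1 = 0 := by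
      change (1 : R) - 1 = 0
      simp
    rw [e1, h.dig_deep (k + 1) (dvd_zero _)]
    rfl
  map_mul' := by
    rintro ⟨g, hg⟩ ⟨g', hg'⟩
    obtain ⟨ga, gb, gc, gd⟩ := mem_odd.1 hg
    obtain ⟨ha, hb, hc, hd⟩ := mem_odd.1 hg'
    rw [← ofAdd_add]
    congr 1
    change dig π χ (k + 1) ((g * g').1 0 0 - 1) = _
    rw [SL.mul00, ← h.dig_add (k + 1) ga ha]
    apply h.dig_congr (k + 1) (dvd_add ga ha)
    have : g.1 0 0 * g'.1 0 0 + g.1 0 1 * g'.1 1 0 - 1 - (g.1 0 0 - 1 + (g'.1 0 0 - 1))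
        = (g.1 0 0 - 1) * (g'.1 0 0 - 1) + g.1 0 1 * g'.1 1 0 := by ring
    rw [this]
    exact dvd_add (dvd_mul_of ga ha (by omega)) (dvd_mul_of gb hc (by omega))

theorem psiE_eq_one {π : R} {χ : R →+* ZMod p} (h : Unif π χ) (k : ℕ) (g : Lev π (2 * k)) :
    psiE π χ h k g = 1 ↔ (g : SL R) ∈ Lev π (2 * k + 1) := by
  obtain ⟨ga, gb, gc, gd⟩ := mem_even.1 g.2
  have : psiE π χ h k g = 1 ↔
      (dig π χ k (g.1.1 0 1) = 0 ∧ dig π χ (k + 1) (g.1.1 1 0) = 0) := by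
    change Multiplicative.ofAdd _ = 1 ↔ _
    rw [ofAdd_eq_one, Prod.mk_eq_zero]
  rw [this, h.dig_eq_zero k gb, h.dig_eq_zero (k + 1) gc, mem_odd]
  tauto

theorem diag_of_det {π : R} {k : ℕ} {g : SL R} (hg : g ∈ Lev π (2 * k + 1))
    (h : π ^ (k + 2) ∣ g.1 0 0 - 1) : π ^ (k + 2) ∣ g.1 1 1 - 1 := by
  obtain ⟨ga, gb, gc, gd⟩ := mem_odd.1 hg
  have hdet := SL.det g
  have : g.1 1 1 - 1 = - (g.1 0 0 - 1) - (g.1 0 0 - 1) * (g.1 1 1 - 1)
      + g.1 0 1 * g.1 1 0 := by linear_combination hdet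
  rw [this]
  exact dvd_add (dvd_sub ((dvd_neg).2 h) (h.mul_right _)) (dvd_mul_of gb gc (by omega))

theorem diag_sum {π : R} {k : ℕ} {g : SL R} (hg : g ∈ Lev π (2 * k + 1)) :
    π ^ (k + 2) ∣ (g.1 0 0 - 1) + (g.1 1 1 - 1) := by
  obtain ⟨ga, gb, gc, gd⟩ := mem_odd.1 hg
  have hdet := SL.det g
  have : (g.1 0 0 - 1) + (g.1 1 1 - 1) = - ((g.1 0 0 - 1) * (g.1 1 1 - 1))
      + g.1 0 1 * g.1 1 0 := by linear_combination hdet
  rw [this]
  exact dvd_add ((dvd_neg).2 (dvd_mul_of ga gd (by omega))) (dvd_mul_of gb gc (by omega))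

theorem psiO_eq_one {π : R} {χ : R →+* ZMod p} (h : Unif π χ) (k : ℕ) (g : Lev π (2 * k + 1)) :
    psiO π χ h k g = 1 ↔ (g : SL R) ∈ Lev π (2 * k + 1 + 1) := by
  obtain ⟨ga, gb, gc, gd⟩ := mem_odd.1 g.2
  have : psiO π χ h k g = 1 ↔ dig π χ (k + 1) (g.1.1 0 0 - 1) = 0 := by
    change Multiplicative.ofAdd _ = 1 ↔ _
    rw [ofAdd_eq_one]
  have e : 2 * k + 1 + 1 = 2 * (k + 1) := by ring
  rw [this, h.dig_eq_zero (k + 1) ga, e, mem_even]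
  constructor
  · intro h1
    exact ⟨h1, gb, gc, diag_of_det g.2 h1⟩
  · rintro ⟨h1, _⟩
    exact h1

/-- upper unipotent elements -/
def EE (s : R) : SL R := ⟨!![1, s; 0, 1], by simp [Matrix.det_fin_two]⟩

/-- lower unipotent elements -/
def FF (s : R) : SL R := ⟨!![1, 0; s, 1], by simp [Matrix.det_fin_two]⟩

/-- elements with prescribed diagonal -/
def CC (t : R) : SL R := ⟨!![1 + t + t ^ 2, -t; t ^ 2, 1 - t], by
  rw [Matrix.det_fin_two_of]; ring⟩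

@[simp] theorem EE00 (s : R) : (EE s).1 0 0 = 1 := rfl
@[simp] theorem EE01 (s : R) : (EE s).1 0 1 = s := rfl
@[simp] theorem EE10 (s : R) : (EE s).1 1 0 = 0 := rfl
@[simp] theorem EE11 (s : R) : (EE s).1 1 1 = 1 := rfl
@[simp] theorem FF00 (s : R) : (FF s).1 0 0 = 1 := rfl
@[simp] theorem FF01 (s : R) : (FF s).1 0 1 = 0 := rfl
@[simp] theorem FF10 (s : R) : (FF s).1 1 0 = s := rfl
@[simp] theorem FF11 (s : R) : (FF s).1 1 1 = 1 := rfl
@[simp] theorem CC00 (s : R) : (CC s).1 0 0 = 1 + s + s ^ 2 := rfl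
@[simp] theorem CC01 (s : R) : (CC s).1 0 1 = -s := rfl
@[simp] theorem CC10 (s : R) : (CC s).1 1 0 = s ^ 2 := rfl
@[simp] theorem CC11 (s : R) : (CC s).1 1 1 = 1 - s := rfl

theorem EE_mem (π : R) (k : ℕ) (s : R) : EE (π ^ k * s) ∈ Lev π (2 * k) := by
  rw [mem_even]; simp

theorem FF_mem (π : R) (k : ℕ) (s : R) : FF (π ^ (k + 1) * s) ∈ Lev π (2 * k) := by
  rw [mem_even]; simp

theorem CC_mem (π : R) (k : ℕ) (s : R) : CC (π ^ (k + 1) * s) ∈ Lev π (2 * k + 1) := by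
  rw [mem_odd]
  refine ⟨⟨s + π ^ (k + 1) * s ^ 2, ?_⟩, ⟨-s, ?_⟩, ⟨π ^ k * s ^ 2, ?_⟩, ⟨-s, ?_⟩⟩
  · rw [CC00]; ring
  · rw [CC01]; ring
  · rw [CC10]; ring
  · rw [CC11]; ring

theorem psiE_surj {π : R} {χ : R →+* ZMod p} (h : Unif π χ) (k : ℕ) :
    Function.Surjective (psiE π χ h k) := by
  intro v
  obtain ⟨x, hx⟩ := h.surj (Multiplicative.toAdd v).1
  obtain ⟨y, hy⟩ := h.surj (Multiplicative.toAdd v).2
  refine ⟨⟨EE (π ^ k * x), EE_mem π k x⟩ * ⟨FF (π ^ (k + 1) * y), FF_mem π k y⟩, ?_⟩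
  rw [map_mul]
  change Multiplicative.ofAdd (dig π χ k (π ^ k * x), dig π χ (k + 1) 0)
    * Multiplicative.ofAdd (dig π χ k 0, dig π χ (k + 1) (π ^ (k + 1) * y)) = v
  rw [h.dig_mul, h.dig_mul, h.dig_deep k (dvd_zero _), h.dig_deep (k + 1) (dvd_zero _),
    ← ofAdd_add, Prod.mk_add_mk, add_zero, zero_add, hx, hy]
  rfl

theorem psiO_surj {π : R} {χ : R →+* ZMod p} (h : Unif π χ) (k : ℕ) :
    Function.Surjective (psiO π χ h k) := by
  intro v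
  obtain ⟨x, hx⟩ := h.surj (Multiplicative.toAdd v)
  refine ⟨⟨CC (π ^ (k + 1) * x), CC_mem π k x⟩, ?_⟩
  change Multiplicative.ofAdd (dig π χ (k + 1) (1 + π ^ (k + 1) * x + (π ^ (k + 1) * x) ^ 2 - 1)) = v
  have e : 1 + π ^ (k + 1) * x + (π ^ (k + 1) * x) ^ 2 - 1
      = π ^ (k + 1) * (x + π ^ (k + 1) * x ^ 2) := by ring
  have e2 : χ (π ^ (k + 1) * x ^ 2) = 0 := by
    rw [map_mul, map_pow, h.pi, zero_pow (by omega), zero_mul]
  rw [e, h.dig_mul, map_add, e2, add_zero, hx]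
  rfl

theorem relIndex_even {π : R} {χ : R →+* ZMod p} (h : Unif π χ) (k : ℕ) :
    (Lev π (2 * k + 1)).relIndex (Lev π (2 * k)) = p ^ 2 := by
  have : (Lev π (2 * k + 1)).subgroupOf (Lev π (2 * k)) = (psiE π χ h k).ker := by
    ext x
    rw [Subgroup.mem_subgroupOf, MonoidHom.mem_ker, psiE_eq_one]
  rw [Subgroup.relIndex, this, Subgroup.index_ker, MonoidHom.range_eq_top.2 (psiE_surj h k),
    Nat.card_congr (Subgroup.topEquiv.toEquiv), Nat.card_congr Multiplicative.toAdd,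
    Nat.card_prod, Nat.card_zmod]
  ring

theorem relIndex_odd {π : R} {χ : R →+* ZMod p} (h : Unif π χ) (k : ℕ) :
    (Lev π (2 * k + 1 + 1)).relIndex (Lev π (2 * k + 1)) = p := by
  have : (Lev π (2 * k + 1 + 1)).subgroupOf (Lev π (2 * k + 1)) = (psiO π χ h k).ker := by
    ext x
    rw [Subgroup.mem_subgroupOf, MonoidHom.mem_ker, psiO_eq_one]
  rw [Subgroup.relIndex, this, Subgroup.index_ker, MonoidHom.range_eq_top.2 (psiO_surj h k),
    Nat.card_congr (Subgroup.topEquiv.toEquiv), Nat.card_congr Multiplicative.toAdd,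
    Nat.card_zmod]

theorem relIndex_zero {π : R} {χ : R →+* ZMod p} (h : Unif π χ) (k : ℕ) :
    (Lev π (2 * k)).relIndex (Lev π 0) = p ^ (3 * k) := by
  induction k with
  | zero => simp
  | succ k ih =>
    have e : 2 * (k + 1) = 2 * k + 1 + 1 := by ring
    rw [e, ← Subgroup.relIndex_mul_relIndex _ _ _ (Lev_anti π (2 * k + 1) (2 * k + 1 + 1) (by omega))
      (Lev_anti π 0 (2 * k + 1) (by omega)), relIndex_odd h,
      ← Subgroup.relIndex_mul_relIndex _ _ _ (Lev_anti π (2 * k) (2 * k + 1) (by omega))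
      (Lev_anti π 0 (2 * k) (by omega)), relIndex_even h, ih]
    ring

theorem relIndex_one {π : R} {χ : R →+* ZMod p} (h : Unif π χ) (k : ℕ) :
    (Lev π (2 * k + 1)).relIndex (Lev π 0) = p ^ (3 * k + 2) := by
  rw [← Subgroup.relIndex_mul_relIndex _ _ _ (Lev_anti π (2 * k) (2 * k + 1) (by omega))
      (Lev_anti π 0 (2 * k) (by omega)), relIndex_even h, relIndex_zero h]
  ring

/-! ### commutators -/

theorem comE (u : SL R) (s : R) :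
    (u * EE s * u⁻¹ * (EE s)⁻¹).1 0 0 - 1 = - (s * (u.1 0 0 * u.1 1 0)) ∧
    (u * EE s * u⁻¹ * (EE s)⁻¹).1 0 1
      = s * ((u.1 0 0 - 1) * (u.1 0 0 + 1)) + s ^ 2 * (u.1 0 0 * u.1 1 0) ∧
    (u * EE s * u⁻¹ * (EE s)⁻¹).1 1 0 = - (s * (u.1 1 0 * u.1 1 0)) ∧
    (u * EE s * u⁻¹ * (EE s)⁻¹).1 1 1 - 1
      = s * (u.1 0 0 * u.1 1 0) + s ^ 2 * (u.1 1 0 * u.1 1 0) := by
  have hdet := SL.det u
  refine ⟨?_, ?_, ?_, ?_⟩
  · simp only [SL.mul00, SL.mul01, SL.mul10, SL.mul11, SL.inv00, SL.inv01, SL.inv10, SL.inv11,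
      EE00, EE01, EE10, EE11]
    linear_combination hdet
  · simp only [SL.mul00, SL.mul01, SL.mul10, SL.mul11, SL.inv00, SL.inv01, SL.inv10, SL.inv11,
      EE00, EE01, EE10, EE11]
    linear_combination (-s) * hdet
  · simp only [SL.mul00, SL.mul01, SL.mul10, SL.mul11, SL.inv00, SL.inv01, SL.inv10, SL.inv11,
      EE00, EE01, EE10, EE11]
    ring
  · simp only [SL.mul00, SL.mul01, SL.mul10, SL.mul11, SL.inv00, SL.inv01, SL.inv10, SL.inv11,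
      EE00, EE01, EE10, EE11]
    linear_combination hdet

theorem comF (u : SL R) (t : R) :
    (u * FF t * u⁻¹ * (FF t)⁻¹).1 0 0 - 1
      = t * (u.1 0 1 * u.1 1 1) + t ^ 2 * (u.1 0 1 * u.1 0 1) ∧
    (u * FF t * u⁻¹ * (FF t)⁻¹).1 0 1 = - (t * (u.1 0 1 * u.1 0 1)) ∧
    (u * FF t * u⁻¹ * (FF t)⁻¹).1 1 0
      = t * ((u.1 1 1 - 1) * (u.1 1 1 + 1)) + t ^ 2 * (u.1 0 1 * u.1 1 1) ∧
    (u * FF t * u⁻¹ * (FF t)⁻¹).1 1 1 - 1 = - (t * (u.1 0 1 * u.1 1 1)) := by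
  have hdet := SL.det u
  refine ⟨?_, ?_, ?_, ?_⟩
  · simp only [SL.mul00, SL.mul01, SL.mul10, SL.mul11, SL.inv00, SL.inv01, SL.inv10, SL.inv11,
      FF00, FF01, FF10, FF11]
    linear_combination hdet
  · simp only [SL.mul00, SL.mul01, SL.mul10, SL.mul11, SL.inv00, SL.inv01, SL.inv10, SL.inv11,
      FF00, FF01, FF10, FF11]
    ring
  · simp only [SL.mul00, SL.mul01, SL.mul10, SL.mul11, SL.inv00, SL.inv01, SL.inv10, SL.inv11,
      FF00, FF01, FF10, FF11]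
    linear_combination (-t) * hdet
  · simp only [SL.mul00, SL.mul01, SL.mul10, SL.mul11, SL.inv00, SL.inv01, SL.inv10, SL.inv11,
      FF00, FF01, FF10, FF11]
    linear_combination hdet

end Pool.Agent.H8R3.Thin
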