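import Pool.Agent.H8R3.ThinSL

set_option autoImplicit false

namespace Pool.Agent.H8R3.Thin

open Polynomial

variable (p : ℕ) [Fact p.Prime] (e : ℕ)

/-- The Eisenstein polynomial `X ^ (e + 1) - p`. -/
noncomputable def ff : ℤ_[p][X] := X ^ (e + 1) - C (p : ℤ_[p])

theorem ff_monic : (ff p e).Monic := monic_X_pow_sub_C _ (by omega)

/-- The ring `ℤ_p[p ^ (1 / (e + 1))]`. -/
def RR : Type := AdjoinRoot (ff p e)

noncomputable instance : CommRing (RR p e) := inferInstanceAs (CommRing (AdjoinRoot (ff p e)))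
noncomputable instance : Algebra ℤ_[p] (RR p e) :=
  inferInstanceAs (Algebra ℤ_[p] (AdjoinRoot (ff p e)))
noncomputable instance : TopologicalSpace (RR p e) := moduleTopology ℤ_[p] (RR p e)
instance : IsModuleTopology ℤ_[p] (RR p e) := ⟨rfl⟩

/-- the power basis -/
noncomputable def bb : Module.Basis (Fin (AdjoinRoot.powerBasis' (ff_monic p e)).dim) ℤ_[p] (RR p e) :=
  (AdjoinRoot.powerBasis' (ff_monic p e)).basis

instance : Module.Finite ℤ_[p] (RR p e) := Module.Finite.of_basis (bb p e)

instance : IsTopologicalRing (RR p e) := IsModuleTopology.isTopologicalRing ℤ_[p] (RR p e)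

/-- coordinates -/
noncomputable def coordHomeo :
    RR p e ≃ₜ (Fin (AdjoinRoot.powerBasis' (ff_monic p e)).dim → ℤ_[p]) where
  toEquiv := (bb p e).equivFun.toEquiv
  continuous_toFun := IsModuleTopology.continuous_of_linearMap (bb p e).equivFun.toLinearMap
  continuous_invFun := IsModuleTopology.continuous_of_linearMap (bb p e).equivFun.symm.toLinearMap

instance : CompactSpace (RR p e) := (coordHomeo p e).symm.compactSpace
instance : T2Space (RR p e) := (coordHomeo p e).isEmbedding.t2Space

instance : TotallyDisconnectedSpace ℤ_[p] := inferInstance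

instance : TotallyDisconnectedSpace (RR p e) := by
  have h : TotallyDisconnectedSpace (Fin (AdjoinRoot.powerBasis' (ff_monic p e)).dim → ℤ_[p]) :=
    inferInstance
  exact (coordHomeo p e).symm.totallyDisconnectedSpace

/-- the uniformiser -/
noncomputable def pii : RR p e := AdjoinRoot.root (ff p e)

theorem pii_pow : (pii p e) ^ (e + 1) = (p : RR p e) := by
  have h := AdjoinRoot.eval₂_root (ff p e)
  unfold ff at h
  rw [eval₂_sub, eval₂_X_pow, eval₂_C, sub_eq_zero] at h
  have h2 : (AdjoinRoot.of (ff p e)) (p : ℤ_[p]) = (p : AdjoinRoot (ff p e)) := map_natCast _ _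
  exact h.trans h2

/-- the residue map -/
noncomputable def chi : RR p e →+* ZMod p :=
  AdjoinRoot.lift (PadicInt.toZMod) 0 (by
    unfold ff
    rw [eval₂_sub, eval₂_X_pow, eval₂_C, zero_pow (by omega), map_natCast, zero_sub]
    simp)

/-- the quotient map -/
noncomputable def mkR : ℤ_[p][X] →+* RR p e := AdjoinRoot.mk (ff p e)

theorem mkR_surj : Function.Surjective (mkR p e) := AdjoinRoot.mk_surjective (g := ff p e)

theorem mkR_X : mkR p e X = pii p e := rfl

theorem p_dvd_iff (z : ℤ_[p]) : PadicInt.toZMod z = 0 ↔ (p : ℤ_[p]) ∣ z := by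
  rw [← RingHom.mem_ker, PadicInt.ker_toZMod, PadicInt.maximalIdeal_eq_span_p,
    Ideal.mem_span_singleton]

theorem coord_dvd (k : ℕ) (x : RR p e) (h : ∀ i, (p : ℤ_[p]) ^ k ∣ (bb p e).equivFun x i) :
    (p : RR p e) ^ k ∣ x := by
  rw [← (bb p e).sum_equivFun x]
  apply Finset.dvd_sum
  intro i _
  obtain ⟨c, hc⟩ := h i
  rw [hc, Algebra.smul_def, map_mul, map_pow, map_natCast, mul_assoc]
  exact dvd_mul_right _ _

theorem dvd_coord (k : ℕ) (x : RR p e) (h : (p : RR p e) ^ k ∣ x) (i) :
    (p : ℤ_[p]) ^ k ∣ (bb p e).equivFun x i := by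
  obtain ⟨y, rfl⟩ := h
  have : (p : RR p e) ^ k * y = ((p : ℤ_[p]) ^ k) • y := by
    rw [Algebra.smul_def, map_pow, map_natCast]
  rw [this, map_smul, Pi.smul_apply, smul_eq_mul]
  exact dvd_mul_right _ _

theorem unif : Unif (pii p e) (chi p e) where
  ker := by
    intro x
    constructor
    · intro hx
      obtain ⟨g, rfl⟩ := mkR_surj p e x
      have h1 : g = X * g.divX + C (g.coeff 0) := (X_mul_divX_add g).symm
      have h2 : chi p e (mkR p e g) = PadicInt.toZMod (g.coeff 0) := by
        unfold chi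
        have h3 := AdjoinRoot.lift_mk (f := ff p e) (i := PadicInt.toZMod) (a := (0 : ZMod p))
          (by
            unfold ff
            rw [eval₂_sub, eval₂_X_pow, eval₂_C, zero_pow (by omega), map_natCast, zero_sub]
            simp) g
        refine h3.trans ?_
        rw [eval₂_at_zero]
      rw [h2, p_dvd_iff] at hx
      obtain ⟨c, hc⟩ := hx
      have h4 : mkR p e g = pii p e * mkR p e g.divX + (pii p e) ^ (e + 1) * mkR p e (C c) := by
        have e0 : mkR p e g = mkR p e (X * g.divX + C ((p : ℤ_[p]) * c)) := by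
          rw [← hc, ← h1]
        rw [e0, pii_pow, map_add, map_mul, C_mul, map_mul, C_eq_natCast, map_natCast, mkR_X]
      rw [h4]
      exact dvd_add (dvd_mul_right _ _) ((dvd_pow_self _ (by omega)).mul_right _)
    · rintro ⟨y, rfl⟩
      rw [map_mul]
      have : chi p e (pii p e) = 0 := by
        unfold chi pii
        exact AdjoinRoot.lift_root _
      rw [this, zero_mul]
  reg := by
    intro x hx
    have h1 : (p : RR p e) * x = 0 := by
      rw [← pii_pow, pow_succ, mul_assoc, hx, mul_zero]
    have h2 : (p : ℤ_[p]) • x = 0 := by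
      rw [Algebra.smul_def, map_natCast]; exact h1
    have h3 : (bb p e).equivFun x = 0 := by
      have h4 := congrArg (bb p e).equivFun h2
      rw [map_smul, map_zero] at h4
      funext i
      have h5 := congrFun h4 i
      rw [Pi.smul_apply, smul_eq_mul, Pi.zero_apply] at h5
      rcases mul_eq_zero.1 h5 with h6 | h6
      · exact absurd h6 (by
          have := (Fact.out : p.Prime).ne_zero
          exact_mod_cast this)
      · exact h6
    exact (bb p e).equivFun.map_eq_zero_iff.1 h3

theorem isOpen_pow_dvd (k : ℕ) : IsOpen {z : ℤ_[p] | (p : ℤ_[p]) ^ k ∣ z} := by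
  have h1 : {z : ℤ_[p] | (p : ℤ_[p]) ^ k ∣ z} = Metric.closedBall 0 ((p : ℝ) ^ (-(k : ℤ))) := by
    ext z
    rw [Set.mem_ofPred_eq, mem_closedBall_zero_iff, PadicInt.norm_le_pow_iff_mem_span_pow,
      Ideal.mem_span_singleton]
  rw [h1]
  apply IsUltrametricDist.isOpen_closedBall
  have := (Fact.out : p.Prime).pos
  positivity

theorem hop (k : ℕ) : IsOpen {x : RR p e | (pii p e) ^ k ∣ x} := by
  let A : AddSubgroup (RR p e) :=
    { carrier := {x : RR p e | (pii p e) ^ k ∣ x}
      add_mem' := fun ha hb => dvd_add ha hb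
      zero_mem' := dvd_zero _
      neg_mem' := fun ha => (dvd_neg).2 ha }
  have h1 : IsOpen (A : Set (RR p e)) := by
    apply AddSubgroup.isOpen_of_mem_nhds A (g := 0)
    have h2 : IsOpen {x : RR p e | ∀ i, (p : ℤ_[p]) ^ k ∣ (bb p e).equivFun x i} := by
      have h3 : {x : RR p e | ∀ i, (p : ℤ_[p]) ^ k ∣ (bb p e).equivFun x i}
          = ⋂ i, (fun x => coordHomeo p e x i) ⁻¹' {z : ℤ_[p] | (p : ℤ_[p]) ^ k ∣ z} := by
        ext x
        simp only [Set.mem_ofPred_eq, Set.mem_iInter, Set.mem_preimage]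
        rfl
      rw [h3]
      apply isOpen_iInter_of_finite
      intro i
      exact (isOpen_pow_dvd p k).preimage ((continuous_apply i).comp (coordHomeo p e).continuous)
    refine Filter.mem_of_superset (h2.mem_nhds ?_) ?_
    · intro i
      rw [map_zero, Pi.zero_apply]
      exact dvd_zero _
    · intro x hx
      have h4 := coord_dvd p e k x hx
      rw [← pii_pow, ← pow_mul] at h4
      exact (pow_dvd_pow _ (by nlinarith)).trans h4
  exact h1

theorem hsep (x : RR p e) (hx : ∀ k, (pii p e) ^ k ∣ x) : x = 0 := by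
  have h1 : ∀ i, (bb p e).equivFun x i = 0 := by
    intro i
    apply PadicInt.ext_of_toZModPow.1
    intro n
    rw [map_zero, ← RingHom.mem_ker, PadicInt.ker_toZModPow, Ideal.mem_span_singleton]
    apply dvd_coord
    have := hx ((e + 1) * n)
    rwa [pow_mul, pii_pow] at this
  exact (bb p e).equivFun.map_eq_zero_iff.1 (funext h1)

end Pool.Agent.H8R3.Thin
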