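import Pool.Agent.H8R3.ThinTop
import Pool.Agent.H8R3.ThinRing

set_option autoImplicit false

namespace Pool.Agent.H8R3.Thin

variable (p : ℕ) [Fact p.Prime] (e : ℕ)

instance : CompactSpace (Iw (pii p e)) := compact_Iw (pii p e) (hop p e)
instance : TotallyDisconnectedSpace (Iw (pii p e)) := by
  have h : TotallyDisconnectedSpace (SL (RR p e)) := totDisc_SL
  infer_instance
instance : T2Space (Iw (pii p e)) := by
  have h : T2Space (SL (RR p e)) := t2_SL
  infer_instance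

/-- The pro-`p` Iwahori subgroup of `SL_2 (ℤ_p[p ^ (1 / (e + 1))])`. -/
noncomputable def GG : ProfiniteGrp.{0} := ProfiniteGrp.of (Iw (pii p e))

theorem pfilt (h2 : (2 : ZMod p) ≠ 0) : PFilt (Iw (pii p e)) (IwF (pii p e)) p (e + 1) :=
  iw_pfilt (pii p e) (chi p e) (unif p e) h2 (hop p e) (hsep p e) (e + 1) (pii_pow p e).symm

theorem GG_spec (h2 : (2 : ZMod p) ≠ 0) : Infinite (GG p e) ∧
    (∀ N : Subgroup (GG p e), IsOpen (N : Set (GG p e)) → N.Normal → ∃ k : ℕ, N.index = p ^ k) ∧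
    (∀ S : Set (Subgroup (GG p e)), (∀ H ∈ S, IsClosed (H : Set (GG p e)) ∧ H.Normal) →
            IsAntichain (· ≤ ·) S → S.encard ≤ ((p + 1 : ℕ) : ℕ∞)) := by
  have hp : p.Prime := Fact.out
  refine ⟨(pfilt p e h2).toFilt.infinite, ?_, ?_⟩
  · intro N hN _
    exact (pfilt p e h2).index_pow hp N hN
  · intro S hS hanti
    exact (pfilt p e h2).toFilt.thin p hp (iw_layer (pii p e) (chi p e) (unif p e)) S hS hanti

theorem GG_not_iso (h2 : (2 : ZMod p) ≠ 0) (e' : ℕ) (hee : e < e') :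
    ¬ Nonempty (GG p e ≃ₜ* GG p e') := by
  rintro ⟨φ⟩
  exact (pfilt p e h2).not_iso Fact.out (by omega) (pfilt p e' h2) φ

/-- No finite list of profinite groups contains all infinite thin pro-`p` groups, for an odd
prime `p`. -/
theorem main (h2 : (2 : ZMod p) ≠ 0) (n : ℕ) (F : Fin n → ProfiniteGrp.{0}) :
    ∃ e : ℕ, ∀ i : Fin n, ¬ Nonempty (GG p e ≃ₜ* F i) := by
  by_contra hcon
  push Not at hcon
  choose i hi using hcon
  obtain ⟨a, b, hab, hiab⟩ := Finite.exists_ne_map_eq_of_infinite i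
  obtain ⟨φ⟩ := hi a
  obtain ⟨ψ⟩ := hi b
  rw [hiab] at φ
  rcases lt_or_gt_of_ne hab with h | h
  · exact GG_not_iso p a h2 b h ⟨φ.trans ψ.symm⟩
  · exact GG_not_iso p b h2 a h ⟨ψ.trans φ.symm⟩

end Pool.Agent.H8R3.Thin
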