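import Pool.Agent.H8R3.ThinLayer

set_option autoImplicit false

namespace Pool.Agent.H8R3.Thin

variable {R : Type} [CommRing R] {p : ℕ} [Fact p.Prime]

theorem EE_mul (s t : R) : EE s * EE t = EE (s + t) := by
  ext i j
  fin_cases i <;> fin_cases j
  · change (EE s * EE t).1 0 0 = _
    rw [SL.mul00]; simp
  · change (EE s * EE t).1 0 1 = _
    rw [SL.mul01]; simp [add_comm]
  · change (EE s * EE t).1 1 0 = _
    rw [SL.mul10]; simp
  · change (EE s * EE t).1 1 1 = _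
    rw [SL.mul11]; simp

theorem EE_zero : EE (0 : R) = 1 := by
  ext i j
  fin_cases i <;> fin_cases j <;> rfl

theorem EE_pow (s : R) (n : ℕ) : EE s ^ n = EE (n * s) := by
  induction n with
  | zero => rw [pow_zero, Nat.cast_zero, zero_mul, EE_zero]
  | succ n ih => rw [pow_succ, ih, EE_mul]; congr 1; push_cast; ring

theorem pow1 {π : R} {χ : R →+* ZMod p} (h : Unif π χ) (e : ℕ) (hp : (p : R) = π ^ e) (k : ℕ) :
    ∃ u ∈ Lev π (2 * k), u ^ p ∉ Lev π (2 * (k + e + 1)) := by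
  refine ⟨EE (π ^ k * 1), EE_mem π k 1, ?_⟩
  rw [EE_pow, hp, mem_even]
  rintro ⟨-, h1, -⟩
  rw [EE01] at h1
  have e1 : π ^ e * (π ^ k * 1) = π ^ (k + e) * 1 := by ring
  rw [e1] at h1
  have h2 := h.dig_deep (k + e) h1
  rw [h.dig_mul, map_one] at h2
  exact one_ne_zero h2

/-- matrices in the `2 k`-th power of the radical of the Iwahori order -/
def JJ (π : R) (k : ℕ) (m : Matrix (Fin 2) (Fin 2) R) : Prop :=
  π ^ (k + 1) ∣ m 0 0 ∧ π ^ k ∣ m 0 1 ∧ π ^ (k + 1) ∣ m 1 0 ∧ π ^ (k + 1) ∣ m 1 1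

theorem JJ.mul {π : R} {k l : ℕ} {x y : Matrix (Fin 2) (Fin 2) R} (hx : JJ π k x)
    (hy : JJ π l y) : JJ π (k + l) (x * y) := by
  obtain ⟨xa, xb, xc, xd⟩ := hx
  obtain ⟨ya, yb, yc, yd⟩ := hy
  refine ⟨?_, ?_, ?_, ?_⟩
  · rw [Matrix.mul_apply, Fin.sum_univ_two]
    exact dvd_add (dvd_mul_of xa ya (by omega)) (dvd_mul_of xb yc (by omega))
  · rw [Matrix.mul_apply, Fin.sum_univ_two]
    exact dvd_add (dvd_mul_of xa yb (by omega)) (dvd_mul_of xb yd (by omega))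
  · rw [Matrix.mul_apply, Fin.sum_univ_two]
    exact dvd_add (dvd_mul_of xc ya (by omega)) (dvd_mul_of xd yc (by omega))
  · rw [Matrix.mul_apply, Fin.sum_univ_two]
    exact dvd_add (dvd_mul_of xc yb (by omega)) (dvd_mul_of xd yd (by omega))

theorem JJ.of_le {π : R} {k l : ℕ} {x : Matrix (Fin 2) (Fin 2) R} (hx : JJ π k x)
    (hkl : l ≤ k) : JJ π l x :=
  ⟨dvd_of_le hx.1 (by omega), dvd_of_le hx.2.1 (by omega), dvd_of_le hx.2.2.1 (by omega),
    dvd_of_le hx.2.2.2 (by omega)⟩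

theorem JJ.add {π : R} {k : ℕ} {x y : Matrix (Fin 2) (Fin 2) R} (hx : JJ π k x)
    (hy : JJ π k y) : JJ π k (x + y) :=
  ⟨dvd_add hx.1 hy.1, dvd_add hx.2.1 hy.2.1, dvd_add hx.2.2.1 hy.2.2.1,
    dvd_add hx.2.2.2 hy.2.2.2⟩

theorem JJ.zero {π : R} {k : ℕ} : JJ π k 0 := by
  refine ⟨?_, ?_, ?_, ?_⟩ <;> exact dvd_zero _

theorem JJ.smul {π : R} {k e : ℕ} {x : Matrix (Fin 2) (Fin 2) R} (hx : JJ π k x) (c : R)
    (hc : π ^ e ∣ c) : JJ π (k + e) (c • x) := by
  obtain ⟨xa, xb, xc, xd⟩ := hx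
  refine ⟨?_, ?_, ?_, ?_⟩
  · rw [Matrix.smul_apply, smul_eq_mul]; exact dvd_mul_of hc xa (by omega)
  · rw [Matrix.smul_apply, smul_eq_mul]; exact dvd_mul_of hc xb (by omega)
  · rw [Matrix.smul_apply, smul_eq_mul]; exact dvd_mul_of hc xc (by omega)
  · rw [Matrix.smul_apply, smul_eq_mul]; exact dvd_mul_of hc xd (by omega)

theorem JJ.pow {π : R} {k : ℕ} {x : Matrix (Fin 2) (Fin 2) R} (hx : JJ π k x) (m : ℕ) :
    JJ π (k * (m + 1)) (x ^ (m + 1)) := by
  induction m with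
  | zero => simpa using hx
  | succ m ih =>
    rw [pow_succ]
    have := ih.mul hx
    have e : k * (m + 1 + 1) = k * (m + 1) + k := by ring
    rw [e]; exact this

theorem JJ.sum {π : R} {k : ℕ} {ι : Type} (s : Finset ι) (f : ι → Matrix (Fin 2) (Fin 2) R)
    (hf : ∀ i ∈ s, JJ π k (f i)) : JJ π k (∑ i ∈ s, f i) := by
  classical
  induction s using Finset.induction_on with
  | empty => simpa using JJ.zero
  | insert a s ha ih =>
    rw [Finset.sum_insert ha]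
    exact (hf a (Finset.mem_insert_self _ _)).add
      (ih (fun i hi => hf i (Finset.mem_insert_of_mem hi)))

theorem JJ_iff {π : R} {k : ℕ} {u : SL R} : u ∈ Lev π (2 * k) ↔ JJ π k (u.1 - 1) := by
  rw [mem_even]
  unfold JJ
  simp

theorem pow2 {π : R} (e : ℕ) (hp : (p : R) = π ^ e) (k : ℕ) (hk : e ≤ k) (u : SL R)
    (hu : u ∈ Lev π (2 * k)) : u ^ p ∈ Lev π (2 * (k + e)) := by
  have hpp : p.Prime := Fact.out
  rw [JJ_iff] at hu ⊢
  set x := u.1 - 1 with hx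
  have e1 : (u ^ p).1 = (x + 1) ^ p := by
    rw [hx, sub_add_cancel]
    rfl
  rw [e1, (Commute.one_right x).add_pow, Finset.sum_range_succ']
  simp only [one_pow, mul_one, pow_zero, Nat.choose_zero_right, Nat.cast_one]
  rw [add_sub_cancel_right]
  apply JJ.sum
  intro m hm
  rw [Finset.mem_range] at hm
  have hxm := hu.pow m
  have e2 : x ^ (m + 1) * ((p.choose (m + 1) : ℕ) : Matrix (Fin 2) (Fin 2) R)
      = ((p.choose (m + 1) : ℕ) : R) • x ^ (m + 1) := by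
    rw [← nsmul_eq_mul', Nat.cast_smul_eq_nsmul]
  rw [e2]
  rcases Nat.lt_or_ge (m + 1) p with hlt | hge
  · have hd : π ^ e ∣ ((p.choose (m + 1) : ℕ) : R) := by
      obtain ⟨c, hc⟩ := hpp.dvd_choose_self (by omega) hlt
      rw [hc]
      push_cast
      rw [hp]
      exact dvd_mul_right _ _
    refine (hxm.smul _ hd).of_le ?_
    have : k ≤ k * (m + 1) := Nat.le_mul_of_pos_right k (by omega)
    omega
  · have hmp : m + 1 = p := by omega
    have h1 := hxm.smul (e := 0) ((p.choose (m + 1) : ℕ) : R) (by simp)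
    refine h1.of_le ?_
    have : k * 2 ≤ k * (m + 1) := Nat.mul_le_mul_left k (by rw [hmp]; exact hpp.two_le)
    omega

end Pool.Agent.H8R3.Thin
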