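import Mathlib

set_option autoImplicit false

namespace Pool.Agent.H8R3.Thin

variable {R : Type} [CommRing R] {p : ℕ} [Fact p.Prime]

/-- `π` generates the kernel of the residue map `χ` and is not a zero divisor. -/
structure Unif (π : R) (χ : R →+* ZMod p) : Prop where
  ker : ∀ x, χ x = 0 ↔ π ∣ x
  reg : ∀ x, π * x = 0 → x = 0

namespace Unif

variable {π : R} {χ : R →+* ZMod p}

theorem pow_reg (h : Unif π χ) (k : ℕ) (x : R) (hx : π ^ k * x = 0) : x = 0 := by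
  induction k with
  | zero => simpa using hx
  | succ k ih =>
    apply ih
    apply h.reg
    rw [← hx]; ring

theorem pow_cancel (h : Unif π χ) (k : ℕ) (x y : R) (hx : π ^ k * x = π ^ k * y) : x = y := by
  have := h.pow_reg k (x - y) (by rw [mul_sub, hx, sub_self])
  exact sub_eq_zero.1 this

theorem surj (_ : Unif π χ) (a : ZMod p) : ∃ x, χ x = a := ZMod.ringHom_surjective χ a

theorem pi (h : Unif π χ) : χ π = 0 := (h.ker π).2 dvd_rfl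

end Unif

open Classical in
/-- the residue of `x / π ^ k` -/
noncomputable def dig (π : R) (χ : R →+* ZMod p) (k : ℕ) (x : R) : ZMod p :=
  if h : π ^ k ∣ x then χ h.choose else 0

namespace Unif

variable {π : R} {χ : R →+* ZMod p}

theorem dig_mul (h : Unif π χ) (k : ℕ) (y : R) : dig π χ k (π ^ k * y) = χ y := by
  have hd : π ^ k ∣ π ^ k * y := dvd_mul_right _ _
  unfold dig
  rw [dif_pos hd]
  have := hd.choose_spec
  rw [← h.pow_cancel k _ _ this]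

theorem dig_add (h : Unif π χ) (k : ℕ) {x y : R} (hx : π ^ k ∣ x) (hy : π ^ k ∣ y) :
    dig π χ k (x + y) = dig π χ k x + dig π χ k y := by
  obtain ⟨a, rfl⟩ := hx
  obtain ⟨b, rfl⟩ := hy
  rw [← mul_add, h.dig_mul, h.dig_mul, h.dig_mul, map_add]

theorem dig_eq_zero (h : Unif π χ) (k : ℕ) {x : R} (hx : π ^ k ∣ x) :
    dig π χ k x = 0 ↔ π ^ (k + 1) ∣ x := by
  obtain ⟨a, rfl⟩ := hx
  rw [h.dig_mul, h.ker]
  constructor
  · rintro ⟨b, rfl⟩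
    exact ⟨b, by ring⟩
  · rintro ⟨b, hb⟩
    refine ⟨b, h.pow_cancel k _ _ ?_⟩
    rw [hb]; ring

theorem dig_deep (h : Unif π χ) (k : ℕ) {x : R} (hx : π ^ (k + 1) ∣ x) : dig π χ k x = 0 :=
  (h.dig_eq_zero k ((pow_dvd_pow _ (by omega)).trans hx)).2 hx

theorem dig_congr (h : Unif π χ) (k : ℕ) {x y : R} (hx : π ^ k ∣ x) (hxy : π ^ (k + 1) ∣ y - x) :
    dig π χ k y = dig π χ k x := by
  have : y = x + (y - x) := by ring
  rw [this, h.dig_add k hx ((pow_dvd_pow _ (by omega)).trans hxy), h.dig_deep k hxy, add_zero]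

end Unif

/-! ### The filtration of the pro-`p` Iwahori subgroup -/

/-- abbreviation for the special linear group -/
abbrev SL (R : Type) [CommRing R] := Matrix.SpecialLinearGroup (Fin 2) R

theorem SL.det (g : SL R) : g.1 0 0 * g.1 1 1 - g.1 0 1 * g.1 1 0 = 1 := by
  have := g.2
  rwa [Matrix.det_fin_two] at this

theorem SL.mul00 (g h : SL R) : (g * h).1 0 0 = g.1 0 0 * h.1 0 0 + g.1 0 1 * h.1 1 0 := by
  change (g.1 * h.1) 0 0 = _
  rw [Matrix.mul_apply, Fin.sum_univ_two]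

theorem SL.mul01 (g h : SL R) : (g * h).1 0 1 = g.1 0 0 * h.1 0 1 + g.1 0 1 * h.1 1 1 := by
  change (g.1 * h.1) 0 1 = _
  rw [Matrix.mul_apply, Fin.sum_univ_two]

theorem SL.mul10 (g h : SL R) : (g * h).1 1 0 = g.1 1 0 * h.1 0 0 + g.1 1 1 * h.1 1 0 := by
  change (g.1 * h.1) 1 0 = _
  rw [Matrix.mul_apply, Fin.sum_univ_two]

theorem SL.mul11 (g h : SL R) : (g * h).1 1 1 = g.1 1 0 * h.1 0 1 + g.1 1 1 * h.1 1 1 := by
  change (g.1 * h.1) 1 1 = _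
  rw [Matrix.mul_apply, Fin.sum_univ_two]

theorem SL.inv00 (g : SL R) : (g⁻¹).1 0 0 = g.1 1 1 := by
  rw [Matrix.SpecialLinearGroup.SL2_inv_expl]; rfl

theorem SL.inv01 (g : SL R) : (g⁻¹).1 0 1 = - g.1 0 1 := by
  rw [Matrix.SpecialLinearGroup.SL2_inv_expl]; rfl

theorem SL.inv10 (g : SL R) : (g⁻¹).1 1 0 = - g.1 1 0 := by
  rw [Matrix.SpecialLinearGroup.SL2_inv_expl]; rfl

theorem SL.inv11 (g : SL R) : (g⁻¹).1 1 1 = g.1 0 0 := by
  rw [Matrix.SpecialLinearGroup.SL2_inv_expl]; rfl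

theorem dvd_of_le {π x : R} {a b : ℕ} (h : π ^ a ∣ x) (hab : b ≤ a) : π ^ b ∣ x :=
  (pow_dvd_pow _ hab).trans h

theorem dvd_mul_of {π x y : R} {a b c : ℕ} (hx : π ^ a ∣ x) (hy : π ^ b ∣ y) (hab : c ≤ a + b) :
    π ^ c ∣ x * y := by
  have := mul_dvd_mul hx hy
  rw [← pow_add] at this
  exact dvd_of_le this hab

/-- The `i`-th term of the filtration. -/
def Lev (π : R) (i : ℕ) : Subgroup (SL R) where
  carrier := {g | π ^ (i / 2 + 1) ∣ g.1 0 0 - 1 ∧ π ^ ((i + 1) / 2) ∣ g.1 0 1 ∧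
    π ^ ((i + 1) / 2 + 1) ∣ g.1 1 0 ∧ π ^ (i / 2 + 1) ∣ g.1 1 1 - 1}
  one_mem' := by simp
  mul_mem' := by
    rintro g h ⟨ga, gb, gc, gd⟩ ⟨ha, hb, hc, hd⟩
    have e1 : i / 2 + 1 ≤ (i + 1) / 2 + ((i + 1) / 2 + 1) := by omega
    refine ⟨?_, ?_, ?_, ?_⟩
    · rw [SL.mul00]
      have : g.1 0 0 * h.1 0 0 + g.1 0 1 * h.1 1 0 - 1
        = (g.1 0 0 - 1) * h.1 0 0 + (h.1 0 0 - 1) + g.1 0 1 * h.1 1 0 := by ring
      rw [this]
      exact dvd_add (dvd_add (ga.mul_right _) ha) (dvd_mul_of gb hc e1)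
    · rw [SL.mul01]
      exact dvd_add (hb.mul_left _) (gb.mul_right _)
    · rw [SL.mul10]
      exact dvd_add (gc.mul_right _) (hc.mul_left _)
    · rw [SL.mul11]
      have : g.1 1 0 * h.1 0 1 + g.1 1 1 * h.1 1 1 - 1
        = g.1 1 0 * h.1 0 1 + ((g.1 1 1 - 1) * h.1 1 1 + (h.1 1 1 - 1)) := by ring
      rw [this]
      exact dvd_add (dvd_mul_of gc hb (by omega)) (dvd_add (gd.mul_right _) hd)
  inv_mem' := by
    rintro g ⟨ga, gb, gc, gd⟩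
    refine ⟨?_, ?_, ?_, ?_⟩
    · rw [SL.inv00]; exact gd
    · rw [SL.inv01]; exact (dvd_neg).2 gb
    · rw [SL.inv10]; exact (dvd_neg).2 gc
    · rw [SL.inv11]; exact ga

theorem mem_Lev {π : R} {i : ℕ} {g : SL R} : g ∈ Lev π i ↔
    π ^ (i / 2 + 1) ∣ g.1 0 0 - 1 ∧ π ^ ((i + 1) / 2) ∣ g.1 0 1 ∧
    π ^ ((i + 1) / 2 + 1) ∣ g.1 1 0 ∧ π ^ (i / 2 + 1) ∣ g.1 1 1 - 1 := Iff.rfl

theorem Lev_anti (π : R) (i j : ℕ) (hij : i ≤ j) : Lev π j ≤ Lev π i := by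
  rintro g ⟨ga, gb, gc, gd⟩
  exact ⟨dvd_of_le ga (by omega), dvd_of_le gb (by omega), dvd_of_le gc (by omega),
    dvd_of_le gd (by omega)⟩

theorem Lev_conj (π : R) (i : ℕ) (h g : SL R) (hh : h ∈ Lev π 0) (hg : g ∈ Lev π i) :
    h * g * h⁻¹ ∈ Lev π i := by
  obtain ⟨ga, gb, gc, gd⟩ := hg
  obtain ⟨ha, hb, hc, hd⟩ := hh
  have hc' : π ^ 1 ∣ h.1 1 0 := hc
  have hdet := SL.det h
  refine ⟨?_, ?_, ?_, ?_⟩
  · rw [SL.mul00, SL.mul00, SL.mul01, SL.inv00, SL.inv10]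
    have : (h.1 0 0 * g.1 0 0 + h.1 0 1 * g.1 1 0) * h.1 1 1
        + (h.1 0 0 * g.1 0 1 + h.1 0 1 * g.1 1 1) * -h.1 1 0 - 1
        = (g.1 0 0 - 1) * (h.1 0 0 * h.1 1 1) + g.1 1 0 * (h.1 0 1 * h.1 1 1)
          - h.1 0 0 * (g.1 0 1 * h.1 1 0) - (g.1 1 1 - 1) * (h.1 0 1 * h.1 1 0) := by
      linear_combination hdet
    rw [this]
    refine dvd_sub (dvd_sub (dvd_add (ga.mul_right _) ((dvd_of_le gc (by omega)).mul_right _)) ?_)
      (gd.mul_right _)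
    exact (dvd_mul_of gb hc' (by omega)).mul_left _
  · rw [SL.mul01, SL.mul00, SL.mul01, SL.inv01, SL.inv11]
    have : (h.1 0 0 * g.1 0 0 + h.1 0 1 * g.1 1 0) * -h.1 0 1
        + (h.1 0 0 * g.1 0 1 + h.1 0 1 * g.1 1 1) * h.1 0 0
        = - ((g.1 0 0 - 1) * (h.1 0 0 * h.1 0 1)) - g.1 1 0 * (h.1 0 1 * h.1 0 1)
          + g.1 0 1 * (h.1 0 0 * h.1 0 0) + (g.1 1 1 - 1) * (h.1 0 1 * h.1 0 0) := by
      ring
    rw [this]
    refine dvd_add (dvd_add (dvd_sub ((dvd_neg).2 ((dvd_of_le ga (by omega)).mul_right _))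
      ((dvd_of_le gc (by omega)).mul_right _)) (gb.mul_right _))
      ((dvd_of_le gd (by omega)).mul_right _)
  · rw [SL.mul10, SL.mul10, SL.mul11, SL.inv00, SL.inv10]
    have : (h.1 1 0 * g.1 0 0 + h.1 1 1 * g.1 1 0) * h.1 1 1
        + (h.1 1 0 * g.1 0 1 + h.1 1 1 * g.1 1 1) * -h.1 1 0
        = ((g.1 0 0 - 1) * h.1 1 0) * h.1 1 1 + g.1 1 0 * (h.1 1 1 * h.1 1 1)
          - (g.1 0 1 * h.1 1 0) * h.1 1 0 - ((g.1 1 1 - 1) * h.1 1 0) * h.1 1 1 := by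
      ring
    rw [this]
    refine dvd_sub (dvd_sub (dvd_add ((dvd_mul_of ga hc' (by omega)).mul_right _)
      (gc.mul_right _)) ((dvd_mul_of gb hc' (by omega)).mul_right _))
      ((dvd_mul_of gd hc' (by omega)).mul_right _)
  · rw [SL.mul11, SL.mul10, SL.mul11, SL.inv01, SL.inv11]
    have : (h.1 1 0 * g.1 0 0 + h.1 1 1 * g.1 1 0) * -h.1 0 1
        + (h.1 1 0 * g.1 0 1 + h.1 1 1 * g.1 1 1) * h.1 0 0 - 1
        = -((g.1 0 0 - 1) * (h.1 1 0 * h.1 0 1)) - g.1 1 0 * (h.1 1 1 * h.1 0 1)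
          + (g.1 0 1 * h.1 1 0) * h.1 0 0 + (g.1 1 1 - 1) * (h.1 1 1 * h.1 0 0) := by
      linear_combination hdet
    rw [this]
    refine dvd_add (dvd_add (dvd_sub ((dvd_neg).2 (ga.mul_right _))
      ((dvd_of_le gc (by omega)).mul_right _)) ((dvd_mul_of gb hc' (by omega)).mul_right _))
      (gd.mul_right _)

end Pool.Agent.H8R3.Thin
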