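import Pool.Agent.H8R3.ThinIso
import Pool.Agent.H8R3.ThinCov
import Pool.Agent.H8R3.ThinPow

set_option autoImplicit false

namespace Pool.Agent.H8R3.Thin

section
variable {R : Type} [CommRing R] [TopologicalSpace R] [IsTopologicalRing R]

omit [IsTopologicalRing R] in
theorem continuous_entry (i j : Fin 2) : Continuous (fun g : SL R => g.1 i j) := by
  have h1 : Continuous (fun g : SL R => g.1) := continuous_subtype_val
  exact h1.matrix_elem i j

theorem isOpen_Lev (π : R) (hop : ∀ k, IsOpen {x : R | π ^ k ∣ x}) (i : ℕ) :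
    IsOpen (Lev π i : Set (SL R)) := by
  have h1 : (Lev π i : Set (SL R)) =
      ((fun g : SL R => g.1 0 0 - 1) ⁻¹' {x : R | π ^ (i / 2 + 1) ∣ x}) ∩
      (((fun g : SL R => g.1 0 1) ⁻¹' {x : R | π ^ ((i + 1) / 2) ∣ x}) ∩
      (((fun g : SL R => g.1 1 0) ⁻¹' {x : R | π ^ ((i + 1) / 2 + 1) ∣ x}) ∩
      ((fun g : SL R => g.1 1 1 - 1) ⁻¹' {x : R | π ^ (i / 2 + 1) ∣ x}))) := rfl
  rw [h1]
  refine ((hop _).preimage ((continuous_entry 0 0).sub continuous_const)).inter
    (((hop _).preimage (continuous_entry 0 1)).inter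
    (((hop _).preimage (continuous_entry 1 0)).inter
    ((hop _).preimage ((continuous_entry 1 1).sub continuous_const))))

theorem compactSpace_SL [CompactSpace R] [T2Space R] : CompactSpace (SL R) := by
  have h1 : CompactSpace (Matrix (Fin 2) (Fin 2) R) :=
    inferInstanceAs (CompactSpace (Fin 2 → Fin 2 → R))
  exact (Matrix.SpecialLinearGroup.isClosedEmbedding_val (n := Fin 2) (R := R)).compactSpace

theorem totDisc_SL [T2Space R] [TotallyDisconnectedSpace R] : TotallyDisconnectedSpace (SL R) := by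
  have h1 : TotallyDisconnectedSpace (Matrix (Fin 2) (Fin 2) R) :=
    inferInstanceAs (TotallyDisconnectedSpace (Fin 2 → Fin 2 → R))
  exact inferInstanceAs (TotallyDisconnectedSpace {A : Matrix (Fin 2) (Fin 2) R // A.det = 1})

theorem t2_SL [T2Space R] : T2Space (SL R) := by
  have h1 : T2Space (Matrix (Fin 2) (Fin 2) R) :=
    inferInstanceAs (T2Space (Fin 2 → Fin 2 → R))
  have h2 : Topology.IsEmbedding (fun g : SL R => g.1) :=
    (Matrix.SpecialLinearGroup.isClosedEmbedding_val (n := Fin 2) (R := R)).isEmbedding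
  exact h2.t2Space

end

/-- the pro-`p` Iwahori subgroup -/
abbrev Iw {R : Type} [CommRing R] (π : R) : Type := ↥(Lev π 0)

/-- the filtration of the pro-`p` Iwahori subgroup -/
def IwF {R : Type} [CommRing R] (π : R) (i : ℕ) : Subgroup (Iw π) := (Lev π i).subgroupOf (Lev π 0)

section
variable {R : Type} [CommRing R] [TopologicalSpace R] [IsTopologicalRing R] [CompactSpace R]
  [T2Space R] [TotallyDisconnectedSpace R] {p : ℕ} [Fact p.Prime]

theorem compact_Iw (π : R) (hop : ∀ k, IsOpen {x : R | π ^ k ∣ x}) : CompactSpace (Iw π) := by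
  have h1 : CompactSpace (SL R) := compactSpace_SL
  have h2 : IsClosed (Lev π 0 : Set (SL R)) := Subgroup.isClosed_of_isOpen _ (isOpen_Lev π hop 0)
  exact isCompact_iff_compactSpace.1 h2.isCompact

theorem iw_normal (π : R) (i : ℕ) : (IwF π i).Normal := by
  constructor
  rintro ⟨n, hn0⟩ hn ⟨g, hg⟩
  exact Lev_conj π i g n hg hn

theorem iw_filt (π : R) (χ : R →+* ZMod p) (h : Unif π χ) (h2 : (2 : ZMod p) ≠ 0)
    (hop : ∀ k, IsOpen {x : R | π ^ k ∣ x}) (hsep : ∀ x : R, (∀ k, π ^ k ∣ x) → x = 0) :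
    Filt (Iw π) (IwF π) where
  zero := Subgroup.subgroupOf_self _
  anti i := fun g hg => Lev_anti π i (i + 1) (by omega) hg
  nor := iw_normal π
  op i := (isOpen_Lev π hop i).preimage continuous_subtype_val
  basis := by
    intro U hU h1U
    have : CompactSpace (Iw π) := compact_Iw π hop
    have hcl : ∀ i, IsClosed (IwF π i : Set (Iw π)) := by
      intro i
      apply Subgroup.isClosed_of_isOpen
      exact (isOpen_Lev π hop i).preimage continuous_subtype_val
    refine exists_subset_nhds_of_compactSpace (V := fun i => (IwF π i : Set (Iw π))) ?_ hcl ?_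
    · apply Antitone.directed_ge
      apply antitone_nat_of_succ_le
      intro i g hg
      exact Lev_anti π i (i + 1) (by omega) hg
    · intro x hx
      have hx1 : x = 1 := by
        rw [Set.mem_iInter] at hx
        have hx' : ∀ k, (x : SL R) ∈ Lev π (2 * k) := fun k => hx (2 * k)
        apply Subtype.ext
        ext i j
        have ha : x.1.1 0 0 - 1 = 0 := hsep _ (fun k => dvd_of_le (mem_even.1 (hx' k)).1 (by omega))
        have hb : x.1.1 0 1 = 0 := hsep _ (fun k => (mem_even.1 (hx' k)).2.1)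
        have hc : x.1.1 1 0 = 0 :=
          hsep _ (fun k => dvd_of_le (mem_even.1 (hx' k)).2.2.1 (by omega))
        have hd : x.1.1 1 1 - 1 = 0 :=
          hsep _ (fun k => dvd_of_le (mem_even.1 (hx' k)).2.2.2 (by omega))
        fin_cases i <;> fin_cases j
        · exact sub_eq_zero.1 ha
        · exact hb
        · exact hc
        · exact sub_eq_zero.1 hd
      rw [hx1]
      exact hU.mem_nhds h1U
  ne := by
    intro i
    rcases Nat.even_or_odd' i with ⟨k, rfl | rfl⟩
    · obtain ⟨g, hg⟩ := psiE_surj h k (Multiplicative.ofAdd (1, 0))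
      refine ⟨⟨g.1, Lev_anti π 0 (2 * k) (by omega) g.2⟩, g.2, ?_⟩
      intro hcon
      have h1 : psiE π χ h k g = 1 := (psiE_eq_one h k g).2 hcon
      rw [hg, ofAdd_eq_one, Prod.mk_eq_zero] at h1
      exact one_ne_zero h1.1
    · obtain ⟨g, hg⟩ := psiO_surj h k (Multiplicative.ofAdd 1)
      refine ⟨⟨g.1, Lev_anti π 0 (2 * k + 1) (by omega) g.2⟩, g.2, ?_⟩
      intro hcon
      have h1 : psiO π χ h k g = 1 := (psiO_eq_one h k g).2 hcon
      rw [hg, ofAdd_eq_one] at h1
      exact one_ne_zero h1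
  cov := by
    intro i N hN u huN hu hu' v hv
    let M : Subgroup (SL R) := N.map (Lev π 0).subtype
    have hM : ∀ g ∈ Lev π 0, ∀ n ∈ M, g * n * g⁻¹ ∈ M := by
      rintro g hg _ ⟨n, hn, rfl⟩
      have hc := hN.conj_mem n hn (⟨g, hg⟩ : Iw π)
      have hc2 := Subgroup.mem_map_of_mem (Lev π 0).subtype hc
      rw [map_mul, map_mul, map_inv] at hc2
      exact hc2
    have huM : (u : SL R) ∈ M := Subgroup.mem_map_of_mem (Lev π 0).subtype huN
    have hu1 : (u : SL R) ∈ Lev π i := hu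
    have hu2 : (u : SL R) ∉ Lev π (i + 1) := hu'
    have hv1 : (v : SL R) ∈ Lev π (i + 1) := hv
    have key : ∃ n ∈ M, ∃ w ∈ Lev π (i + 2), (v : SL R) = n * w := by
      rcases Nat.even_or_odd' i with ⟨k, hk | hk⟩
      · rw [hk] at hu1 hu2 hv1 ⊢
        have e : 2 * k + 2 = 2 * k + 1 + 1 := rfl
        rw [e]
        exact cov_even h k M hM u huM hu1 hu2 v hv1
      · rw [hk] at hu1 hu2 hv1 ⊢
        have e : 2 * k + 1 + 2 = 2 * k + 1 + 1 + 1 := rfl
        rw [e]
        exact cov_odd h h2 k M hM u huM hu1 hu2 v hv1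
    obtain ⟨_, ⟨n, hn, rfl⟩, w, hw, hvw⟩ := key
    have hw0 : w ∈ Lev π 0 := Lev_anti π 0 (i + 2) (Nat.zero_le _) hw
    refine ⟨n, hn, ⟨w, hw0⟩, Subgroup.mem_subgroupOf.2 hw, ?_⟩
    apply Subtype.ext
    rw [Subgroup.coe_mul]
    exact hvw

theorem iw_layer (π : R) (χ : R →+* ZMod p) (h : Unif π χ) (i : ℕ) :
    Layer (IwF π) p i := by
  have e0 : Lev π i ≤ Lev π 0 := Lev_anti π 0 i (by omega)
  rcases Nat.even_or_odd' i with ⟨k, rfl | rfl⟩
  · refine ⟨Multiplicative (ZMod p × ZMod p), inferInstance, inferInstance,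
      (psiE π χ h k).comp (Subgroup.subgroupOfEquivOfLe e0).toMonoidHom, ?_, ?_⟩
    · rw [Nat.card_congr Multiplicative.toAdd, Nat.card_prod, Nat.card_zmod]
      exact dvd_of_eq (by ring)
    · intro x
      exact psiE_eq_one h k _
  · refine ⟨Multiplicative (ZMod p), inferInstance, inferInstance,
      (psiO π χ h k).comp (Subgroup.subgroupOfEquivOfLe e0).toMonoidHom, ?_, ?_⟩
    · rw [Nat.card_congr Multiplicative.toAdd, Nat.card_zmod]
      exact dvd_pow_self p (by omega)
    · intro x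
      exact psiO_eq_one h k _

theorem iw_pfilt (π : R) (χ : R →+* ZMod p) (h : Unif π χ) (h2 : (2 : ZMod p) ≠ 0)
    (hop : ∀ k, IsOpen {x : R | π ^ k ∣ x}) (hsep : ∀ x : R, (∀ k, π ^ k ∣ x) → x = 0)
    (e : ℕ) (hp : (p : R) = π ^ e) :
    PFilt (Iw π) (IwF π) p e where
  toFilt := iw_filt π χ h h2 hop hsep
  index_even k := relIndex_zero h k
  index_odd k := relIndex_one h k
  pow1 k := by
    obtain ⟨u, hu, hu'⟩ := pow1 h e hp k
    refine ⟨⟨u, Lev_anti π 0 (2 * k) (by omega) hu⟩, hu, ?_⟩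
    intro hcon
    exact hu' hcon
  pow2 := ⟨e, fun k hk u hu => pow2 e hp k hk (u : SL R) hu⟩

end

end Pool.Agent.H8R3.Thin
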